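import Pool.Agent.Helper71.TH.Defs

/-!
Definitions for the continuous triangular Hilbert transform (continuation of helper71's
dyadic proof, namespace `TH71`).
-/

set_option autoImplicit false
set_option linter.unusedVariables false

open Matrix MeasureTheory

namespace TH71

/-- test function of two variables: continuous with compact support -/
def tzT (f : ℝ → ℝ → ℝ) : Prop :=
  Continuous (fun p : ℝ × ℝ => f p.1 p.2) ∧ HasCompactSupport (fun p : ℝ × ℝ => f p.1 p.2)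

/-- `0` or `1` -/
def tzu (b : Bool) : ℝ := if b then 1 else 0

/-- normalised `2^n x 2^n` matrix of samples of `f` with mesh `δ` and corner `(p,q)` -/
noncomputable def MR (δ : ℝ) : ∀ (n : ℕ), (ℝ → ℝ → ℝ) → ℝ → ℝ → Matrix (Idx n) (Idx n) ℝ
  | 0, f, p, q => fun _ _ => f p q
  | n + 1, f, p, q =>
      par (fun a b => MR δ n f (p + tzu a * (2 ^ n * δ)) (q + tzu b * (2 ^ n * δ)))

/-- the parent matrix of level `n + 1` (same as `MR δ (n+1) f p q`, with explicit index type) -/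
noncomputable def MP (δ : ℝ) (n : ℕ) (f : ℝ → ℝ → ℝ) (p q : ℝ) :
    Matrix (Bool × Idx n) (Bool × Idx n) ℝ :=
  par (fun a b => MR δ n f (p + tzu a * (2 ^ n * δ)) (q + tzu b * (2 ^ n * δ)))

/-- pair potential on the plane `p + q + r = ν` -/
noncomputable def tzH (δ : ℝ) (n : ℕ) (f g : ℝ → ℝ → ℝ) (ν : ℝ) : ℝ :=
  ∫ p : ℝ × ℝ, (P (MR δ n f p.1 p.2) * P (MR δ n g p.2 (ν - p.1 - p.2))ᵀ).trace

/-- integrated `Psi` -/
noncomputable def tzPsi (δ : ℝ) (n : ℕ) (f : ℝ → ℝ → ℝ) : ℝ :=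
  ∫ p : ℝ × ℝ, Psi (MR δ n f p.1 p.2)

/-- gain on the plane `p + q + r = ν`, level `n + 1` -/
noncomputable def tzE (δ : ℝ) (n : ℕ) (f g : ℝ → ℝ → ℝ) (ν : ℝ) : ℝ :=
  ∫ p : ℝ × ℝ, E (sg (Idx n)) (MP δ n f p.1 p.2) (MP δ n g p.2 (ν - p.1 - p.2))

/-- third moment -/
noncomputable def tzN (f : ℝ → ℝ → ℝ) : ℝ := ∫ p : ℝ × ℝ, |f p.1 p.2| ^ 3

/-- plane of level `n` -/
noncomputable def tznu (δ : ℝ) (n : ℕ) : ℝ := -((2 ^ (n + 1) - 2) * δ)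

/-- averaged pair potential of level `n` -/
noncomputable def tzG (δ : ℝ) (n : ℕ) (f g : ℝ → ℝ → ℝ) : ℝ :=
  (1/2) * (tzH δ n f g (tznu δ n) + tzH δ n f g (tznu δ n + 2 ^ n * δ))

/-- scaled function -/
noncomputable def tzs (l : ℝ) (f : ℝ → ℝ → ℝ) : ℝ → ℝ → ℝ := fun x y => l⁻¹ * f x y

/-- node quantity on the plane `ν` -/
noncomputable def tzD (δ : ℝ) (n : ℕ) (f g h : ℝ → ℝ → ℝ) (ν : ℝ) (p : ℝ × ℝ) : ℝ :=
  (sg (Idx n) * MP δ n f p.1 p.2 * sg (Idx n) * MP δ n g p.2 (ν - p.1 - p.2) *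
    sg (Idx n) * MP δ n h (ν - p.1 - p.2) p.1).trace

/-- sum over scales of the three gains at a point of the plane `ν` -/
noncomputable def tzS (δ : ℝ) (n K : ℕ) (f g h : ℝ → ℝ → ℝ) (ν : ℝ) (p : ℝ × ℝ) : ℝ :=
  ∑ k ∈ Finset.Ico (-(K : ℤ)) (K : ℤ), (lam k) ^ 3 *
    (E (sg (Idx n)) ((lam k)⁻¹ • MP δ n f p.1 p.2)
        ((lam k)⁻¹ • MP δ n g p.2 (ν - p.1 - p.2)) +
     E (sg (Idx n)) ((lam k)⁻¹ • MP δ n g p.2 (ν - p.1 - p.2))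
        ((lam k)⁻¹ • MP δ n h (ν - p.1 - p.2) p.1) +
     E (sg (Idx n)) ((lam k)⁻¹ • MP δ n h (ν - p.1 - p.2) p.1)
        ((lam k)⁻¹ • MP δ n f p.1 p.2))

/-- `T(s) = ∫∫ f(x,y) g(y,s-x-y) h(s-x-y,x) dx dy` -/
noncomputable def tzTT (f g h : ℝ → ℝ → ℝ) (s : ℝ) : ℝ :=
  ∫ p : ℝ × ℝ, f p.1 p.2 * g p.2 (s - p.1 - p.2) * h (s - p.1 - p.2) p.1

/-- sign of the upper bit -/
noncomputable def tze (M i : ℕ) : ℝ := if i < M / 2 then 1 else -1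

/-- discrete triple Haar average of `T` -/
noncomputable def tzV (T : ℝ → ℝ) (δ : ℝ) (n : ℕ) (ν : ℝ) : ℝ :=
  (1 / 8 ^ n) * ∑ i ∈ Finset.range (2 ^ n), ∑ k ∈ Finset.range (2 ^ n), ∑ l ∈ Finset.range (2 ^ n),
    tze (2 ^ n) i * tze (2 ^ n) k * tze (2 ^ n) l * T (ν + ((i : ℝ) + (k : ℝ) + (l : ℝ)) * δ)

/-- continuous Haar sign on `[0,1]` -/
noncomputable def tzh (x : ℝ) : ℝ := if x < 1/2 then 1 else -1

/-- continuous triple Haar average at scale `t` -/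
noncomputable def tzU (T : ℝ → ℝ) (t : ℝ) : ℝ :=
  ∫ a in Set.Icc (0:ℝ) 1, ∫ b in Set.Icc (0:ℝ) 1, ∫ c in Set.Icc (0:ℝ) 1,
    tzh a * tzh b * tzh c * T (t * (a + b + c - 1))

/-- truncated triangular Hilbert form through `T` -/
noncomputable def tzL (T : ℝ → ℝ) (ε N : ℝ) : ℝ :=
  ∫ s in {s : ℝ | ε < |s| ∧ |s| < N}, T s / s

/-- truncated triangular Hilbert form of three functions of two variables -/
noncomputable def Lam3 (f g h : ℝ → ℝ → ℝ) (ε N : ℝ) : ℝ :=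
  ∫ x : ℝ × ℝ × ℝ in {x | ε < |x.1 + x.2.1 + x.2.2| ∧ |x.1 + x.2.1 + x.2.2| < N},
    f x.1 x.2.1 * g x.2.1 x.2.2 * h x.2.2 x.1 / (x.1 + x.2.1 + x.2.2)

/-- truncated 4-linear simplex Hilbert form of four functions of three variables -/
noncomputable def Lam4 (f g h k : ℝ → ℝ → ℝ → ℝ) (ε N : ℝ) : ℝ :=
  ∫ x : ℝ × ℝ × ℝ × ℝ in {x | ε < |x.1 + x.2.1 + x.2.2.1 + x.2.2.2| ∧
      |x.1 + x.2.1 + x.2.2.1 + x.2.2.2| < N},
    f x.1 x.2.1 x.2.2.1 * g x.2.1 x.2.2.1 x.2.2.2 * h x.2.2.1 x.2.2.2 x.1 *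
      k x.2.2.2 x.1 x.2.1 / (x.1 + x.2.1 + x.2.2.1 + x.2.2.2)

/-- `L^3` norm of a function of two variables -/
noncomputable def nrm3 (f : ℝ → ℝ → ℝ) : ℝ := (∫ p : ℝ × ℝ, |f p.1 p.2| ^ 3) ^ ((1:ℝ)/3)

/-- `L^3` norm of a function of three variables -/
noncomputable def nrm33 (f : ℝ → ℝ → ℝ → ℝ) : ℝ :=
  (∫ p : ℝ × ℝ × ℝ, |f p.1 p.2.1 p.2.2| ^ 3) ^ ((1:ℝ)/3)

/-- test function of three variables: continuous with compact support -/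
def tzT3 (f : ℝ → ℝ → ℝ → ℝ) : Prop :=
  Continuous (fun p : ℝ × ℝ × ℝ => f p.1 p.2.1 p.2.2) ∧
    HasCompactSupport (fun p : ℝ × ℝ × ℝ => f p.1 p.2.1 p.2.2)

end TH71
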