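import Pool.Agent.Helper933.TR.Defs

set_option autoImplicit false
set_option linter.unusedVariables false

open Matrix MeasureTheory

namespace TH71


theorem avg1_cell (m : ℕ) (hm : 1 ≤ m) (i : ℕ) :
    ∀ᵐ x : ℝ ∂volume, x ∈ Set.uIoc ((i : ℝ) / 2 ^ m) (((i + 1 : ℕ) : ℝ) / 2 ^ m) →
      tzh x = tze (2 ^ m) i := by
  have hne : ∀ᵐ x : ℝ ∂volume, x ≠ (1/2 : ℝ) := by
    simp [ae_iff, measure_singleton]
  have hM : (0:ℝ) < 2 ^ m := by positivity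
  obtain ⟨l, rfl⟩ : ∃ l, m = l + 1 := ⟨m - 1, by omega⟩
  have hhalf : 2 ^ (l + 1) / 2 = 2 ^ l := by rw [pow_succ]; omega
  have hpow : (2:ℝ) ^ (l + 1) = 2 * 2 ^ l := by ring
  have hl : (0:ℝ) < 2 ^ l := by positivity
  filter_upwards [hne] with x hx hmem
  have hle : (i : ℝ) / 2 ^ (l + 1) ≤ ((i + 1 : ℕ) : ℝ) / 2 ^ (l + 1) := by
    gcongr; norm_num
  rw [Set.uIoc_of_le hle] at hmem
  unfold tzh tze
  rw [hhalf]
  by_cases h : i < 2 ^ l
  · rw [if_pos h]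
    have h1 : ((i + 1 : ℕ) : ℝ) ≤ 2 ^ l := by exact_mod_cast h
    have h2 : ((i + 1 : ℕ) : ℝ) / 2 ^ (l + 1) ≤ 1/2 := by
      rw [div_le_iff₀ hM, hpow]; linarith
    have h3 : x < 1/2 := lt_of_le_of_ne (hmem.2.trans h2) hx
    rw [if_pos h3]
  · rw [if_neg h]
    have h1 : (2:ℝ) ^ l ≤ (i : ℝ) := by
      have : 2 ^ l ≤ i := not_lt.mp h
      exact_mod_cast this
    have h2 : (1/2 : ℝ) ≤ (i : ℝ) / 2 ^ (l + 1) := by
      rw [le_div_iff₀ hM, hpow]; linarith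
    have h3 : ¬ x < 1/2 := not_lt.mpr (h2.trans hmem.1.le)
    rw [if_neg h3]

theorem avg1_abs (M i : ℕ) : |tze M i| = 1 := by
  unfold tze; split_ifs <;> simp

theorem avg1 (F : ℝ → ℝ) (hF : Continuous F) (m : ℕ) (hm : 1 ≤ m) (ω : ℝ)
    (hω : ∀ x y : ℝ, |x - y| ≤ 1 / 2 ^ m → |F x - F y| ≤ ω) :
    |(1 / 2 ^ m) * ∑ i ∈ Finset.range (2 ^ m), tze (2 ^ m) i * F ((i : ℝ) / 2 ^ m) -
      ∫ a in Set.Icc (0:ℝ) 1, tzh a * F a| ≤ ω := by
  have hM : (0:ℝ) < 2 ^ m := by positivity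
  -- cells
  have hcell : ∀ i : ℕ, ∀ᵐ x : ℝ ∂volume,
      x ∈ Set.uIoc ((i : ℝ) / 2 ^ m) (((i + 1 : ℕ) : ℝ) / 2 ^ m) →
      tzh x * F x = tze (2 ^ m) i * F x := by
    intro i
    filter_upwards [avg1_cell m hm i] with x hx hmem
    rw [hx hmem]
  have hint : ∀ i : ℕ, IntervalIntegrable (fun x => tzh x * F x) volume
      ((i : ℝ) / 2 ^ m) (((i + 1 : ℕ) : ℝ) / 2 ^ m) := by
    intro i
    have h1 : IntervalIntegrable (fun x => tze (2 ^ m) i * F x) volume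
      ((i : ℝ) / 2 ^ m) (((i + 1 : ℕ) : ℝ) / 2 ^ m) :=
      (continuous_const.mul hF).intervalIntegrable _ _
    refine h1.congr_ae ?_
    rw [Filter.EventuallyEq, ae_restrict_iff' measurableSet_uIoc]
    filter_upwards [hcell i] with x hx hmem
    exact (hx hmem).symm
  have hsum := intervalIntegral.sum_integral_adjacent_intervals (μ := volume)
    (f := fun x => tzh x * F x) (a := fun i : ℕ => (i : ℝ) / 2 ^ m) (n := 2 ^ m)
    (fun k _ => hint k)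
  have hends : ∫ x in ((0 : ℕ) : ℝ) / 2 ^ m..((2 ^ m : ℕ) : ℝ) / 2 ^ m, tzh x * F x
      = ∫ a in Set.Icc (0:ℝ) 1, tzh a * F a := by
    have e0 : ((0 : ℕ) : ℝ) / 2 ^ m = 0 := by simp
    have e1 : ((2 ^ m : ℕ) : ℝ) / 2 ^ m = 1 := by
      push_cast; exact div_self hM.ne'
    rw [e0, e1, intervalIntegral.integral_of_le zero_le_one, integral_Icc_eq_integral_Ioc]
  rw [← hends, ← hsum, Finset.mul_sum, ← Finset.sum_sub_distrib]
  have hterm : ∀ i ∈ Finset.range (2 ^ m),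
      |1 / 2 ^ m * (tze (2 ^ m) i * F ((i : ℝ) / 2 ^ m)) -
        ∫ x in (i : ℝ) / 2 ^ m..((i + 1 : ℕ) : ℝ) / 2 ^ m, tzh x * F x| ≤ ω * (1 / 2 ^ m) := by
    intro i _
    have hlen : ((i + 1 : ℕ) : ℝ) / 2 ^ m - (i : ℝ) / 2 ^ m = 1 / 2 ^ m := by
      push_cast; ring
    have hle : (i : ℝ) / 2 ^ m ≤ ((i + 1 : ℕ) : ℝ) / 2 ^ m := by
      have : (0:ℝ) < 1 / 2 ^ m := by positivity
      linarith
    rw [intervalIntegral.integral_congr_ae (hcell i)]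
    have hc : 1 / 2 ^ m * (tze (2 ^ m) i * F ((i : ℝ) / 2 ^ m))
        = ∫ _x in (i : ℝ) / 2 ^ m..((i + 1 : ℕ) : ℝ) / 2 ^ m,
            tze (2 ^ m) i * F ((i : ℝ) / 2 ^ m) := by
      rw [intervalIntegral.integral_const, hlen, smul_eq_mul]
    have hi1 : IntervalIntegrable (fun _x : ℝ => tze (2 ^ m) i * F ((i : ℝ) / 2 ^ m)) volume
        ((i : ℝ) / 2 ^ m) (((i + 1 : ℕ) : ℝ) / 2 ^ m) := intervalIntegrable_const
    have hi2 : IntervalIntegrable (fun x : ℝ => tze (2 ^ m) i * F x) volume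
        ((i : ℝ) / 2 ^ m) (((i + 1 : ℕ) : ℝ) / 2 ^ m) :=
      (continuous_const.mul hF).intervalIntegrable _ _
    rw [hc, ← intervalIntegral.integral_sub hi1 hi2]
    have hb := intervalIntegral.norm_integral_le_of_norm_le_const
      (a := (i : ℝ) / 2 ^ m) (b := ((i + 1 : ℕ) : ℝ) / 2 ^ m) (C := ω)
      (f := fun x => tze (2 ^ m) i * F ((i : ℝ) / 2 ^ m) - tze (2 ^ m) i * F x) (by
        intro x hx
        rw [Set.uIoc_of_le hle] at hx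
        rw [← mul_sub, Real.norm_eq_abs, abs_mul, avg1_abs, one_mul]
        apply hω
        rw [abs_le]
        constructor
        · linarith [hx.2]
        · have : (0:ℝ) < 1 / 2 ^ m := by positivity
          linarith [hx.1])
    rw [Real.norm_eq_abs, hlen, abs_of_pos (by positivity : (0:ℝ) < 1 / 2 ^ m)] at hb
    exact hb
  calc |∑ i ∈ Finset.range (2 ^ m), (1 / 2 ^ m * (tze (2 ^ m) i * F ((i : ℝ) / 2 ^ m)) -
        ∫ x in (i : ℝ) / 2 ^ m..((i + 1 : ℕ) : ℝ) / 2 ^ m, tzh x * F x)|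
      ≤ ∑ i ∈ Finset.range (2 ^ m), |1 / 2 ^ m * (tze (2 ^ m) i * F ((i : ℝ) / 2 ^ m)) -
        ∫ x in (i : ℝ) / 2 ^ m..((i + 1 : ℕ) : ℝ) / 2 ^ m, tzh x * F x| :=
        Finset.abs_sum_le_sum_abs _ _
    _ ≤ ∑ _i ∈ Finset.range (2 ^ m), ω * (1 / 2 ^ m) := Finset.sum_le_sum hterm
    _ = ω := by
      rw [Finset.sum_const, Finset.card_range, nsmul_eq_mul]
      push_cast
      field_simp

end TH71
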