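import Pool.Agent.Helper933.TR.Defs
import Pool.Agent.Helper933.TR.P_avg1

set_option autoImplicit false
set_option linter.unusedVariables false

open Matrix MeasureTheory

namespace TH71


theorem riem_abs_tzh (x : ℝ) : |tzh x| = 1 := by
  unfold tzh; split_ifs <;> simp

theorem riem_abs_tze (M i : ℕ) : |tze M i| = 1 := by
  unfold tze; split_ifs <;> simp

theorem riem_meas_tzh : Measurable tzh := by
  unfold tzh
  exact Measurable.ite measurableSet_Iio measurable_const measurable_const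

theorem riem_int (F : ℝ → ℝ) (hF : Continuous F) :
    IntegrableOn (fun a => tzh a * F a) (Set.Icc (0:ℝ) 1) := by
  have h1 : IntegrableOn F (Set.Icc (0:ℝ) 1) := hF.continuousOn.integrableOn_Icc
  have h2 : Integrable (fun a => tzh a * F a) (volume.restrict (Set.Icc (0:ℝ) 1)) := by
    apply Integrable.bdd_mul (c := 1) h1 riem_meas_tzh.aestronglyMeasurable
    exact Filter.Eventually.of_forall fun x => by rw [Real.norm_eq_abs, riem_abs_tzh]
  exact h2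

theorem riem_close (F G : ℝ → ℝ) (hF : Continuous F) (hG : Continuous G) (ω : ℝ)
    (h : ∀ a, |F a - G a| ≤ ω) :
    |(∫ a in Set.Icc (0:ℝ) 1, tzh a * F a) - ∫ a in Set.Icc (0:ℝ) 1, tzh a * G a| ≤ ω := by
  rw [← integral_sub (riem_int F hF) (riem_int G hG), ← Real.norm_eq_abs]
  have h1 := norm_setIntegral_le_of_norm_le_const (μ := volume) (s := Set.Icc (0:ℝ) 1)
    (f := fun a => tzh a * F a - tzh a * G a) (C := ω) (by simp) (by
      intro x _
      rw [← mul_sub, norm_mul, Real.norm_eq_abs, Real.norm_eq_abs, riem_abs_tzh, one_mul]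
      exact h x)
  refine h1.trans ?_
  simp

theorem riem_D (F G : ℝ → ℝ) (m : ℕ) (ω : ℝ) (h : ∀ a, |F a - G a| ≤ ω) :
    |(1 / 2 ^ m) * ∑ i ∈ Finset.range (2 ^ m), tze (2 ^ m) i * F ((i : ℝ) / 2 ^ m) -
      (1 / 2 ^ m) * ∑ i ∈ Finset.range (2 ^ m), tze (2 ^ m) i * G ((i : ℝ) / 2 ^ m)| ≤ ω := by
  rw [← mul_sub, ← Finset.sum_sub_distrib, abs_mul]
  have h1 : |∑ i ∈ Finset.range (2 ^ m), (tze (2 ^ m) i * F ((i : ℝ) / 2 ^ m) -
      tze (2 ^ m) i * G ((i : ℝ) / 2 ^ m))| ≤ ∑ i ∈ Finset.range (2 ^ m), ω := by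
    refine (Finset.abs_sum_le_sum_abs _ _).trans (Finset.sum_le_sum fun i _ => ?_)
    rw [← mul_sub, abs_mul, riem_abs_tze, one_mul]
    exact h _
  rw [Finset.sum_const, Finset.card_range, nsmul_eq_mul] at h1
  have h2 : (0:ℝ) < 2 ^ m := by positivity
  rw [abs_of_pos (by positivity : (0:ℝ) < 1 / 2 ^ m)]
  calc 1 / 2 ^ m * _ ≤ 1 / 2 ^ m * (((2 ^ m : ℕ) : ℝ) * ω) :=
        mul_le_mul_of_nonneg_left h1 (by positivity)
    _ = ω := by push_cast; field_simp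

theorem riem_uc (F : ℝ → ℝ) (hF : UniformContinuous F) :
    UniformContinuous (fun x => ∫ c in Set.Icc (0:ℝ) 1, tzh c * F (x + c)) := by
  rw [Metric.uniformContinuous_iff] at hF ⊢
  intro ε hε
  have hc : Continuous F := (Metric.uniformContinuous_iff.mpr hF).continuous
  obtain ⟨δ, hδ, h⟩ := hF (ε / 2) (by positivity)
  refine ⟨δ, hδ, fun x y hxy => ?_⟩
  rw [Real.dist_eq]
  have := riem_close (fun c => F (x + c)) (fun c => F (y + c)) (by fun_prop) (by fun_prop)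
    (ε / 2) (fun c => by
      have := @h (x + c) (y + c) (by simpa using hxy)
      rw [Real.dist_eq] at this
      exact this.le)
  linarith

theorem riem_mod (F : ℝ → ℝ) (hc : Continuous F) (δ ω : ℝ)
    (hω : ∀ x y : ℝ, |x - y| ≤ δ → |F x - F y| ≤ ω) (x y : ℝ) (hxy : |x - y| ≤ δ) :
    |(∫ c in Set.Icc (0:ℝ) 1, tzh c * F (x + c)) - ∫ c in Set.Icc (0:ℝ) 1, tzh c * F (y + c)| ≤ ω := by
  exact riem_close (fun c => F (x + c)) (fun c => F (y + c)) (by fun_prop) (by fun_prop)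
    ω (fun c => hω _ _ (by simpa using hxy))

theorem riem_main (T : ℝ → ℝ) (hT : UniformContinuous T) (t : ℝ) (ht : 0 < t) (m : ℕ) (hm : 1 ≤ m)
    (ω : ℝ) (hω : ∀ x y : ℝ, |x - y| ≤ t / 2 ^ m → |T x - T y| ≤ ω) :
    |tzV T (t / 2 ^ m) m (-(2 ^ m * (t / 2 ^ m)) + 2 * (t / 2 ^ m)) - tzU T t| ≤ 5 * ω := by
  have h2 : (0:ℝ) < 2 ^ m := by positivity
  obtain ⟨ν, hν⟩ : ∃ ν : ℝ, ν = -(2 ^ m * (t / 2 ^ m)) + 2 * (t / 2 ^ m) := ⟨_, rfl⟩
  rw [← hν]
  have hν2 : ν = -t + 2 * (t / 2 ^ m) := by rw [hν]; field_simp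
  obtain ⟨G, hG⟩ : ∃ G : ℝ → ℝ, G = fun x => T (ν + t * x) := ⟨_, rfl⟩
  obtain ⟨G0, hG0⟩ : ∃ G0 : ℝ → ℝ, G0 = fun x => T (t * (x - 1)) := ⟨_, rfl⟩
  have hlin : ∀ a b : ℝ, UniformContinuous (fun x : ℝ => a + b * x) := by
    intro a b
    have : LipschitzWith (Real.nnabs b) (fun x : ℝ => a + b * x) := by
      apply LipschitzWith.of_dist_le_mul
      intro x y
      rw [Real.dist_eq, Real.dist_eq]
      have : a + b * x - (a + b * y) = b * (x - y) := by ring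
      rw [this, abs_mul]; simp
    exact this.uniformContinuous
  have ucG : UniformContinuous G := by
    rw [hG]; exact hT.comp (hlin ν t)
  have ucG0 : UniformContinuous G0 := by
    have : G0 = T ∘ (fun x : ℝ => (-t) + t * x) := by
      rw [hG0]; funext x; simp only [Function.comp]; congr 1; ring
    rw [this]; exact hT.comp (hlin _ _)
  obtain ⟨G1, hG1⟩ : ∃ G1 : ℝ → ℝ, G1 = fun x => ∫ c in Set.Icc (0:ℝ) 1, tzh c * G (x + c) := ⟨_, rfl⟩
  obtain ⟨G2, hG2⟩ : ∃ G2 : ℝ → ℝ, G2 = fun x => ∫ c in Set.Icc (0:ℝ) 1, tzh c * G1 (x + c) := ⟨_, rfl⟩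
  obtain ⟨H1, hH1⟩ : ∃ H1 : ℝ → ℝ, H1 = fun x => ∫ c in Set.Icc (0:ℝ) 1, tzh c * G0 (x + c) := ⟨_, rfl⟩
  obtain ⟨H2, hH2⟩ : ∃ H2 : ℝ → ℝ, H2 = fun x => ∫ c in Set.Icc (0:ℝ) 1, tzh c * H1 (x + c) := ⟨_, rfl⟩
  have ucG1 : UniformContinuous G1 := by rw [hG1]; exact riem_uc G ucG
  have ucG2 : UniformContinuous G2 := by rw [hG2]; exact riem_uc G1 ucG1
  have ucH1 : UniformContinuous H1 := by rw [hH1]; exact riem_uc G0 ucG0
  have ucH2 : UniformContinuous H2 := by rw [hH2]; exact riem_uc H1 ucH1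
  have mG : ∀ x y : ℝ, |x - y| ≤ 1 / 2 ^ m → |G x - G y| ≤ ω := by
    intro x y hxy
    rw [hG]
    apply hω
    have : ν + t * x - (ν + t * y) = t * (x - y) := by ring
    rw [this, abs_mul, abs_of_pos ht]
    calc t * |x - y| ≤ t * (1 / 2 ^ m) := mul_le_mul_of_nonneg_left hxy ht.le
      _ = t / 2 ^ m := by ring
  have mG1 : ∀ x y : ℝ, |x - y| ≤ 1 / 2 ^ m → |G1 x - G1 y| ≤ ω := by
    intro x y hxy; rw [hG1]; exact riem_mod G ucG.continuous _ ω mG x y hxy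
  have mG2 : ∀ x y : ℝ, |x - y| ≤ 1 / 2 ^ m → |G2 x - G2 y| ≤ ω := by
    intro x y hxy; rw [hG2]; exact riem_mod G1 ucG1.continuous _ ω mG1 x y hxy
  have dG : ∀ x, |G x - G0 x| ≤ 2 * ω := by
    intro x
    rw [hG, hG0]
    have hp : 0 ≤ t / 2 ^ m := by positivity
    have e1 := hω (ν + t * x) (t * (x - 1) + t / 2 ^ m) (by
      have : ν + t * x - (t * (x - 1) + t / 2 ^ m) = t / 2 ^ m := by rw [hν2]; ring
      rw [this, abs_of_nonneg hp])
    have e2 := hω (t * (x - 1) + t / 2 ^ m) (t * (x - 1)) (by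
      have : t * (x - 1) + t / 2 ^ m - t * (x - 1) = t / 2 ^ m := by ring
      rw [this, abs_of_nonneg hp])
    calc |T (ν + t * x) - T (t * (x - 1))| = |(T (ν + t * x) - T (t * (x - 1) + t / 2 ^ m)) +
          (T (t * (x - 1) + t / 2 ^ m) - T (t * (x - 1)))| := by congr 1; ring
      _ ≤ _ := abs_add_le _ _
      _ ≤ 2 * ω := by linarith
  have dG1 : ∀ x, |G1 x - H1 x| ≤ 2 * ω := by
    intro x; rw [hG1, hH1]
    have c1 := ucG.continuous
    have c2 := ucG0.continuous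
    exact riem_close (fun c => G (x + c)) (fun c => G0 (x + c)) (by fun_prop) (by fun_prop) _
      (fun c => dG _)
  have dG2 : ∀ x, |G2 x - H2 x| ≤ 2 * ω := by
    intro x; rw [hG2, hH2]
    have c1 := ucG1.continuous
    have c2 := ucH1.continuous
    exact riem_close (fun c => G1 (x + c)) (fun c => H1 (x + c)) (by fun_prop) (by fun_prop) _
      (fun c => dG1 _)
  have dG3 := riem_close G2 H2 ucG2.continuous ucH2.continuous _ dG2
  have hU : tzU T t = ∫ a in Set.Icc (0:ℝ) 1, tzh a * H2 a := by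
    unfold tzU
    rw [hH2, hH1, hG0]
    congr 1; funext a
    rw [← integral_const_mul]
    congr 1; funext b
    simp only
    rw [← mul_assoc, ← integral_const_mul]
    congr 1; funext c
    ring
  have a1 : ∀ x, |(1 / 2 ^ m) * ∑ i ∈ Finset.range (2 ^ m), tze (2 ^ m) i * G (x + (i : ℝ) / 2 ^ m) -
      G1 x| ≤ ω := by
    intro x
    rw [hG1]
    have c1 := ucG.continuous
    exact avg1 (fun c => G (x + c)) (by fun_prop) m hm ω (fun u v huv => mG _ _ (by simpa using huv))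
  have a2 : ∀ x, |(1 / 2 ^ m) * ∑ i ∈ Finset.range (2 ^ m), tze (2 ^ m) i * G1 (x + (i : ℝ) / 2 ^ m) -
      G2 x| ≤ ω := by
    intro x
    rw [hG2]
    have c1 := ucG1.continuous
    exact avg1 (fun c => G1 (x + c)) (by fun_prop) m hm ω (fun u v huv => mG1 _ _ (by simpa using huv))
  have a3 := avg1 G2 ucG2.continuous m hm ω mG2
  obtain ⟨D1, hD1⟩ : ∃ D1 : ℝ → ℝ, D1 = fun x => (1 / 2 ^ m) * ∑ i ∈ Finset.range (2 ^ m),
    tze (2 ^ m) i * G (x + (i : ℝ) / 2 ^ m) := ⟨_, rfl⟩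
  obtain ⟨D2, hD2⟩ : ∃ D2 : ℝ → ℝ, D2 = fun x => (1 / 2 ^ m) * ∑ i ∈ Finset.range (2 ^ m),
    tze (2 ^ m) i * D1 (x + (i : ℝ) / 2 ^ m) := ⟨_, rfl⟩
  have a1' : ∀ x, |D1 x - G1 x| ≤ ω := by rw [hD1]; exact a1
  have b2 : ∀ x, |D2 x - G2 x| ≤ 2 * ω := by
    intro x
    have e1 := riem_D (fun y => D1 (x + y)) (fun y => G1 (x + y)) m ω (fun y => a1' _)
    have e2 := a2 x
    rw [hD2]
    simp only at e1 ⊢
    rw [abs_le] at *
    constructor <;> linarith [e1.1, e1.2, e2.1, e2.2]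
  have b3 : |(1 / 2 ^ m) * ∑ i ∈ Finset.range (2 ^ m), tze (2 ^ m) i * D2 ((i : ℝ) / 2 ^ m) -
      ∫ a in Set.Icc (0:ℝ) 1, tzh a * G2 a| ≤ 3 * ω := by
    have e1 := riem_D D2 G2 m (2 * ω) b2
    rw [abs_le] at *
    constructor <;> linarith [e1.1, e1.2, a3.1, a3.2]
  have hV : tzV T (t / 2 ^ m) m ν =
      (1 / 2 ^ m) * ∑ i ∈ Finset.range (2 ^ m), tze (2 ^ m) i * D2 ((i : ℝ) / 2 ^ m) := by
    unfold tzV
    rw [hD2, hD1, hG]
    simp only [Finset.mul_sum]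
    refine Finset.sum_congr rfl fun i _ => Finset.sum_congr rfl fun k _ =>
      Finset.sum_congr rfl fun l _ => ?_
    have e1 : ν + ((i : ℝ) + (k : ℝ) + (l : ℝ)) * (t / 2 ^ m) =
        ν + t * ((i : ℝ) / 2 ^ m + (k : ℝ) / 2 ^ m + (l : ℝ) / 2 ^ m) := by ring
    rw [e1]
    have e2 : (1:ℝ) / 8 ^ m = 1 / 2 ^ m * (1 / 2 ^ m) * (1 / 2 ^ m) := by
      have : (8:ℝ) = 2 * 2 * 2 := by norm_num
      rw [this, mul_pow, mul_pow]; field_simp
    rw [e2]; ring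
  rw [hU, hV]
  rw [abs_le] at *
  constructor <;> linarith [b3.1, b3.2, dG3.1, dG3.2]

theorem riem (T : ℝ → ℝ) (hT : Continuous T) (R : ℝ) (hR : ∀ s, R < |s| → T s = 0)
    (t : ℝ) (ht : 0 < t) :
    Filter.Tendsto (fun m : ℕ => tzV T (t / 2 ^ m) m (-(2 ^ m * (t / 2 ^ m)) + 2 * (t / 2 ^ m)))
      Filter.atTop (nhds (tzU T t)) := by
  have hcs : HasCompactSupport T := by
    apply HasCompactSupport.intro (isCompact_Icc : IsCompact (Set.Icc (-R) R))
    intro x hx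
    apply hR
    by_contra hcon
    push Not at hcon
    exact hx (Set.mem_Icc.mpr (abs_le.mp hcon))
  have huc : UniformContinuous T := hcs.uniformContinuous_of_continuous hT
  rw [Metric.tendsto_atTop]
  intro ε hε
  obtain ⟨δ, hδ, hT2⟩ := Metric.uniformContinuous_iff.mp huc (ε / 10) (by positivity)
  obtain ⟨N, hN⟩ := pow_unbounded_of_one_lt (t / δ) (one_lt_two : (1:ℝ) < 2)
  refine ⟨N + 1, fun m hm => ?_⟩
  have hm1 : 1 ≤ m := by omega
  rw [Real.dist_eq]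
  have h2 : t / 2 ^ m < δ := by
    have h3 : (2:ℝ) ^ N ≤ 2 ^ m := pow_le_pow_right₀ (by norm_num) (by omega)
    rw [div_lt_iff₀ (by positivity)]
    have h4 : t / δ < 2 ^ m := lt_of_lt_of_le hN h3
    rw [div_lt_iff₀ hδ] at h4
    linarith
  have := riem_main T huc t ht m hm1 (ε / 10) (fun x y hxy => by
    have := @hT2 x y (by rw [Real.dist_eq]; exact lt_of_le_of_lt hxy h2)
    rw [Real.dist_eq] at this
    exact this.le)
  linarith

end TH71
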