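import Pool.Agent.Helper933.TR.Defs
import Pool.Agent.Helper933.TR.P_riem

set_option autoImplicit false
set_option linter.unusedVariables false

open Matrix MeasureTheory

namespace TH71


theorem A2 (T : ℝ → ℝ) (hT : Continuous T) (R : ℝ) (hR : ∀ s, R < |s| → T s = 0) (B : ℝ)
    (hB : ∀ (δ : ℝ) (J : ℕ), ∑ n ∈ Finset.range J,
      |tzV T δ (n + 1) (-(2 ^ (n + 1) * δ) + 2 * δ)| ≤ B)
    (t : ℝ) (ht : 0 < t) (I : ℕ) :
    ∑ i ∈ Finset.range I, |tzU T (2 ^ i * t)| ≤ B := by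
  have h1 : ∀ i : ℕ, Filter.Tendsto (fun m : ℕ => |tzV T ((2 ^ i * t) / 2 ^ (m + (1 + i))) (m + (1 + i))
      (-(2 ^ (m + (1 + i)) * ((2 ^ i * t) / 2 ^ (m + (1 + i)))) + 2 * ((2 ^ i * t) / 2 ^ (m + (1 + i))))|)
      Filter.atTop (nhds |tzU T (2 ^ i * t)|) := by
    intro i
    have h2 := (riem T hT R hR (2 ^ i * t) (by positivity)).comp
      (Filter.tendsto_add_atTop_nat (1 + i))
    exact h2.abs
  refine le_of_tendsto' (tendsto_finsetSum (Finset.range I) (fun i _ => h1 i)) (fun m => ?_)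
  have h3 : ∀ i : ℕ, (2 ^ i * t) / 2 ^ (m + (1 + i)) = t / 2 ^ (m + 1) := by
    intro i
    have e1 : (2:ℝ) ^ (m + (1 + i)) = 2 ^ i * 2 ^ (m + 1) := by
      rw [← pow_add]; congr 1; omega
    rw [e1]
    exact mul_div_mul_left t _ (by positivity)
  have h4 := hB (t / 2 ^ (m + 1)) (m + I)
  rw [Finset.sum_range_add] at h4
  have h5 : 0 ≤ ∑ n ∈ Finset.range m,
      |tzV T (t / 2 ^ (m + 1)) (n + 1) (-(2 ^ (n + 1) * (t / 2 ^ (m + 1))) + 2 * (t / 2 ^ (m + 1)))| :=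
    Finset.sum_nonneg (fun _ _ => abs_nonneg _)
  have h6 : ∑ i ∈ Finset.range I, |tzV T ((2 ^ i * t) / 2 ^ (m + (1 + i))) (m + (1 + i))
      (-(2 ^ (m + (1 + i)) * ((2 ^ i * t) / 2 ^ (m + (1 + i)))) + 2 * ((2 ^ i * t) / 2 ^ (m + (1 + i))))|
      = ∑ x ∈ Finset.range I, |tzV T (t / 2 ^ (m + 1)) (m + x + 1)
        (-(2 ^ (m + x + 1) * (t / 2 ^ (m + 1))) + 2 * (t / 2 ^ (m + 1)))| := by
    refine Finset.sum_congr rfl (fun i _ => ?_)
    rw [h3 i]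
    have e2 : m + (1 + i) = m + i + 1 := by omega
    rw [e2]
  rw [h6]
  linarith

end TH71
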