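import Pool.Agent.Helper933.TR.Defs

set_option autoImplicit false
set_option linter.unusedVariables false

open Matrix MeasureTheory

namespace TH71


theorem A3 (U : ℝ → ℝ) (hU : Continuous U) (B : ℝ)
    (hB : ∀ t : ℝ, 0 < t → ∀ I : ℕ, ∑ i ∈ Finset.range I, |U (2 ^ i * t)| ≤ B)
    (ε N : ℝ) (hε : 0 < ε) (hN : ε < N) : |∫ t in ε..N, U t / t| ≤ B := by
  have hB0 : 0 ≤ B := by simpa using hB 1 one_pos 0
  obtain ⟨I, hI⟩ : ∃ I : ℕ, N ≤ 2 ^ I * ε := by
    obtain ⟨I, hI⟩ := pow_unbounded_of_one_lt (N / ε) (one_lt_two : (1:ℝ) < 2)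
    exact ⟨I, by rw [div_lt_iff₀ hε] at hI; exact hI.le⟩
  set g : ℝ → ℝ := fun t => |U t| / t with hg
  have hgc : ContinuousOn g (Set.Ioi 0) := by
    refine ContinuousOn.div (hU.abs.continuousOn) continuousOn_id ?_
    intro x hx; exact ne_of_gt hx
  have hgi : ∀ a b : ℝ, 0 < a → a ≤ b → IntervalIntegrable g volume a b := by
    intro a b ha hab
    refine ContinuousOn.intervalIntegrable ?_
    rw [Set.uIcc_of_le hab]
    exact hgc.mono (fun x hx => lt_of_lt_of_le ha hx.1)
  have h1 : |∫ t in ε..N, U t / t| ≤ ∫ t in ε..N, g t := by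
    have h := intervalIntegral.norm_integral_le_integral_norm (f := fun t => U t / t)
      (μ := volume) hN.le
    rw [Real.norm_eq_abs] at h
    refine le_trans h (le_of_eq ?_)
    refine intervalIntegral.integral_congr ?_
    intro t ht
    rw [Set.uIcc_of_le hN.le] at ht
    have h0 : 0 < t := lt_of_lt_of_le hε ht.1
    show ‖U t / t‖ = |U t| / t
    rw [Real.norm_eq_abs, abs_div, abs_of_pos h0]
  have h2 : ∫ t in ε..N, g t ≤ ∫ t in ε..(2 ^ I * ε), g t := by
    rw [← intervalIntegral.integral_add_adjacent_intervals (hgi ε N hε hN.le)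
      (hgi N _ (hε.trans hN) hI)]
    have h0 : 0 ≤ ∫ t in N..(2 ^ I * ε), g t := by
      apply intervalIntegral.integral_nonneg hI
      intro t ht
      have h0 : 0 < t := lt_of_lt_of_le (hε.trans hN) ht.1
      exact div_nonneg (abs_nonneg _) h0.le
    linarith
  have h3 : ∫ t in ε..(2 ^ I * ε), g t =
      ∑ i ∈ Finset.range I, ∫ t in (2 ^ i * ε)..(2 ^ (i + 1) * ε), g t := by
    have h := intervalIntegral.sum_integral_adjacent_intervals (f := g) (μ := volume)
      (a := fun i : ℕ => (2:ℝ) ^ i * ε) (n := I)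
      (fun k _ => hgi _ _ (by positivity) (by
        have : (2:ℝ) ^ k ≤ 2 ^ (k + 1) := pow_le_pow_right₀ (by norm_num) (Nat.le_succ k)
        exact mul_le_mul_of_nonneg_right this hε.le))
    simp only [pow_zero, one_mul] at h
    exact h.symm
  have h4 : ∀ i : ℕ, ∫ t in (2 ^ i * ε)..(2 ^ (i + 1) * ε), g t =
      ∫ t in ε..(2 * ε), |U (2 ^ i * t)| / t := by
    intro i
    have hc : (2:ℝ) ^ i ≠ 0 := by positivity
    have h := intervalIntegral.integral_comp_mul_left (a := ε) (b := 2 * ε) g hc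
    have e : (2:ℝ) ^ (i + 1) * ε = 2 ^ i * (2 * ε) := by ring
    rw [e]
    have h5 : ∫ t in (2 ^ i * ε)..(2 ^ i * (2 * ε)), g t = 2 ^ i * ∫ t in ε..(2 * ε), g (2 ^ i * t) := by
      rw [h, smul_eq_mul]; field_simp
    rw [h5, ← intervalIntegral.integral_const_mul]
    refine intervalIntegral.integral_congr ?_
    intro t ht
    rw [Set.uIcc_of_le (by linarith)] at ht
    have h0 : 0 < t := lt_of_lt_of_le hε ht.1
    show 2 ^ i * (|U (2 ^ i * t)| / (2 ^ i * t)) = |U (2 ^ i * t)| / t
    field_simp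
  have hi5 : ∀ i : ℕ, IntervalIntegrable (fun t => |U (2 ^ i * t)| / t) volume ε (2 * ε) := by
    intro i
    refine ContinuousOn.intervalIntegrable ?_
    rw [Set.uIcc_of_le (by linarith)]
    refine ContinuousOn.div (Continuous.continuousOn (by fun_prop)) continuousOn_id ?_
    intro x hx
    exact ne_of_gt (lt_of_lt_of_le hε hx.1)
  have h6 : ∑ i ∈ Finset.range I, ∫ t in (2 ^ i * ε)..(2 ^ (i + 1) * ε), g t ≤ B := by
    rw [Finset.sum_congr rfl (fun i _ => h4 i), ← intervalIntegral.integral_finset_sum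
      (fun i _ => hi5 i)]
    have hle : ∫ t in ε..(2 * ε), ∑ i ∈ Finset.range I, |U (2 ^ i * t)| / t ≤
        ∫ t in ε..(2 * ε), B / ε := by
      refine intervalIntegral.integral_mono_on (by linarith) ?_ intervalIntegrable_const ?_
      · refine ContinuousOn.intervalIntegrable ?_
        rw [Set.uIcc_of_le (by linarith)]
        refine continuousOn_finset_sum _ fun i _ => ?_
        refine ContinuousOn.div (Continuous.continuousOn (by fun_prop)) continuousOn_id ?_
        intro x hx
        exact ne_of_gt (lt_of_lt_of_le hε hx.1)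
      · intro t ht
        have h0 : 0 < t := lt_of_lt_of_le hε ht.1
        rw [← Finset.sum_div]
        exact div_le_div₀ hB0 (hB t h0 I) hε ht.1
    refine hle.trans ?_
    rw [intervalIntegral.integral_const, smul_eq_mul]
    have : (2 * ε - ε) * (B / ε) = B := by field_simp; ring
    rw [this]
  linarith [h1, h2, h3, h6]

end TH71
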