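import Pool.Agent.Helper933.TR.Defs

set_option autoImplicit false
set_option linter.unusedVariables false

open Matrix MeasureTheory

namespace TH71


theorem MP_cont_aux (δ : ℝ) (n : ℕ) (f : ℝ → ℝ → ℝ)
    (ih : Continuous (fun p : ℝ × ℝ => MR δ n f p.1 p.2)) :
    Continuous (fun p : ℝ × ℝ => MP δ n f p.1 p.2) := by
  apply continuous_matrix
  intro i j
  have hc : Continuous (fun p : ℝ × ℝ =>
      ((p.1 + tzu i.1 * (2 ^ n * δ), p.2 + tzu j.1 * (2 ^ n * δ)) : ℝ × ℝ)) :=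
    (continuous_fst.add continuous_const).prodMk (continuous_snd.add continuous_const)
  have h := (ih.comp hc).matrix_elem i.2 j.2
  exact continuous_const.mul h

theorem MR_cont_aux (δ : ℝ) (f : ℝ → ℝ → ℝ) (hf : tzT f) : ∀ n : ℕ,
    Continuous (fun p : ℝ × ℝ => MR δ n f p.1 p.2) := by
  intro n
  induction n with
  | zero =>
    apply continuous_matrix
    intro i j
    exact hf.1
  | succ n ih => exact MP_cont_aux δ n f ih

theorem MR_cont (δ : ℝ) (n : ℕ) (f : ℝ → ℝ → ℝ) (hf : tzT f) :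
    Continuous (fun p : ℝ × ℝ => MR δ n f p.1 p.2) ∧
    Continuous (fun p : ℝ × ℝ => MP δ n f p.1 p.2) :=
  ⟨MR_cont_aux δ f hf n, MP_cont_aux δ n f (MR_cont_aux δ f hf n)⟩

end TH71
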