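import Pool.Agent.Helper933.TR.Defs

set_option autoImplicit false
set_option linter.unusedVariables false

open Matrix MeasureTheory

namespace TH71


theorem MR_supp_aux (δ : ℝ) (f : ℝ → ℝ → ℝ) (hf : tzT f) (n : ℕ) :
    ∃ R : ℝ, 0 ≤ R ∧ ∀ p q : ℝ, (R < |p| ∨ R < |q|) → MR δ n f p q = 0 := by
  induction n with
  | zero =>
    obtain ⟨R, hR⟩ := hf.2.isCompact.isBounded.exists_norm_le
    refine ⟨max R 0, le_max_right _ _, fun p q hpq => ?_⟩
    ext i j
    show f p q = 0
    by_contra hne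
    have h1 : (p, q) ∈ tsupport (fun p : ℝ × ℝ => f p.1 p.2) :=
      subset_tsupport _ hne
    have h2 := hR _ h1
    have h3 : |p| ≤ R := (norm_fst_le (p, q)).trans h2
    have h4 : |q| ≤ R := (norm_snd_le (p, q)).trans h2
    have h5 := le_max_left R 0
    rcases hpq with h | h <;> linarith
  | succ n ih =>
    obtain ⟨R, hR0, hR⟩ := ih
    refine ⟨R + |2 ^ n * δ|, by positivity, fun p q hpq => ?_⟩
    have key : ∀ (x : ℝ) (a : Bool), R + |2 ^ n * δ| < |x| → R < |x + tzu a * (2 ^ n * δ)| := by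
      intro x a hx
      have h1 : |tzu a * (2 ^ n * δ)| ≤ |2 ^ n * δ| := by
        rw [abs_mul]
        have : |tzu a| ≤ 1 := by cases a <;> simp [tzu]
        exact mul_le_of_le_one_left (abs_nonneg _) this
      have h2 : |x| ≤ |x + tzu a * (2 ^ n * δ)| + |tzu a * (2 ^ n * δ)| := by
        have := abs_sub (x + tzu a * (2 ^ n * δ)) (tzu a * (2 ^ n * δ))
        rwa [add_sub_cancel_right] at this
      linarith
    have h3 : ∀ a b : Bool, MR δ n f (p + tzu a * (2 ^ n * δ)) (q + tzu b * (2 ^ n * δ)) = 0 := by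
      intro a b
      apply hR
      rcases hpq with h | h
      · exact Or.inl (key p a h)
      · exact Or.inr (key q b h)
    show par (fun a b => MR δ n f (p + tzu a * (2 ^ n * δ)) (q + tzu b * (2 ^ n * δ))) = 0
    ext i j
    simp [par, h3]

theorem MR_supp (δ : ℝ) (n : ℕ) (f : ℝ → ℝ → ℝ) (hf : tzT f) :
    ∃ R : ℝ, 0 ≤ R ∧ ∀ p q : ℝ, (R < |p| ∨ R < |q|) → MR δ n f p q = 0 ∧ MP δ n f p q = 0 := by
  obtain ⟨R1, h10, h1⟩ := MR_supp_aux δ f hf n
  obtain ⟨R2, h20, h2⟩ := MR_supp_aux δ f hf (n + 1)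
  refine ⟨max R1 R2, le_max_of_le_left h10, fun p q hpq => ⟨h1 p q ?_, h2 p q ?_⟩⟩
  · rcases hpq with h | h
    · exact Or.inl ((le_max_left _ _).trans_lt h)
    · exact Or.inr ((le_max_left _ _).trans_lt h)
  · rcases hpq with h | h
    · exact Or.inl ((le_max_right _ _).trans_lt h)
    · exact Or.inr ((le_max_right _ _).trans_lt h)

end TH71
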