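import Pool.Agent.Helper933.TR.Defs

set_option autoImplicit false
set_option linter.unusedVariables false

open Matrix MeasureTheory

namespace TH71


theorem int_of (F : ℝ × ℝ → ℝ) (hc : Continuous F) (R : ℝ)
    (h0 : ∀ p : ℝ × ℝ, (R < |p.1| ∨ R < |p.2|) → F p = 0) : Integrable F := by
  apply hc.integrable_of_hasCompactSupport
  apply HasCompactSupport.intro (K := (Set.Icc (-R) R) ×ˢ (Set.Icc (-R) R))
    (isCompact_Icc.prod isCompact_Icc)
  intro p hp
  apply h0 p
  by_contra hcon
  rw [not_or, not_lt, not_lt] at hcon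
  apply hp
  rw [Set.mem_prod]
  exact ⟨Set.mem_Icc.mpr (abs_le.mp hcon.1), Set.mem_Icc.mpr (abs_le.mp hcon.2)⟩

end TH71
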