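import Pool.Agent.Helper933.TR.Defs
import Pool.Agent.Helper933.TR.P_int_of
import Pool.Agent.Helper933.TR.P_MR_cont
import Pool.Agent.Helper933.TR.P_MR_supp

set_option autoImplicit false
set_option linter.unusedVariables false

open Matrix MeasureTheory

namespace TH71


theorem D_int (δ : ℝ) (n : ℕ) (f g h : ℝ → ℝ → ℝ) (hf : tzT f) (hg : tzT g) (hh : tzT h)
    (ν : ℝ) : Integrable (tzD δ n f g h ν) := by
  obtain ⟨R, _, hR⟩ := MR_supp δ n f hf
  have cf : Continuous (fun p : ℝ × ℝ => MP δ n f p.1 p.2) := (MR_cont δ n f hf).2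
  have cg : Continuous (fun p : ℝ × ℝ => MP δ n g p.2 (ν - p.1 - p.2)) :=
    (MR_cont δ n g hg).2.comp (f := fun p : ℝ × ℝ => (p.2, ν - p.1 - p.2)) (by fun_prop)
  have ch : Continuous (fun p : ℝ × ℝ => MP δ n h (ν - p.1 - p.2) p.1) :=
    (MR_cont δ n h hh).2.comp (f := fun p : ℝ × ℝ => (ν - p.1 - p.2, p.1)) (by fun_prop)
  refine int_of _ ?_ R ?_
  · unfold tzD
    exact (((((continuous_const.matrix_mul cf).matrix_mul continuous_const).matrix_mul
      cg).matrix_mul continuous_const).matrix_mul ch).matrix_trace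
  · intro p hp
    unfold tzD
    rw [(hR p.1 p.2 hp).2]
    simp

end TH71
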