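import Pool.Agent.Helper933.TR.Defs

set_option autoImplicit false
set_option linter.unusedVariables false

open Matrix MeasureTheory

namespace TH71

theorem scale_par {ι : Type*} (l : ℝ) (f : Bool → Bool → Matrix ι ι ℝ) :
    par (fun a b => l⁻¹ • f a b) = l⁻¹ • par f := by
  ext x y
  simp only [par, Matrix.smul_apply, smul_eq_mul]
  ring

theorem scale_MR (δ : ℝ) (n : ℕ) (l : ℝ) (f : ℝ → ℝ → ℝ) : ∀ (p q : ℝ),
    MR δ n (tzs l f) p q = l⁻¹ • MR δ n f p q := by
  induction n with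
  | zero =>
    intro p q
    ext x y
    rfl
  | succ n ih =>
    intro p q
    have h1 : MR δ (n+1) (tzs l f) p q = par (fun a b => MR δ n (tzs l f)
        (p + tzu a * (2 ^ n * δ)) (q + tzu b * (2 ^ n * δ))) := rfl
    have h2 : MR δ (n+1) f p q = par (fun a b => MR δ n f
        (p + tzu a * (2 ^ n * δ)) (q + tzu b * (2 ^ n * δ))) := rfl
    rw [h1, h2]
    simp only [ih]
    exact scale_par l _

theorem scale (δ : ℝ) (n : ℕ) (l : ℝ) (f : ℝ → ℝ → ℝ) (p q : ℝ) :
    MR δ n (tzs l f) p q = l⁻¹ • MR δ n f p q ∧ MP δ n (tzs l f) p q = l⁻¹ • MP δ n f p q ∧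
    (tzT f → tzT (tzs l f)) := by
  refine ⟨scale_MR δ n l f p q, ?_, ?_⟩
  · show par (fun a b => MR δ n (tzs l f)
        (p + tzu a * (2 ^ n * δ)) (q + tzu b * (2 ^ n * δ))) = _
    simp only [scale_MR]
    exact scale_par l _
  · rintro ⟨h1, h2⟩
    refine ⟨?_, ?_⟩
    · exact continuous_const.mul h1
    · exact HasCompactSupport.mul_left (f := fun _ : ℝ × ℝ => l⁻¹) h2

end TH71
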