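import Pool.Agent.Helper933.TR.Defs
import Pool.Agent.Helper933.TR.P_db_final
import Pool.Agent.Helper933.TR.P_scale

set_option autoImplicit false
set_option linter.unusedVariables false

open Matrix MeasureTheory

namespace TH71


theorem D_le_sg1 (ι : Type*) [DecidableEq ι] : (sg ι)ᵀ = sg ι := by
  unfold sg
  rw [Matrix.diagonal_transpose]

theorem D_le_sg2 (ι : Type*) [Fintype ι] [DecidableEq ι] : sg ι * sg ι = 1 := by
  unfold sg
  rw [Matrix.diagonal_mul_diagonal, ← Matrix.diagonal_one]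
  congr 1
  funext p
  split_ifs <;> norm_num

theorem D_le (δ : ℝ) (n : ℕ) (f g h : ℝ → ℝ → ℝ) (ν : ℝ) (p : ℝ × ℝ) (ε : ℝ) (hε : 0 < ε) :
    ∃ K0 : ℕ, ∀ K : ℕ, K0 ≤ K → |tzD δ n f g h ν p| ≤ 12 * tzS δ n K f g h ν p + ε := by
  obtain ⟨K0, hK0⟩ := db_final (sg (Idx n)) (MP δ n f p.1 p.2) (MP δ n g p.2 (ν - p.1 - p.2))
    (MP δ n h (ν - p.1 - p.2) p.1) (D_le_sg1 _) (D_le_sg2 _) ε hε
  exact ⟨K0, hK0⟩

end TH71
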