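import Pool.Agent.Helper933.TR.Defs
import Pool.Agent.Helper933.TR.P_int_of

set_option autoImplicit false
set_option linter.unusedVariables false

open Matrix MeasureTheory

namespace TH71


theorem TT_shift (f g h : ℝ → ℝ → ℝ) (hf : tzT f) (hg : tzT g) (hh : tzT h) (ν a b c : ℝ) :
    Integrable (fun p : ℝ × ℝ => f (p.1 + a) (p.2 + b) * g (p.2 + b) (ν - p.1 - p.2 + c) *
      h (ν - p.1 - p.2 + c) (p.1 + a)) ∧
    ∫ p : ℝ × ℝ, f (p.1 + a) (p.2 + b) * g (p.2 + b) (ν - p.1 - p.2 + c) *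
      h (ν - p.1 - p.2 + c) (p.1 + a) = tzTT f g h (ν + (a + b + c)) := by
  set s : ℝ := ν + (a + b + c) with hs
  let Φ : ℝ × ℝ → ℝ := fun p => f p.1 p.2 * g p.2 (s - p.1 - p.2) * h (s - p.1 - p.2) p.1
  have hcont : Continuous Φ := by
    have c1 : Continuous (fun p : ℝ × ℝ => s - p.1 - p.2) :=
      (continuous_const.sub continuous_fst).sub continuous_snd
    have c2 : Continuous (fun p : ℝ × ℝ => g p.2 (s - p.1 - p.2)) :=
      hg.1.comp (continuous_snd.prodMk c1)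
    have c3 : Continuous (fun p : ℝ × ℝ => h (s - p.1 - p.2) p.1) :=
      hh.1.comp (c1.prodMk continuous_fst)
    exact (hf.1.mul c2).mul c3
  obtain ⟨R, hR⟩ := hf.2.isCompact.isBounded.subset_closedBall (0 : ℝ × ℝ)
  have hz : ∀ p : ℝ × ℝ, (R < |p.1| ∨ R < |p.2|) → Φ p = 0 := by
    intro p hp
    have h1 : p ∉ tsupport (fun p : ℝ × ℝ => f p.1 p.2) := by
      intro hmem
      have h2 := hR hmem
      rw [mem_closedBall_zero_iff, Prod.norm_def, max_le_iff, Real.norm_eq_abs,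
        Real.norm_eq_abs] at h2
      rcases hp with h | h
      · linarith [h2.1]
      · linarith [h2.2]
    have h3 : f p.1 p.2 = 0 :=
      image_eq_zero_of_notMem_tsupport (f := fun p : ℝ × ℝ => f p.1 p.2) (x := p) h1
    show f p.1 p.2 * g p.2 (s - p.1 - p.2) * h (s - p.1 - p.2) p.1 = 0
    rw [h3]
    ring
  have hint : Integrable Φ := int_of Φ hcont R hz
  have he : (fun p : ℝ × ℝ => f (p.1 + a) (p.2 + b) * g (p.2 + b) (ν - p.1 - p.2 + c) *
      h (ν - p.1 - p.2 + c) (p.1 + a)) = fun p : ℝ × ℝ => Φ (p + (a, b)) := by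
    funext p
    show _ = f (p.1 + a) (p.2 + b) * g (p.2 + b) (s - (p.1 + a) - (p.2 + b)) *
      h (s - (p.1 + a) - (p.2 + b)) (p.1 + a)
    have e1 : s - (p.1 + a) - (p.2 + b) = ν - p.1 - p.2 + c := by
      rw [hs]
      ring
    rw [e1]
  rw [he]
  refine ⟨hint.comp_add_right (a, b), ?_⟩
  rw [integral_add_right_eq_self Φ (a, b)]
  rfl

end TH71
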