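import Pool.Agent.Helper933.TR.Defs

set_option autoImplicit false
set_option linter.unusedVariables false

open Matrix MeasureTheory

namespace TH71


theorem tr3_par {ι : Type*} [Fintype ι] (A B C : Bool → Bool → Matrix ι ι ℝ) :
    (par A * par B * par C).trace = (1/8) * ∑ a, ∑ b, ∑ c, (A a b * B b c * C c a).trace := by
  have h1 : ∀ (a c : Bool) (i k : ι), (par A * par B) (a, i) (c, k) =
      (1/4) * ∑ b, (A a b * B b c) i k := by
    intro a c i k
    rw [Matrix.mul_apply, Fintype.sum_prod_type, Finset.mul_sum]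
    refine Finset.sum_congr rfl fun b _ => ?_
    rw [Matrix.mul_apply, Finset.mul_sum]
    refine Finset.sum_congr rfl fun j _ => ?_
    simp only [par]
    ring
  have h2 : ∀ (a : Bool) (i : ι), (par A * par B * par C) (a, i) (a, i) =
      (1/8) * ∑ b, ∑ c, (A a b * B b c * C c a) i i := by
    intro a i
    have e : ∀ b c : Bool, (A a b * B b c * C c a) i i = ∑ k, (A a b * B b c) i k * C c a k i :=
      fun b c => Matrix.mul_apply
    calc (par A * par B * par C) (a, i) (a, i)
        = ∑ c, ∑ k, (par A * par B) (a, i) (c, k) * par C (c, k) (a, i) := by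
          rw [Matrix.mul_apply, Fintype.sum_prod_type]
      _ = ∑ c, (1/8) * ∑ b, (A a b * B b c * C c a) i i := by
          refine Finset.sum_congr rfl fun c _ => ?_
          have e' : ∑ b, (A a b * B b c * C c a) i i =
              ∑ k, ∑ b, (A a b * B b c) i k * C c a k i := by
            rw [Finset.sum_comm]
            exact Finset.sum_congr rfl fun b _ => e b c
          rw [e', Finset.mul_sum]
          refine Finset.sum_congr rfl fun k _ => ?_
          rw [h1, ← Finset.sum_mul]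
          simp only [par]
          ring
      _ = (1/8) * ∑ b, ∑ c, (A a b * B b c * C c a) i i := by
          rw [← Finset.mul_sum, Finset.sum_comm]
  unfold Matrix.trace
  simp only [Matrix.diag_apply]
  rw [Fintype.sum_prod_type, Finset.mul_sum]
  refine Finset.sum_congr rfl fun a _ => ?_
  rw [Finset.sum_congr rfl fun i _ => h2 a i, ← Finset.mul_sum, Finset.sum_comm]
  congr 1
  refine Finset.sum_congr rfl fun b _ => ?_
  rw [Finset.sum_comm]

theorem tr3_split (F : ℝ → ℝ) (p δ : ℝ) (n : ℕ) :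
    ∑ i ∈ Finset.range (2 ^ (n + 1)), F (p + (i : ℝ) * δ) =
      ∑ a : Bool, ∑ i ∈ Finset.range (2 ^ n), F (p + tzu a * (2 ^ n * δ) + (i : ℝ) * δ) := by
  rw [pow_succ, mul_two, Finset.sum_range_add, Fintype.sum_bool, add_comm]
  congr 1
  · refine Finset.sum_congr rfl fun i _ => ?_
    congr 1
    simp only [tzu]
    push_cast
    simp
    ring
  · refine Finset.sum_congr rfl fun i _ => ?_
    congr 1
    simp [tzu]

theorem tr3 (δ : ℝ) (n : ℕ) (f g h : ℝ → ℝ → ℝ) (p q r : ℝ) :
    (MR δ n f p q * MR δ n g q r * MR δ n h r p).trace =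
      (1 / 8 ^ n) * ∑ i ∈ Finset.range (2 ^ n), ∑ k ∈ Finset.range (2 ^ n),
        ∑ l ∈ Finset.range (2 ^ n),
          f (p + (i : ℝ) * δ) (q + (k : ℝ) * δ) * g (q + (k : ℝ) * δ) (r + (l : ℝ) * δ) *
            h (r + (l : ℝ) * δ) (p + (i : ℝ) * δ) := by
  induction n generalizing p q r with
  | zero =>
    have hu : Unique (Idx 0) := inferInstanceAs (Unique Unit)
    simp [Matrix.trace, Matrix.mul_apply, MR]
  | succ n ih =>
    have h1 : (MR δ (n + 1) f p q * MR δ (n + 1) g q r * MR δ (n + 1) h r p).trace =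
        (par (fun a b => MR δ n f (p + tzu a * (2 ^ n * δ)) (q + tzu b * (2 ^ n * δ))) *
          par (fun a b => MR δ n g (q + tzu a * (2 ^ n * δ)) (r + tzu b * (2 ^ n * δ))) *
          par (fun a b => MR δ n h (r + tzu a * (2 ^ n * δ)) (p + tzu b * (2 ^ n * δ)))).trace := rfl
    rw [h1, tr3_par]
    simp only [ih]
    have e1 := tr3_split (fun x => ∑ k ∈ Finset.range (2 ^ (n + 1)), ∑ l ∈ Finset.range (2 ^ (n + 1)),
          f x (q + (k : ℝ) * δ) * g (q + (k : ℝ) * δ) (r + (l : ℝ) * δ) *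
            h (r + (l : ℝ) * δ) x) p δ n
    rw [e1]
    have e2 : ∀ x, ∑ k ∈ Finset.range (2 ^ (n + 1)), ∑ l ∈ Finset.range (2 ^ (n + 1)),
          f x (q + (k : ℝ) * δ) * g (q + (k : ℝ) * δ) (r + (l : ℝ) * δ) *
            h (r + (l : ℝ) * δ) x = ∑ b : Bool, ∑ k ∈ Finset.range (2 ^ n), ∑ c : Bool,
            ∑ l ∈ Finset.range (2 ^ n),
          f x (q + tzu b * (2 ^ n * δ) + (k : ℝ) * δ) *
            g (q + tzu b * (2 ^ n * δ) + (k : ℝ) * δ) (r + tzu c * (2 ^ n * δ) + (l : ℝ) * δ) *
            h (r + tzu c * (2 ^ n * δ) + (l : ℝ) * δ) x := by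
      intro x
      rw [tr3_split (fun y => ∑ l ∈ Finset.range (2 ^ (n + 1)),
          f x y * g y (r + (l : ℝ) * δ) * h (r + (l : ℝ) * δ) x) q δ n]
      refine Finset.sum_congr rfl fun b _ => Finset.sum_congr rfl fun k _ => ?_
      exact tr3_split (fun z => f x (q + tzu b * (2 ^ n * δ) + (k : ℝ) * δ) *
            g (q + tzu b * (2 ^ n * δ) + (k : ℝ) * δ) z * h z x) r δ n
    simp only [e2]
    simp only [Fintype.sum_bool, Finset.sum_add_distrib]
    rw [pow_succ]
    ring

end TH71
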