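import Pool.Agent.Helper933.TR.Defs
import Pool.Agent.Helper933.TR.P_tr3

set_option autoImplicit false
set_option linter.unusedVariables false

open Matrix MeasureTheory

namespace TH71


theorem tr3s_split (n : ℕ) (F : ℕ → ℝ) : ∑ i ∈ Finset.range (2 ^ (n + 1)), F i =
    ∑ a : Bool, ∑ i ∈ Finset.range (2 ^ n), F ((if a then 2 ^ n else 0) + i) := by
  rw [pow_succ, mul_two, Finset.sum_range_add, Fintype.sum_bool, add_comm]
  simp

/-- signs -/
noncomputable def tr3sgn (a : Bool) : ℝ := if a then -1 else 1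

theorem tr3s_tze (n : ℕ) (a : Bool) (i : ℕ) (hi : i < 2 ^ n) :
    tze (2 ^ (n + 1)) ((if a then 2 ^ n else 0) + i) = tr3sgn a := by
  have h : 2 ^ (n + 1) / 2 = 2 ^ n := by
    rw [pow_succ, Nat.mul_div_cancel _ (by norm_num)]
  unfold tze tr3sgn
  rw [h]
  cases a
  · simp [hi]
  · simp

theorem tr3s_blocks {ι : Type} [Fintype ι] [DecidableEq ι] (F G H : Bool → Bool → Matrix ι ι ℝ) :
    (sg ι * par F * sg ι * par G * sg ι * par H).trace =
      (1 / 8) * ∑ a : Bool, ∑ b : Bool, ∑ c : Bool, (tr3sgn a * tr3sgn b * tr3sgn c) *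
        (F a b * G b c * H c a).trace := by
  have h1 : ∀ x y : Bool × ι, (sg ι * par F * sg ι) x y = tr3sgn x.1 * par F x y * tr3sgn y.1 := by
    intro x y
    unfold sg tr3sgn
    rw [Matrix.mul_diagonal, Matrix.diagonal_mul]
  have h2 : ∀ x z : Bool × ι, (sg ι * par F * sg ι * par G * sg ι) x z =
      (∑ y : Bool × ι, tr3sgn x.1 * par F x y * tr3sgn y.1 * par G y z) * tr3sgn z.1 := by
    intro x z
    have h3 : (sg ι * par F * sg ι * par G * sg ι) x z =
        (sg ι * par F * sg ι * par G) x z * tr3sgn z.1 := by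
      conv_lhs => rw [show sg ι = Matrix.diagonal (fun p : Bool × ι => if p.1 then (-1:ℝ) else 1) from rfl]
      rw [Matrix.mul_diagonal]
      rfl
    rw [h3, Matrix.mul_apply]
    simp only [h1]
  have hL : (sg ι * par F * sg ι * par G * sg ι * par H).trace =
      ∑ a : Bool, ∑ i : ι, ∑ c : Bool, ∑ l : ι, ∑ b : Bool, ∑ k : ι,
        (1 / 8) * ((tr3sgn a * tr3sgn b * tr3sgn c) * (F a b i k * G b c k l * H c a l i)) := by
    rw [Matrix.trace, Fintype.sum_prod_type]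
    refine Finset.sum_congr rfl (fun a _ => Finset.sum_congr rfl (fun i _ => ?_))
    rw [Matrix.diag_apply, Matrix.mul_apply, Fintype.sum_prod_type]
    refine Finset.sum_congr rfl (fun c _ => Finset.sum_congr rfl (fun l _ => ?_))
    rw [h2, Fintype.sum_prod_type, Finset.sum_mul, Finset.sum_mul]
    refine Finset.sum_congr rfl (fun b _ => ?_)
    rw [Finset.sum_mul, Finset.sum_mul]
    refine Finset.sum_congr rfl (fun k _ => ?_)
    simp only [par]
    ring
  rw [hL, Finset.mul_sum]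
  refine Finset.sum_congr rfl (fun a _ => ?_)
  rw [Finset.sum_comm]
  have e1 : ∀ c : Bool, ∑ i : ι, ∑ l : ι, ∑ b : Bool, ∑ k : ι,
        (1 / 8) * ((tr3sgn a * tr3sgn b * tr3sgn c) * (F a b i k * G b c k l * H c a l i)) =
      ∑ b : Bool, ∑ i : ι, ∑ l : ι, ∑ k : ι,
        (1 / 8) * ((tr3sgn a * tr3sgn b * tr3sgn c) * (F a b i k * G b c k l * H c a l i)) := by
    intro c
    rw [Finset.sum_comm (s := (Finset.univ : Finset Bool)) (t := (Finset.univ : Finset ι))]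
    refine Finset.sum_congr rfl (fun i _ => ?_)
    rw [Finset.sum_comm]
  rw [Finset.sum_congr rfl (fun c _ => e1 c), Finset.sum_comm, Finset.mul_sum]
  refine Finset.sum_congr rfl (fun b _ => ?_)
  rw [Finset.mul_sum]
  refine Finset.sum_congr rfl (fun c _ => ?_)
  rw [Matrix.trace, Finset.mul_sum, Finset.mul_sum]
  refine Finset.sum_congr rfl (fun i _ => ?_)
  rw [Matrix.diag_apply, Matrix.mul_apply, Finset.mul_sum, Finset.mul_sum]
  refine Finset.sum_congr rfl (fun l _ => ?_)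
  rw [Matrix.mul_apply, Finset.sum_mul, Finset.mul_sum, Finset.mul_sum]

theorem tr3s (δ : ℝ) (n : ℕ) (f g h : ℝ → ℝ → ℝ) (ν : ℝ) (p : ℝ × ℝ) :
    tzD δ n f g h ν p =
      (1 / 8 ^ (n + 1)) * ∑ i ∈ Finset.range (2 ^ (n + 1)), ∑ k ∈ Finset.range (2 ^ (n + 1)),
        ∑ l ∈ Finset.range (2 ^ (n + 1)),
          tze (2 ^ (n + 1)) i * tze (2 ^ (n + 1)) k * tze (2 ^ (n + 1)) l *
          (f (p.1 + (i : ℝ) * δ) (p.2 + (k : ℝ) * δ) *
            g (p.2 + (k : ℝ) * δ) (ν - p.1 - p.2 + (l : ℝ) * δ) *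
            h (ν - p.1 - p.2 + (l : ℝ) * δ) (p.1 + (i : ℝ) * δ)) := by
  unfold tzD MP
  rw [tr3s_blocks]
  simp only [tr3]
  set r : ℝ := ν - p.1 - p.2 with hr
  have hR : ∑ i ∈ Finset.range (2 ^ (n + 1)), ∑ k ∈ Finset.range (2 ^ (n + 1)),
        ∑ l ∈ Finset.range (2 ^ (n + 1)),
          tze (2 ^ (n + 1)) i * tze (2 ^ (n + 1)) k * tze (2 ^ (n + 1)) l *
          (f (p.1 + (i : ℝ) * δ) (p.2 + (k : ℝ) * δ) *
            g (p.2 + (k : ℝ) * δ) (r + (l : ℝ) * δ) *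
            h (r + (l : ℝ) * δ) (p.1 + (i : ℝ) * δ)) =
      ∑ a : Bool, ∑ b : Bool, ∑ c : Bool, ∑ i ∈ Finset.range (2 ^ n), ∑ k ∈ Finset.range (2 ^ n),
        ∑ l ∈ Finset.range (2 ^ n), (tr3sgn a * tr3sgn b * tr3sgn c) *
          (f (p.1 + tzu a * (2 ^ n * δ) + (i : ℝ) * δ) (p.2 + tzu b * (2 ^ n * δ) + (k : ℝ) * δ) *
            g (p.2 + tzu b * (2 ^ n * δ) + (k : ℝ) * δ) (r + tzu c * (2 ^ n * δ) + (l : ℝ) * δ) *
            h (r + tzu c * (2 ^ n * δ) + (l : ℝ) * δ) (p.1 + tzu a * (2 ^ n * δ) + (i : ℝ) * δ)) := by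
    rw [tr3s_split]
    refine Finset.sum_congr rfl (fun a _ => ?_)
    have e1 : ∀ i ∈ Finset.range (2 ^ n), ∑ k ∈ Finset.range (2 ^ (n + 1)),
        ∑ l ∈ Finset.range (2 ^ (n + 1)),
          tze (2 ^ (n + 1)) ((if a then 2 ^ n else 0) + i) * tze (2 ^ (n + 1)) k * tze (2 ^ (n + 1)) l *
          (f (p.1 + (((if a then 2 ^ n else 0) + i : ℕ) : ℝ) * δ) (p.2 + (k : ℝ) * δ) *
            g (p.2 + (k : ℝ) * δ) (r + (l : ℝ) * δ) *
            h (r + (l : ℝ) * δ) (p.1 + (((if a then 2 ^ n else 0) + i : ℕ) : ℝ) * δ)) =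
        ∑ b : Bool, ∑ c : Bool, ∑ k ∈ Finset.range (2 ^ n),
        ∑ l ∈ Finset.range (2 ^ n), (tr3sgn a * tr3sgn b * tr3sgn c) *
          (f (p.1 + tzu a * (2 ^ n * δ) + (i : ℝ) * δ) (p.2 + tzu b * (2 ^ n * δ) + (k : ℝ) * δ) *
            g (p.2 + tzu b * (2 ^ n * δ) + (k : ℝ) * δ) (r + tzu c * (2 ^ n * δ) + (l : ℝ) * δ) *
            h (r + tzu c * (2 ^ n * δ) + (l : ℝ) * δ) (p.1 + tzu a * (2 ^ n * δ) + (i : ℝ) * δ)) := by
      intro i hi
      rw [tr3s_split]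
      refine Finset.sum_congr rfl (fun b _ => ?_)
      rw [Finset.sum_comm (s := (Finset.univ : Finset Bool))]
      refine Finset.sum_congr rfl (fun k hk => ?_)
      rw [tr3s_split]
      refine Finset.sum_congr rfl (fun c _ => Finset.sum_congr rfl (fun l hl => ?_))
      rw [tr3s_tze n a i (Finset.mem_range.1 hi), tr3s_tze n b k (Finset.mem_range.1 hk),
        tr3s_tze n c l (Finset.mem_range.1 hl)]
      have cast : ∀ (a : Bool) (i : ℕ) (x : ℝ), x + (((if a then 2 ^ n else 0) + i : ℕ) : ℝ) * δ =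
          x + tzu a * (2 ^ n * δ) + (i : ℝ) * δ := by
        intro a i x
        cases a
        · simp [tzu]
        · simp [tzu]; ring
      rw [cast, cast, cast]
    rw [Finset.sum_congr rfl e1, Finset.sum_comm]
    refine Finset.sum_congr rfl (fun b _ => ?_)
    rw [Finset.sum_comm]
  rw [hR, pow_succ]
  rw [Finset.mul_sum, Finset.mul_sum]
  refine Finset.sum_congr rfl (fun a _ => ?_)
  rw [Finset.mul_sum, Finset.mul_sum]
  refine Finset.sum_congr rfl (fun b _ => ?_)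
  rw [Finset.mul_sum, Finset.mul_sum]
  refine Finset.sum_congr rfl (fun c _ => ?_)
  simp only [Finset.mul_sum]
  refine Finset.sum_congr rfl (fun i _ => Finset.sum_congr rfl (fun k _ => Finset.sum_congr rfl (fun l _ => ?_)))
  have h8 : (8:ℝ) ^ n ≠ 0 := by positivity
  field_simp

end TH71
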