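import Pool.Agent.Helper933.TR.Defs
import Pool.Agent.Helper933.TR.P_tr3s
import Pool.Agent.Helper933.TR.P_TT_shift

set_option autoImplicit false
set_option linter.unusedVariables false

open Matrix MeasureTheory

namespace TH71


theorem D_val (δ : ℝ) (n : ℕ) (f g h : ℝ → ℝ → ℝ) (hf : tzT f) (hg : tzT g) (hh : tzT h)
    (ν : ℝ) : ∫ p : ℝ × ℝ, tzD δ n f g h ν p = tzV (tzTT f g h) δ (n + 1) ν := by
  have hI : ∀ i k l : ℕ, Integrable (fun p : ℝ × ℝ =>
      tze (2 ^ (n + 1)) i * tze (2 ^ (n + 1)) k * tze (2 ^ (n + 1)) l *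
          (f (p.1 + (i : ℝ) * δ) (p.2 + (k : ℝ) * δ) *
            g (p.2 + (k : ℝ) * δ) (ν - p.1 - p.2 + (l : ℝ) * δ) *
            h (ν - p.1 - p.2 + (l : ℝ) * δ) (p.1 + (i : ℝ) * δ))) := fun i k l =>
    (TT_shift f g h hf hg hh ν ((i : ℝ) * δ) ((k : ℝ) * δ) ((l : ℝ) * δ)).1.const_mul _
  rw [integral_congr_ae (Filter.Eventually.of_forall fun p => tr3s δ n f g h ν p)]
  unfold tzV
  rw [integral_const_mul]
  congr 1
  rw [integral_finset_sum _ (fun i _ => integrable_finset_sum _ (fun k _ =>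
    integrable_finset_sum _ (fun l _ => hI i k l)))]
  refine Finset.sum_congr rfl fun i _ => ?_
  rw [integral_finset_sum _ (fun k _ => integrable_finset_sum _ (fun l _ => hI i k l))]
  refine Finset.sum_congr rfl fun k _ => ?_
  rw [integral_finset_sum _ (fun l _ => hI i k l)]
  refine Finset.sum_congr rfl fun l _ => ?_
  rw [integral_const_mul, (TT_shift f g h hf hg hh ν ((i : ℝ) * δ) ((k : ℝ) * δ) ((l : ℝ) * δ)).2]
  congr 2
  ring

end TH71
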