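import Pool.Agent.Helper933.TR.Defs

set_option autoImplicit false
set_option linter.unusedVariables false

open Matrix MeasureTheory

namespace TH71


theorem P_cont {κ : Type*} [Fintype κ] [DecidableEq κ] :
    Continuous (fun A : Matrix κ κ ℝ => P A) ∧ P (0 : Matrix κ κ ℝ) = 0 := by
  have hdet : ∀ A : Matrix κ κ ℝ, (1 + Aᵀ * A).det ≠ 0 := by
    intro A
    have h1 : (Aᵀ * A).PosSemidef := by
      have := Matrix.posSemidef_conjTranspose_mul_self A
      rwa [Matrix.conjTranspose_eq_transpose_of_trivial] at this
    exact (Matrix.PosDef.one.add_posSemidef h1).det_pos.ne'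
  constructor
  · have h2 : (fun A : Matrix κ κ ℝ => P A) =
        fun A => 1 - ((1 + Aᵀ * A).det)⁻¹ • (1 + Aᵀ * A).adjugate := by
      funext A
      unfold P
      rw [Matrix.inv_def, Ring.inverse_eq_inv']
    rw [h2]
    have hc : Continuous (fun A : Matrix κ κ ℝ => 1 + Aᵀ * A) :=
      continuous_const.add ((continuous_id.matrix_transpose).matrix_mul continuous_id)
    exact continuous_const.sub ((hc.matrix_det.inv₀ hdet).smul hc.matrix_adjugate)
  · unfold P
    simp

end TH71
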