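import Pool.Agent.Helper933.TR.Defs
import Pool.Agent.Helper933.TR.P_P_cont
import Pool.Agent.Helper933.TR.P_int_of
import Pool.Agent.Helper933.TR.P_MR_cont
import Pool.Agent.Helper933.TR.P_MR_supp

set_option autoImplicit false
set_option linter.unusedVariables false

open Matrix MeasureTheory

namespace TH71


theorem E_int (δ : ℝ) (n : ℕ) (f g : ℝ → ℝ → ℝ) (hf : tzT f) (hg : tzT g) (ν : ℝ) :
    Integrable (fun p : ℝ × ℝ =>
      E (sg (Idx n)) (MP δ n f p.1 p.2) (MP δ n g p.2 (ν - p.1 - p.2))) := by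
  obtain ⟨R, hR0, hR⟩ := MR_supp δ n f hf
  have hfc := (MR_cont δ n f hf).2
  have hgc : Continuous (fun p : ℝ × ℝ => MP δ n g p.2 (ν - p.1 - p.2)) :=
    (MR_cont δ n g hg).2.comp
      (g := fun q : ℝ × ℝ => MP δ n g q.1 q.2)
      (f := fun p : ℝ × ℝ => (p.2, ν - p.1 - p.2)) (by fun_prop)
  have hP := (P_cont (κ := Bool × Idx n)).1
  have h0 := (P_cont (κ := Bool × Idx n)).2
  apply int_of _ _ R
  · intro p hp
    have h1 : MP δ n f p.1 p.2 = 0 := (hR p.1 p.2 hp).2
    unfold E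
    rw [h1, h0, Matrix.zero_mul, Matrix.zero_mul, Matrix.zero_mul, Matrix.trace_zero]
  · unfold E
    exact ((((hP.comp hfc).matrix_mul continuous_const).matrix_mul
      (hP.comp hgc.matrix_transpose)).matrix_mul continuous_const).matrix_trace

end TH71
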