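import Pool.Agent.Helper933.TR.Defs
import Pool.Agent.Helper71.TH.P_trace_mul_nonneg
import Pool.Agent.Helper71.TH.P_P_bounds

set_option autoImplicit false
set_option linter.unusedVariables false

open Matrix MeasureTheory

namespace TH71

theorem E_nonneg {ι : Type*} [Fintype ι] [DecidableEq ι] (A B : Matrix (Bool × ι) (Bool × ι) ℝ) :
    0 ≤ E (sg ι) A B := by
  have hs : (sg ι)ᴴ = sg ι := by
    rw [sg, Matrix.diagonal_conjTranspose]
    congr 1
  have h1 : (sg ι * P Bᵀ * sg ι).PosSemidef := by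
    have h2 := (P_bounds Bᵀ).1.mul_mul_conjTranspose_same (sg ι)
    rw [hs] at h2
    exact h2
  have h3 := trace_mul_nonneg _ _ (P_bounds A).1 h1
  have h4 : P A * sg ι * P Bᵀ * sg ι = P A * (sg ι * P Bᵀ * sg ι) := by
    simp only [Matrix.mul_assoc]
  rw [E, h4]
  exact h3

end TH71
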