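import Pool.Agent.Helper933.TR.Defs
import Pool.Agent.Helper933.TR.P_P_cont
import Pool.Agent.Helper933.TR.P_int_of
import Pool.Agent.Helper933.TR.P_MR_cont
import Pool.Agent.Helper933.TR.P_MR_supp

set_option autoImplicit false
set_option linter.unusedVariables false

open Matrix MeasureTheory

namespace TH71


theorem H_int (δ : ℝ) (n : ℕ) (f g : ℝ → ℝ → ℝ) (hf : tzT f) (hg : tzT g) (ν a b c d : ℝ) :
    Integrable (fun p : ℝ × ℝ => (P (MR δ n f (p.1 + a) (p.2 + b)) *
      P (MR δ n g (p.2 + c) (ν - p.1 - p.2 + d))ᵀ).trace) := by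
  obtain ⟨R, hR0, hR⟩ := MR_supp δ n f hf
  have hPc := (P_cont (κ := Idx n)).1
  have hP0 := (P_cont (κ := Idx n)).2
  refine int_of _ ?_ (R + |a| + |b|) ?_
  · have h1 : Continuous (fun p : ℝ × ℝ => MR δ n f (p.1 + a) (p.2 + b)) :=
      (MR_cont δ n f hf).1.comp (by fun_prop : Continuous (fun p : ℝ × ℝ => (p.1 + a, p.2 + b)))
    have h2 : Continuous (fun p : ℝ × ℝ => MR δ n g (p.2 + c) (ν - p.1 - p.2 + d)) :=
      (MR_cont δ n g hg).1.comp
        (by fun_prop : Continuous (fun p : ℝ × ℝ => (p.2 + c, ν - p.1 - p.2 + d)))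
    have h3 : Continuous (fun p : ℝ × ℝ => P (MR δ n f (p.1 + a) (p.2 + b))) := hPc.comp h1
    have h4 : Continuous (fun p : ℝ × ℝ => P (MR δ n g (p.2 + c) (ν - p.1 - p.2 + d))ᵀ) :=
      hPc.comp h2.matrix_transpose
    exact (h3.matrix_mul h4).matrix_trace
  · intro p hp
    have hz : MR δ n f (p.1 + a) (p.2 + b) = 0 := by
      refine (hR (p.1 + a) (p.2 + b) ?_).1
      rcases hp with hp | hp
      · left
        have h1 : |p.1| ≤ |p.1 + a| + |a| := by
          calc |p.1| = |(p.1 + a) + (-a)| := by ring_nf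
            _ ≤ |p.1 + a| + |-a| := abs_add_le _ _
            _ = |p.1 + a| + |a| := by rw [abs_neg]
        have := abs_nonneg b
        linarith
      · right
        have h1 : |p.2| ≤ |p.2 + b| + |b| := by
          calc |p.2| = |(p.2 + b) + (-b)| := by ring_nf
            _ ≤ |p.2 + b| + |-b| := abs_add_le _ _
            _ = |p.2 + b| + |b| := by rw [abs_neg]
        have := abs_nonneg a
        linarith
    rw [hz, hP0, Matrix.zero_mul, Matrix.trace_zero]

end TH71
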