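import Pool.Agent.Helper933.TR.Defs

set_option autoImplicit false
set_option linter.unusedVariables false

open Matrix MeasureTheory

namespace TH71


theorem H_shift (δ : ℝ) (n : ℕ) (f g : ℝ → ℝ → ℝ) (ν a b c : ℝ) :
    ∫ p : ℝ × ℝ, (P (MR δ n f (p.1 + a) (p.2 + b)) *
      P (MR δ n g (p.2 + b) (ν - p.1 - p.2 + c))ᵀ).trace = tzH δ n f g (ν + a + b + c) := by
  have h := MeasureTheory.integral_add_right_eq_self (μ := (volume : Measure (ℝ × ℝ)))
    (fun p : ℝ × ℝ => (P (MR δ n f p.1 p.2) *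
      P (MR δ n g p.2 (ν + a + b + c - p.1 - p.2))ᵀ).trace) ((a, b) : ℝ × ℝ)
  unfold tzH
  rw [← h]
  refine integral_congr_ae (Filter.Eventually.of_forall fun p => ?_)
  have h1 : ν + a + b + c - (p.1 + a) - (p.2 + b) = ν - p.1 - p.2 + c := by ring
  show (P (MR δ n f (p.1 + a) (p.2 + b)) * P (MR δ n g (p.2 + b) (ν - p.1 - p.2 + c))ᵀ).trace =
    (P (MR δ n f (p.1 + a) (p.2 + b)) *
      P (MR δ n g (p.2 + b) (ν + a + b + c - (p.1 + a) - (p.2 + b)))ᵀ).trace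
  rw [h1]

end TH71
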