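import Pool.Agent.Helper933.TR.Defs

set_option autoImplicit false
set_option linter.unusedVariables false

open Matrix MeasureTheory

namespace TH71


theorem Lsplit (T : ℝ → ℝ) (hT : Continuous T) (ε N : ℝ) (hε : 0 < ε) (hN : ε < N) :
    tzL T ε N = (∫ t in ε..N, T t / t) - ∫ t in ε..N, T (-t) / t := by
  have hset : {s : ℝ | ε < |s| ∧ |s| < N} = Set.Ioo ε N ∪ Set.Ioo (-N) (-ε) := by
    ext s
    simp only [Set.mem_setOf_eq, Set.mem_union, Set.mem_Ioo]
    constructor
    · rintro ⟨h1, h2⟩
      rcases abs_cases s with ⟨h3, h4⟩ | ⟨h3, h4⟩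
      · left; constructor <;> linarith
      · right; constructor <;> linarith
    · rintro (⟨h1, h2⟩ | ⟨h1, h2⟩)
      · rw [abs_of_pos (by linarith)]; exact ⟨h1, h2⟩
      · rw [abs_of_neg (by linarith)]; constructor <;> linarith
  have hc1 : ContinuousOn (fun s => T s / s) (Set.Icc ε N) :=
    hT.continuousOn.div continuousOn_id (fun s hs => by
      have := hs.1
      exact ne_of_gt (lt_of_lt_of_le hε this))
  have hc2 : ContinuousOn (fun s => T s / s) (Set.Icc (-N) (-ε)) :=
    hT.continuousOn.div continuousOn_id (fun s hs => by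
      have := hs.2
      exact ne_of_lt (show s < 0 by linarith))
  have hi1 : IntegrableOn (fun s => T s / s) (Set.Ioo ε N) :=
    hc1.integrableOn_Icc.mono_set Set.Ioo_subset_Icc_self
  have hi2 : IntegrableOn (fun s => T s / s) (Set.Ioo (-N) (-ε)) :=
    hc2.integrableOn_Icc.mono_set Set.Ioo_subset_Icc_self
  have hdisj : Disjoint (Set.Ioo ε N) (Set.Ioo (-N) (-ε)) := by
    rw [Set.disjoint_left]
    intro x hx hx'
    have h1 := hx.1
    have h2 := hx'.2
    linarith
  unfold tzL
  rw [hset, setIntegral_union hdisj measurableSet_Ioo hi1 hi2,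
    ← integral_Ioc_eq_integral_Ioo, ← integral_Ioc_eq_integral_Ioo,
    ← intervalIntegral.integral_of_le hN.le, ← intervalIntegral.integral_of_le (by linarith),
    ← intervalIntegral.integral_comp_neg (fun s => T s / s), sub_eq_add_neg,
    ← intervalIntegral.integral_neg]
  congr 1
  refine intervalIntegral.integral_congr fun t _ => ?_
  simp only [div_neg]

end TH71
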