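import Pool.Agent.Helper933.TR.Defs

set_option autoImplicit false
set_option linter.unusedVariables false

open Matrix MeasureTheory

namespace TH71


theorem chg_mp (ν : ℝ) :
    MeasurePreserving (fun p : ℝ × ℝ => (p.2, ν - p.1 - p.2)) volume volume := by
  have h1 : MeasurePreserving (Prod.swap : ℝ × ℝ → ℝ × ℝ) (volume.prod volume) (volume.prod volume) :=
    Measure.measurePreserving_swap
  have h2 : MeasurePreserving (fun z : ℝ × ℝ => (z.1, z.1 + z.2)) (volume.prod volume)
      (volume.prod volume) := measurePreserving_prod_add volume volume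
  have h3 : MeasurePreserving (fun x : ℝ => ν - x) volume volume :=
    Measure.measurePreserving_sub_left volume ν
  have h4 : MeasurePreserving (Prod.map (id : ℝ → ℝ) (fun x : ℝ => ν - x)) (volume.prod volume)
      (volume.prod volume) := (MeasurePreserving.id volume).prod h3
  have h5 := h4.comp (h2.comp h1)
  have h6 : (fun p : ℝ × ℝ => (p.2, ν - p.1 - p.2)) =
      (Prod.map (id : ℝ → ℝ) (fun x : ℝ => ν - x)) ∘ (fun z : ℝ × ℝ => (z.1, z.1 + z.2)) ∘
        (Prod.swap : ℝ × ℝ → ℝ × ℝ) := by
    funext p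
    simp [Function.comp]
    ring
  rw [h6]
  exact h5

/-- the change of variables as a homeomorphism -/
def chg_homeo (ν : ℝ) : (ℝ × ℝ) ≃ₜ (ℝ × ℝ) where
  toFun p := (p.2, ν - p.1 - p.2)
  invFun p := (ν - p.1 - p.2, p.1)
  left_inv p := by
    ext
    · simp
    · simp
  right_inv p := by
    ext
    · simp
    · simp
      ring
  continuous_toFun := by fun_prop
  continuous_invFun := by fun_prop

theorem chg (F : ℝ × ℝ → ℝ) (ν : ℝ) :
    ∫ p : ℝ × ℝ, F (p.2, ν - p.1 - p.2) = ∫ p : ℝ × ℝ, F p :=
  (chg_mp ν).integral_comp (chg_homeo ν).measurableEmbedding F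

end TH71
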