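import Pool.Agent.Helper933.TR.Defs
import Pool.Agent.Helper933.TR.P_E_nonneg
import Pool.Agent.Helper933.TR.P_chg
import Pool.Agent.Helper933.TR.P_E_int
import Pool.Agent.Helper933.TR.P_scale

set_option autoImplicit false
set_option linter.unusedVariables false

open Matrix MeasureTheory

namespace TH71


theorem S_val_mp (ν : ℝ) : MeasurePreserving (fun p : ℝ × ℝ => (p.2, ν - p.1 - p.2)) volume volume := by
  have h1 : MeasurePreserving (Prod.swap : ℝ × ℝ → ℝ × ℝ) (volume.prod volume) (volume.prod volume) :=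
    Measure.measurePreserving_swap
  have h2 : MeasurePreserving (fun p : ℝ × ℝ => (id p.1, (fun a b : ℝ => ν - a - b) p.1 p.2))
      ((volume : Measure ℝ).prod (volume : Measure ℝ)) ((volume : Measure ℝ).prod (volume : Measure ℝ)) := by
    have hm : Measurable (Function.uncurry (fun a b : ℝ => ν - a - b)) :=
      (measurable_const.sub measurable_fst).sub measurable_snd
    have hmp : ∀ᵐ a : ℝ ∂volume, Measure.map ((fun a b : ℝ => ν - a - b) a) (volume : Measure ℝ) = volume :=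
      Filter.Eventually.of_forall fun a => (Measure.measurePreserving_sub_left volume (ν - a)).map_eq
    exact MeasurePreserving.skew_product (MeasurePreserving.id (volume : Measure ℝ)) hm hmp
  have h3 := h2.comp h1
  have e : ((fun p : ℝ × ℝ => (id p.1, (fun a b : ℝ => ν - a - b) p.1 p.2)) ∘ (Prod.swap : ℝ × ℝ → ℝ × ℝ)) =
      (fun p : ℝ × ℝ => (p.2, ν - p.1 - p.2)) := by
    funext p
    simp only [Function.comp, Prod.fst_swap, Prod.snd_swap, id]
    ext
    · rfl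
    · simp only; ring
  rw [e] at h3
  exact h3

theorem S_val_int (F : ℝ × ℝ → ℝ) (ν : ℝ) (hF : Integrable F) :
    Integrable (fun p : ℝ × ℝ => F (p.2, ν - p.1 - p.2)) :=
  ((S_val_mp ν).integrable_comp hF.aestronglyMeasurable).2 hF

theorem S_val (δ : ℝ) (n K : ℕ) (f g h : ℝ → ℝ → ℝ) (hf : tzT f) (hg : tzT g) (hh : tzT h)
    (ν : ℝ) :
    Integrable (tzS δ n K f g h ν) ∧ (∀ p, 0 ≤ tzS δ n K f g h ν p) ∧
    ∫ p : ℝ × ℝ, tzS δ n K f g h ν p = ∑ k ∈ Finset.Ico (-(K : ℤ)) (K : ℤ), (lam k) ^ 3 *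
      (tzE δ n (tzs (lam k) f) (tzs (lam k) g) ν + tzE δ n (tzs (lam k) g) (tzs (lam k) h) ν +
        tzE δ n (tzs (lam k) h) (tzs (lam k) f) ν) := by
  have hlam : ∀ k : ℤ, 0 < lam k := fun k => by unfold lam; positivity
  -- integrands
  let F : ℤ → (ℝ → ℝ → ℝ) → (ℝ → ℝ → ℝ) → ℝ × ℝ → ℝ := fun k u v p =>
    E (sg (Idx n)) (MP δ n (tzs (lam k) u) p.1 p.2) (MP δ n (tzs (lam k) v) p.2 (ν - p.1 - p.2))
  have hFi : ∀ k u v, tzT u → tzT v → Integrable (F k u v) := fun k u v hu hv =>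
    E_int δ n _ _ ((scale δ n (lam k) u 0 0).2.2 hu) ((scale δ n (lam k) v 0 0).2.2 hv) ν
  have hF0 : ∀ k u v p, 0 ≤ F k u v p := fun k u v p => E_nonneg _ _
  have hS : ∀ p, tzS δ n K f g h ν p = ∑ k ∈ Finset.Ico (-(K : ℤ)) (K : ℤ), (lam k) ^ 3 *
      (F k f g p + F k g h (p.2, ν - p.1 - p.2) + F k h f (ν - p.1 - p.2, p.1)) := by
    intro p
    unfold tzS
    refine Finset.sum_congr rfl fun k _ => ?_
    simp only [F, (scale δ n (lam k) _ _ _).2.1]
    have e1 : ν - p.2 - (ν - p.1 - p.2) = p.1 := by ring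
    have e2 : ν - (ν - p.1 - p.2) - p.1 = p.2 := by ring
    rw [e1, e2]
  have hi2 : ∀ k, Integrable (fun p : ℝ × ℝ => F k g h (p.2, ν - p.1 - p.2)) := fun k =>
    S_val_int _ ν (hFi k g h hg hh)
  have e3 : ∀ k (p : ℝ × ℝ), F k h f (ν - p.1 - p.2, p.1) =
      (fun q : ℝ × ℝ => F k h f (q.2, ν - q.1 - q.2)) (p.2, ν - p.1 - p.2) := by
    intro k p
    have e1 : ν - p.2 - (ν - p.1 - p.2) = p.1 := by ring
    simp only [e1]
  have hi3 : ∀ k, Integrable (fun p : ℝ × ℝ => F k h f (ν - p.1 - p.2, p.1)) := fun k => by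
    simp only [e3]
    exact S_val_int (fun q : ℝ × ℝ => F k h f (q.2, ν - q.1 - q.2)) ν (S_val_int _ ν (hFi k h f hh hf))
  have hi : ∀ k ∈ Finset.Ico (-(K : ℤ)) (K : ℤ), Integrable (fun p : ℝ × ℝ => (lam k) ^ 3 *
      (F k f g p + F k g h (p.2, ν - p.1 - p.2) + F k h f (ν - p.1 - p.2, p.1))) := fun k _ =>
    (((hFi k f g hf hg).add (hi2 k)).add (hi3 k)).const_mul _
  have hSf : tzS δ n K f g h ν = fun p => ∑ k ∈ Finset.Ico (-(K : ℤ)) (K : ℤ), (lam k) ^ 3 *
      (F k f g p + F k g h (p.2, ν - p.1 - p.2) + F k h f (ν - p.1 - p.2, p.1)) := funext hS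
  refine ⟨?_, ?_, ?_⟩
  · rw [hSf]
    exact integrable_finsetSum _ hi
  · intro p
    rw [hS]
    refine Finset.sum_nonneg fun k _ => ?_
    have := hlam k
    have a1 := hF0 k f g p
    have a2 := hF0 k g h (p.2, ν - p.1 - p.2)
    have a3 := hF0 k h f (ν - p.1 - p.2, p.1)
    positivity
  · rw [hSf, integral_finsetSum _ hi]
    refine Finset.sum_congr rfl fun k _ => ?_
    have hadd : Integrable (fun p : ℝ × ℝ => F k f g p + F k g h (p.2, ν - p.1 - p.2)) :=
      (hFi k f g hf hg).add (hi2 k)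
    rw [integral_const_mul, integral_add hadd (hi3 k),
      integral_add (hFi k f g hf hg) (hi2 k)]
    have b2 : ∫ p : ℝ × ℝ, F k g h (p.2, ν - p.1 - p.2) = ∫ p : ℝ × ℝ, F k g h p := chg _ ν
    have b3 : ∫ p : ℝ × ℝ, F k h f (ν - p.1 - p.2, p.1) = ∫ p : ℝ × ℝ, F k h f p := by
      simp only [e3]
      rw [chg (fun q : ℝ × ℝ => F k h f (q.2, ν - q.1 - q.2)) ν]
      exact chg _ ν
    rw [b2, b3]
    rfl

end TH71
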