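import Pool.Agent.Helper933.TR.Defs

set_option autoImplicit false
set_option linter.unusedVariables false

open Matrix MeasureTheory

namespace TH71


theorem fatou (F : ℝ × ℝ → ℝ) (S : ℕ → ℝ × ℝ → ℝ) (hF : Integrable F)
    (hS : ∀ K, Integrable (S K)) (h0 : ∀ K p, 0 ≤ S K p)
    (h : ∀ p, ∀ ε : ℝ, 0 < ε → ∃ K0 : ℕ, ∀ K : ℕ, K0 ≤ K → F p ≤ S K p + ε) (hF0 : ∀ p, 0 ≤ F p)
    (B : ℝ) (hB : ∀ K, ∫ p : ℝ × ℝ, S K p ≤ B) : ∫ p : ℝ × ℝ, F p ≤ B := by
  have hB0 : 0 ≤ B := (integral_nonneg (h0 0)).trans (hB 0)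
  rw [← ENNReal.ofReal_le_ofReal_iff hB0,
    ofReal_integral_eq_lintegral_ofReal hF (Filter.Eventually.of_forall hF0)]
  calc ∫⁻ p, ENNReal.ofReal (F p)
      ≤ ∫⁻ p, Filter.liminf (fun K : ℕ => ENNReal.ofReal (S K p)) Filter.atTop := by
        apply lintegral_mono
        intro p
        change ENNReal.ofReal (F p) ≤ Filter.liminf (fun K : ℕ => ENNReal.ofReal (S K p)) Filter.atTop
        apply le_of_forall_lt_imp_le_of_dense
        intro c hc
        have hctop : c ≠ ⊤ := ne_top_of_lt hc
        have hc1 : c.toReal < F p := by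
          rw [← ENNReal.ofReal_toReal hctop] at hc
          exact (ENNReal.ofReal_lt_ofReal_iff_of_nonneg ENNReal.toReal_nonneg).1 hc
        obtain ⟨K0, hK0⟩ := h p (F p - c.toReal) (by linarith)
        apply Filter.le_liminf_of_le
        · isBoundedDefault
        · filter_upwards [Filter.eventually_ge_atTop K0] with K hK
          have h1 := hK0 K hK
          rw [← ENNReal.ofReal_toReal hctop]
          apply ENNReal.ofReal_le_ofReal
          linarith
    _ ≤ Filter.liminf (fun K : ℕ => ∫⁻ p, ENNReal.ofReal (S K p)) Filter.atTop :=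
        lintegral_liminf_le' fun K => (hS K).1.aemeasurable.ennreal_ofReal
    _ ≤ ENNReal.ofReal B := by
        apply Filter.liminf_le_of_frequently_le'
        apply Filter.Eventually.frequently
        filter_upwards with K
        rw [← ofReal_integral_eq_lintegral_ofReal (hS K) (Filter.Eventually.of_forall (h0 K))]
        exact ENNReal.ofReal_le_ofReal (hB K)

end TH71
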