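import Pool.Agent.Helper933.TR.Defs

set_option autoImplicit false
set_option linter.unusedVariables false

open Matrix MeasureTheory

namespace TH71


theorem Psi_cont {κ : Type*} [Fintype κ] [DecidableEq κ] :
    Continuous (fun A : Matrix κ κ ℝ => Psi A) ∧ Psi (0 : Matrix κ κ ℝ) = 0 := by
  have hpos : ∀ A : Matrix κ κ ℝ, (1 + Aᵀ * A).det ≠ 0 := by
    intro A
    have h1 : (1 + Aᵀ * A).PosDef := by
      rw [← Matrix.conjTranspose_eq_transpose_of_trivial]
      exact Matrix.PosDef.one.add_posSemidef (Matrix.posSemidef_conjTranspose_mul_self A)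
    exact h1.det_pos.ne'
  constructor
  · unfold Psi ld
    have h1 : Continuous (fun A : Matrix κ κ ℝ => Aᵀ * A) :=
      (continuous_id.matrix_transpose).matrix_mul continuous_id
    exact (h1.matrix_trace).sub (((continuous_const.add h1).matrix_det).log hpos)
  · unfold Psi ld
    simp

end TH71
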