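import Pool.Agent.Helper933.TR.Defs
import Pool.Agent.Helper933.TR.P_Psi_cont
import Pool.Agent.Helper933.TR.P_int_of
import Pool.Agent.Helper933.TR.P_MR_cont
import Pool.Agent.Helper933.TR.P_MR_supp

set_option autoImplicit false
set_option linter.unusedVariables false

open Matrix MeasureTheory

namespace TH71


theorem Psi_int (δ : ℝ) (n : ℕ) (f : ℝ → ℝ → ℝ) (hf : tzT f) (a b : ℝ) :
    Integrable (fun p : ℝ × ℝ => Psi (MR δ n f (p.1 + a) (p.2 + b))) ∧
    Integrable (fun p : ℝ × ℝ => Psi (MP δ n f p.1 p.2)) := by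
  obtain ⟨hMR, hMP⟩ := MR_cont δ n f hf
  obtain ⟨R, hR0, hR⟩ := MR_supp δ n f hf
  constructor
  · refine int_of _ ?_ (R + |a| + |b|) ?_
    · have h1 : Continuous (fun p : ℝ × ℝ => ((p.1 + a, p.2 + b) : ℝ × ℝ)) := by fun_prop
      have h2 : Continuous (fun p : ℝ × ℝ => MR δ n f (p.1 + a) (p.2 + b)) := hMR.comp h1
      exact (Psi_cont (κ := Idx n)).1.comp h2
    · intro p hp
      have h3 : MR δ n f (p.1 + a) (p.2 + b) = 0 := by
        refine (hR (p.1 + a) (p.2 + b) ?_).1
        rcases hp with hp | hp
        · left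
          have h4 : |p.1| ≤ |p.1 + a| + |a| := by
            have := abs_sub (p.1 + a) a
            simpa using this
          have := abs_nonneg b
          linarith
        · right
          have h4 : |p.2| ≤ |p.2 + b| + |b| := by
            have := abs_sub (p.2 + b) b
            simpa using this
          have := abs_nonneg a
          linarith
      show Psi (MR δ n f (p.1 + a) (p.2 + b)) = 0
      rw [h3]
      exact (Psi_cont (κ := Idx n)).2
  · refine int_of _ ?_ R ?_
    · exact (Psi_cont (κ := Bool × Idx n)).1.comp hMP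
    · intro p hp
      have h3 : MP δ n f p.1 p.2 = 0 := (hR p.1 p.2 hp).2
      show Psi (MP δ n f p.1 p.2) = 0
      rw [h3]
      exact (Psi_cont (κ := Bool × Idx n)).2

end TH71
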