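import Pool.Agent.Helper933.TR.Defs
import Pool.Agent.Helper933.TR.P_Psi_int

set_option autoImplicit false
set_option linter.unusedVariables false

open Matrix MeasureTheory

namespace TH71


theorem def_int (δ : ℝ) (n : ℕ) (f : ℝ → ℝ → ℝ) (hf : tzT f) :
    Integrable (fun p : ℝ × ℝ => (1/4) * (∑ a : Bool, ∑ b : Bool,
      Psi (MR δ n f (p.1 + tzu a * (2 ^ n * δ)) (p.2 + tzu b * (2 ^ n * δ)))) -
      Psi (MP δ n f p.1 p.2)) ∧
    ∫ p : ℝ × ℝ, ((1/4) * (∑ a : Bool, ∑ b : Bool,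
      Psi (MR δ n f (p.1 + tzu a * (2 ^ n * δ)) (p.2 + tzu b * (2 ^ n * δ)))) -
      Psi (MP δ n f p.1 p.2)) = tzPsi δ n f - tzPsi δ (n + 1) f := by
  have hI : ∀ a b : Bool, Integrable (fun p : ℝ × ℝ =>
      Psi (MR δ n f (p.1 + tzu a * (2 ^ n * δ)) (p.2 + tzu b * (2 ^ n * δ)))) := fun a b =>
    (Psi_int δ n f hf (tzu a * (2 ^ n * δ)) (tzu b * (2 ^ n * δ))).1
  have hP : Integrable (fun p : ℝ × ℝ => Psi (MP δ n f p.1 p.2)) := (Psi_int δ n f hf 0 0).2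
  have hS : Integrable (fun p : ℝ × ℝ => ∑ a : Bool, ∑ b : Bool,
      Psi (MR δ n f (p.1 + tzu a * (2 ^ n * δ)) (p.2 + tzu b * (2 ^ n * δ)))) :=
    integrable_finsetSum _ (fun a _ => integrable_finsetSum _ (fun b _ => hI a b))
  have hS4 : Integrable (fun p : ℝ × ℝ => (1/4) * (∑ a : Bool, ∑ b : Bool,
      Psi (MR δ n f (p.1 + tzu a * (2 ^ n * δ)) (p.2 + tzu b * (2 ^ n * δ))))) :=
    hS.const_mul _
  refine ⟨hS4.sub hP, ?_⟩
  have hE : ∀ a b : Bool, ∫ p : ℝ × ℝ,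
      Psi (MR δ n f (p.1 + tzu a * (2 ^ n * δ)) (p.2 + tzu b * (2 ^ n * δ))) = tzPsi δ n f := by
    intro a b
    exact integral_add_right_eq_self (fun p : ℝ × ℝ => Psi (MR δ n f p.1 p.2))
      ((tzu a * (2 ^ n * δ), tzu b * (2 ^ n * δ)) : ℝ × ℝ)
  have hN : tzPsi δ (n + 1) f = ∫ p : ℝ × ℝ, Psi (MP δ n f p.1 p.2) := rfl
  rw [integral_sub hS4 hP, hN, integral_const_mul,
    integral_finsetSum _ (fun a _ => integrable_finsetSum _ (fun b _ => hI a b))]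
  have h1 : ∀ a : Bool, ∫ p : ℝ × ℝ, ∑ b : Bool,
      Psi (MR δ n f (p.1 + tzu a * (2 ^ n * δ)) (p.2 + tzu b * (2 ^ n * δ))) =
      2 * tzPsi δ n f := by
    intro a
    rw [integral_finsetSum _ (fun b _ => hI a b)]
    simp only [hE]
    simp
  simp only [h1]
  simp
  ring

end TH71
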