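import Pool.Agent.Helper933.TR.Defs
import Pool.Agent.Helper933.TR.P_PL8
import Pool.Agent.Helper933.TR.P_chg
import Pool.Agent.Helper933.TR.P_H_int
import Pool.Agent.Helper933.TR.P_E_int
import Pool.Agent.Helper933.TR.P_H_shift
import Pool.Agent.Helper933.TR.P_def_int

set_option autoImplicit false
set_option linter.unusedVariables false

open Matrix MeasureTheory

namespace TH71


theorem int_pair (δ : ℝ) (n : ℕ) (f g : ℝ → ℝ → ℝ) (hf : tzT f) (hg : tzT g) (ν : ℝ) :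
    tzH δ (n + 1) f g ν + (1/2) * tzE δ n f g ν ≤
      (1/8) * (tzH δ n f g ν + 3 * tzH δ n f g (ν + 2 ^ n * δ) +
        3 * tzH δ n f g (ν + 2 * (2 ^ n * δ)) + tzH δ n f g (ν + 3 * (2 ^ n * δ))) +
      100 * (tzPsi δ n f - tzPsi δ (n + 1) f) + 100 * (tzPsi δ n g - tzPsi δ (n + 1) g) := by
  obtain ⟨hDf1, hDf2⟩ := def_int δ n f hf
  obtain ⟨hDg1, hDg2⟩ := def_int δ n g hg
  have hT : MeasurePreserving (fun p : ℝ × ℝ => (p.2, ν - p.1 - p.2)) volume volume := by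
    have h1 : MeasurePreserving (fun z : ℝ × ℝ => (z.2, z.2 + z.1))
        ((volume : Measure ℝ).prod volume) ((volume : Measure ℝ).prod volume) :=
      measurePreserving_prod_add_swap volume volume
    have h2 : MeasurePreserving (Prod.map id (fun t : ℝ => ν - t))
        ((volume : Measure ℝ).prod volume) ((volume : Measure ℝ).prod volume) :=
      (MeasurePreserving.id _).prod (Measure.measurePreserving_sub_left volume ν)
    have h3 := h2.comp h1
    rw [← Measure.volume_eq_prod] at h3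
    have e : (Prod.map id (fun t : ℝ => ν - t)) ∘ (fun z : ℝ × ℝ => (z.2, z.2 + z.1)) =
        fun p : ℝ × ℝ => (p.2, ν - p.1 - p.2) := by
      funext p
      simp only [Function.comp, Prod.map, id]
      congr 1
      ring
    rw [e] at h3
    exact h3
  obtain ⟨Dg, hDg⟩ : ∃ Dg : ℝ × ℝ → ℝ, Dg = fun q : ℝ × ℝ => (1/4) * (∑ a : Bool, ∑ b : Bool,
      Psi (MR δ n g (q.1 + tzu a * (2 ^ n * δ)) (q.2 + tzu b * (2 ^ n * δ)))) -
      Psi (MP δ n g q.1 q.2) := ⟨_, rfl⟩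
  rw [← hDg] at hDg1 hDg2
  have hDg3 : Integrable (fun p : ℝ × ℝ => Dg (p.2, ν - p.1 - p.2)) :=
    (hT.integrable_comp hDg1.aestronglyMeasurable).2 hDg1
  have hDg4 : ∫ p : ℝ × ℝ, Dg (p.2, ν - p.1 - p.2) = tzPsi δ n g - tzPsi δ (n + 1) g :=
    (chg Dg ν).trans hDg2
  have hH1 : Integrable (fun p : ℝ × ℝ =>
      (P (MP δ n f p.1 p.2) * P (MP δ n g p.2 (ν - p.1 - p.2))ᵀ).trace) := by
    have h := H_int δ (n + 1) f g hf hg ν 0 0 0 0
    simp only [add_zero] at h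
    exact h
  have hH2 : ∫ p : ℝ × ℝ, (P (MP δ n f p.1 p.2) * P (MP δ n g p.2 (ν - p.1 - p.2))ᵀ).trace
      = tzH δ (n + 1) f g ν := rfl
  have hE := E_int δ n f g hf hg ν
  have h8 : ∀ a b c : Bool, Integrable (fun p : ℝ × ℝ =>
      (P (MR δ n f (p.1 + tzu a * (2 ^ n * δ)) (p.2 + tzu b * (2 ^ n * δ))) *
      P (MR δ n g (p.2 + tzu b * (2 ^ n * δ)) (ν - p.1 - p.2 + tzu c * (2 ^ n * δ)))ᵀ).trace) :=
    fun a b c => H_int δ n f g hf hg ν _ _ _ _
  have h8' : ∀ a b c : Bool, ∫ p : ℝ × ℝ,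
      (P (MR δ n f (p.1 + tzu a * (2 ^ n * δ)) (p.2 + tzu b * (2 ^ n * δ))) *
      P (MR δ n g (p.2 + tzu b * (2 ^ n * δ)) (ν - p.1 - p.2 + tzu c * (2 ^ n * δ)))ᵀ).trace
      = tzH δ n f g (ν + tzu a * (2 ^ n * δ) + tzu b * (2 ^ n * δ) + tzu c * (2 ^ n * δ)) :=
    fun a b c => H_shift δ n f g ν _ _ _
  have key : ∀ p : ℝ × ℝ,
      (P (MP δ n f p.1 p.2) * P (MP δ n g p.2 (ν - p.1 - p.2))ᵀ).trace +
        (1/2) * E (sg (Idx n)) (MP δ n f p.1 p.2) (MP δ n g p.2 (ν - p.1 - p.2)) ≤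
      (1/8) * (∑ a : Bool, ∑ b : Bool, ∑ c : Bool,
        (P (MR δ n f (p.1 + tzu a * (2 ^ n * δ)) (p.2 + tzu b * (2 ^ n * δ))) *
        P (MR δ n g (p.2 + tzu b * (2 ^ n * δ)) (ν - p.1 - p.2 + tzu c * (2 ^ n * δ)))ᵀ).trace) +
      100 * ((1/4) * (∑ a : Bool, ∑ b : Bool,
        Psi (MR δ n f (p.1 + tzu a * (2 ^ n * δ)) (p.2 + tzu b * (2 ^ n * δ)))) -
        Psi (MP δ n f p.1 p.2)) +
      100 * Dg (p.2, ν - p.1 - p.2) := by
    intro p
    have h := PL8 (fun a b => MR δ n f (p.1 + tzu a * (2 ^ n * δ)) (p.2 + tzu b * (2 ^ n * δ)))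
      (fun b c => MR δ n g (p.2 + tzu b * (2 ^ n * δ)) (ν - p.1 - p.2 + tzu c * (2 ^ n * δ)))
    rw [hDg]
    exact h
  have hS : Integrable (fun p : ℝ × ℝ => (1/8) * (∑ a : Bool, ∑ b : Bool, ∑ c : Bool,
        (P (MR δ n f (p.1 + tzu a * (2 ^ n * δ)) (p.2 + tzu b * (2 ^ n * δ))) *
        P (MR δ n g (p.2 + tzu b * (2 ^ n * δ)) (ν - p.1 - p.2 + tzu c * (2 ^ n * δ)))ᵀ).trace)) := by
    refine Integrable.const_mul ?_ _
    refine integrable_finsetSum _ fun a _ => integrable_finsetSum _ fun b _ =>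
      integrable_finsetSum _ fun c _ => h8 a b c
  have hLint := hH1.add (hE.const_mul (1/2))
  have hRint := (hS.add (hDf1.const_mul 100)).add (hDg3.const_mul 100)
  have hmono := integral_mono hLint hRint key
  simp only [Pi.add_apply] at hmono
  have gen : ∀ A B C : ℝ × ℝ → ℝ, Integrable A → Integrable B → Integrable C →
      ∫ p, (A p + B p + C p) = (∫ p, A p) + (∫ p, B p) + (∫ p, C p) := by
    intro A B C hA hB hC
    have hAB : Integrable (fun p => A p + B p) := hA.add hB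
    rw [integral_add hAB hC, integral_add hA hB]
  rw [integral_add hH1 (hE.const_mul (1/2)), integral_const_mul, hH2,
    gen _ _ _ hS (hDf1.const_mul 100) (hDg3.const_mul 100), integral_const_mul, integral_const_mul,
    integral_const_mul, hDg4, hDf2] at hmono
  have hmid : ∫ p : ℝ × ℝ, (∑ a : Bool, ∑ b : Bool, ∑ c : Bool,
        (P (MR δ n f (p.1 + tzu a * (2 ^ n * δ)) (p.2 + tzu b * (2 ^ n * δ))) *
        P (MR δ n g (p.2 + tzu b * (2 ^ n * δ)) (ν - p.1 - p.2 + tzu c * (2 ^ n * δ)))ᵀ).trace) =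
      (∑ a : Bool, ∑ b : Bool, ∑ c : Bool, tzH δ n f g
        (ν + tzu a * (2 ^ n * δ) + tzu b * (2 ^ n * δ) + tzu c * (2 ^ n * δ))) := by
    rw [integral_finsetSum _ (fun a _ => integrable_finsetSum _ fun b _ =>
      integrable_finsetSum _ fun c _ => h8 a b c)]
    refine Finset.sum_congr rfl fun a _ => ?_
    rw [integral_finsetSum _ (fun b _ => integrable_finsetSum _ fun c _ => h8 a b c)]
    refine Finset.sum_congr rfl fun b _ => ?_
    rw [integral_finsetSum _ (fun c _ => h8 a b c)]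
    exact Finset.sum_congr rfl fun c _ => h8' a b c
  have hfin : (∑ a : Bool, ∑ b : Bool, ∑ c : Bool, tzH δ n f g
        (ν + tzu a * (2 ^ n * δ) + tzu b * (2 ^ n * δ) + tzu c * (2 ^ n * δ))) =
      tzH δ n f g ν + 3 * tzH δ n f g (ν + 2 ^ n * δ) +
        3 * tzH δ n f g (ν + 2 * (2 ^ n * δ)) + tzH δ n f g (ν + 3 * (2 ^ n * δ)) := by
    simp only [Fintype.sum_bool, tzu, if_true, Bool.false_eq_true, if_false, one_mul, zero_mul, add_zero]
    have e2 : ν + 2 ^ n * δ + 2 ^ n * δ = ν + 2 * (2 ^ n * δ) := by ring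
    have e3 : ν + 2 * (2 ^ n * δ) + 2 ^ n * δ = ν + 3 * (2 ^ n * δ) := by ring
    rw [e2, e3]
    ring
  have h9 : tzE δ n f g ν = ∫ p : ℝ × ℝ,
      E (sg (Idx n)) (MP δ n f p.1 p.2) (MP δ n g p.2 (ν - p.1 - p.2)) := rfl
  rw [← h9, hmid, hfin] at hmono
  exact hmono

end TH71
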