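import Pool.Agent.Helper933.TR.Defs
import Pool.Agent.Helper933.TR.P_int_of
import Pool.Agent.Helper933.TR.P_MR_cont
import Pool.Agent.Helper933.TR.P_MR_supp

set_option autoImplicit false
set_option linter.unusedVariables false

open Matrix MeasureTheory

namespace TH71


theorem LDi_psd {n : Type*} [Fintype n] [DecidableEq n] (A : Matrix n n ℝ) : (Aᵀ * A).PosSemidef := by
  have h := Matrix.posSemidef_conjTranspose_mul_self A
  rwa [Matrix.conjTranspose_eq_transpose_of_trivial] at h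

theorem LDi_det {n : Type*} [Fintype n] [DecidableEq n] (X : Matrix n n ℝ) (hX : X.PosSemidef) :
    0 < (1 + X).det := by
  have h : (1 + X).PosDef := Matrix.PosDef.one.add_posSemidef hX
  exact h.det_pos

theorem LDi_ld {T n : Type*} [TopologicalSpace T] [Fintype n] [DecidableEq n] (X : T → Matrix n n ℝ)
    (hX : Continuous X) (hp : ∀ t, (X t).PosSemidef) : Continuous (fun t => ld (X t)) := by
  unfold ld
  apply Continuous.log
  · exact (continuous_const.add hX).matrix_det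
  · intro t
    exact (LDi_det (X t) (hp t)).ne'

theorem LDi_cont {T n : Type*} [TopologicalSpace T] [Fintype n] [DecidableEq n] (A B : T → Matrix n n ℝ)
    (hA : Continuous A) (hB : Continuous B) :
    Continuous (fun t => LD ((A t)ᵀ * A t) ((B t)ᵀ * B t)) := by
  have h1 : Continuous (fun t => (A t)ᵀ * A t) := hA.matrix_transpose.matrix_mul hA
  have h2 : Continuous (fun t => (B t)ᵀ * B t) := hB.matrix_transpose.matrix_mul hB
  unfold LD
  refine ((LDi_ld (fun t => (1/2 : ℝ) • ((A t)ᵀ * A t + (B t)ᵀ * B t)) ?_ ?_).sub (continuous_const.mul (LDi_ld _ h1 fun t => LDi_psd _))).sub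
    (continuous_const.mul (LDi_ld _ h2 fun t => LDi_psd _))
  · exact (h1.add h2).const_smul (1/2 : ℝ)
  · intro t
    exact ((LDi_psd (A t)).add (LDi_psd (B t))).smul (by norm_num)

theorem LDi_zero {n : Type*} [Fintype n] [DecidableEq n] : LD (0 : Matrix n n ℝ) 0 = 0 := by
  simp [LD, ld]

theorem LD_int (δ : ℝ) (n : ℕ) (f : ℝ → ℝ → ℝ) (hf : tzT f) (a b : ℝ) :
    Integrable (fun p : ℝ × ℝ => LD ((MR δ n f p.1 p.2)ᵀ * MR δ n f p.1 p.2)
      ((MR δ n f (p.1 + a) (p.2 + b))ᵀ * MR δ n f (p.1 + a) (p.2 + b))) ∧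
    Integrable (fun p : ℝ × ℝ => LD (MR δ n f p.1 p.2 * (MR δ n f p.1 p.2)ᵀ)
      (MR δ n f (p.1 + a) (p.2 + b) * (MR δ n f (p.1 + a) (p.2 + b))ᵀ)) := by
  have hc1 : Continuous (fun p : ℝ × ℝ => MR δ n f p.1 p.2) := (MR_cont δ n f hf).1
  have hc2 : Continuous (fun p : ℝ × ℝ => MR δ n f (p.1 + a) (p.2 + b)) := by
    have h : Continuous (fun p : ℝ × ℝ => ((p.1 + a, p.2 + b) : ℝ × ℝ)) := by fun_prop
    exact hc1.comp h
  obtain ⟨R, hR, hsupp⟩ := MR_supp δ n f hf
  have hz : ∀ p : ℝ × ℝ, (R + |a| + |b| < |p.1| ∨ R + |a| + |b| < |p.2|) →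
      MR δ n f p.1 p.2 = 0 ∧ MR δ n f (p.1 + a) (p.2 + b) = 0 := by
    intro p hp
    have ha := abs_nonneg a
    have hb := abs_nonneg b
    rcases hp with hp | hp
    · have h2 : |p.1| - |a| ≤ |p.1 + a| := by
        have := abs_sub_abs_le_abs_sub p.1 (-a)
        rwa [abs_neg, sub_neg_eq_add] at this
      exact ⟨(hsupp _ _ (Or.inl (by linarith))).1, (hsupp _ _ (Or.inl (by linarith))).1⟩
    · have h2 : |p.2| - |b| ≤ |p.2 + b| := by
        have := abs_sub_abs_le_abs_sub p.2 (-b)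
        rwa [abs_neg, sub_neg_eq_add] at this
      exact ⟨(hsupp _ _ (Or.inr (by linarith))).1, (hsupp _ _ (Or.inr (by linarith))).1⟩
  constructor
  · apply int_of _ (LDi_cont _ _ hc1 hc2) (R + |a| + |b|)
    intro p hp
    obtain ⟨h1, h2⟩ := hz p hp
    simp only [h1, h2, Matrix.mul_zero]
    exact LDi_zero
  · have h3 := LDi_cont _ _ hc1.matrix_transpose hc2.matrix_transpose
    simp only [Matrix.transpose_transpose] at h3
    apply int_of _ h3 (R + |a| + |b|)
    intro p hp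
    obtain ⟨h1, h2⟩ := hz p hp
    simp only [h1, h2, Matrix.zero_mul]
    exact LDi_zero

end TH71
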