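import Pool.Agent.Helper933.TR.Defs
import Pool.Agent.Helper933.TR.P_LD_nonneg
import Pool.Agent.Helper933.TR.P_pairdiff
import Pool.Agent.Helper933.TR.P_dfA
import Pool.Agent.Helper933.TR.P_dfB
import Pool.Agent.Helper933.TR.P_chg
import Pool.Agent.Helper933.TR.P_H_int
import Pool.Agent.Helper933.TR.P_LD_int
import Pool.Agent.Helper933.TR.P_H_shift
import Pool.Agent.Helper933.TR.P_def_int

set_option autoImplicit false
set_option linter.unusedVariables false

open Matrix MeasureTheory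

namespace TH71


theorem sec_diff_abs (F0 F1 F2 F3 L1 L2 : ℝ × ℝ → ℝ) (i0 : Integrable F0) (i1 : Integrable F1)
    (i2 : Integrable F2) (i3 : Integrable F3) (j1 : Integrable L1) (j2 : Integrable L2)
    (hb : ∀ p, |F0 p - F1 p - F2 p + F3 p| ≤ 4 * L1 p + 4 * L2 p) :
    |(∫ p, F0 p) - (∫ p, F1 p) - (∫ p, F2 p) + (∫ p, F3 p)| ≤
      4 * (∫ p, L1 p) + 4 * (∫ p, L2 p) := by
  have e1 : (∫ p, F0 p) - (∫ p, F1 p) - (∫ p, F2 p) + (∫ p, F3 p) =
      ∫ p, (F0 p - F1 p - F2 p + F3 p) := by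
    have a1 : ∫ p, (F0 p - F1 p - F2 p + F3 p) = (∫ p, (F0 p - F1 p - F2 p)) + ∫ p, F3 p :=
      integral_add ((i0.sub i1).sub i2) i3
    have a2 : ∫ p, (F0 p - F1 p - F2 p) = (∫ p, (F0 p - F1 p)) - ∫ p, F2 p :=
      integral_sub (i0.sub i1) i2
    have a3 : ∫ p, (F0 p - F1 p) = (∫ p, F0 p) - ∫ p, F1 p := integral_sub i0 i1
    rw [a1, a2, a3]
  have e2 : 4 * (∫ p, L1 p) + 4 * (∫ p, L2 p) = ∫ p, (4 * L1 p + 4 * L2 p) := by
    rw [integral_add (j1.const_mul 4) (j2.const_mul 4), integral_const_mul, integral_const_mul]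
  rw [e1, e2]
  refine (abs_integral_le_integral_abs).trans ?_
  exact integral_mono ((((i0.sub i1).sub i2).add i3).abs) ((j1.const_mul 4).add (j2.const_mul 4)) hb

theorem sec_diff_mp (ν : ℝ) : MeasurePreserving (fun p : ℝ × ℝ => (p.2, ν - p.1 - p.2))
    (volume : Measure (ℝ × ℝ)) volume := by
  have h1 : MeasurePreserving (fun p : ℝ × ℝ => (p.1, ν - p.2 - p.1))
      ((volume : Measure ℝ).prod volume) ((volume : Measure ℝ).prod volume) := by
    refine MeasurePreserving.skew_product (f := fun x : ℝ => x) (g := fun x y : ℝ => ν - y - x)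
      (MeasurePreserving.id _) ?_ ?_
    · fun_prop
    · refine Filter.Eventually.of_forall fun x => ?_
      have h2 : (fun y : ℝ => ν - y - x) = fun y : ℝ => (ν - x) - y := by
        funext y; ring
      rw [h2]
      exact (Measure.measurePreserving_sub_left (volume : Measure ℝ) (ν - x)).map_eq
  have h3 : MeasurePreserving (Prod.swap : ℝ × ℝ → ℝ × ℝ) ((volume : Measure ℝ).prod volume)
      ((volume : Measure ℝ).prod volume) := Measure.measurePreserving_swap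
  have h4 := h1.comp h3
  exact h4

theorem sec_diff_half (L D : ℝ × ℝ → ℝ) (R : ℝ) (hL : Integrable L) (hD : Integrable D)
    (hDR : ∫ p, D p = R) (hb : ∀ p, (1/2) * L p ≤ D p) : 4 * (∫ p, L p) ≤ 8 * R := by
  have h := integral_mono (hL.const_mul (1/2)) hD hb
  rw [integral_const_mul, hDR] at h
  linarith

theorem sec_diff (δ : ℝ) (n : ℕ) (f g : ℝ → ℝ → ℝ) (hf : tzT f) (hg : tzT g) (ν : ℝ) :
    |tzH δ n f g ν - 2 * tzH δ n f g (ν + 2 ^ n * δ) + tzH δ n f g (ν + 2 * (2 ^ n * δ))| ≤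
      8 * (tzPsi δ n f - tzPsi δ (n + 1) f) + 8 * (tzPsi δ n g - tzPsi δ (n + 1) g) := by
  obtain ⟨u, hu⟩ : ∃ u : ℝ, u = 2 ^ n * δ := ⟨_, rfl⟩
  have hz0 : tzu false = 0 := rfl
  have hz1 : tzu true = 1 := rfl
  -- the integrals of the four traces
  have s00 := H_shift δ n f g ν 0 0 0
  have s01 := H_shift δ n f g ν 0 0 u
  have s10 := H_shift δ n f g ν u 0 0
  have s11 := H_shift δ n f g ν u 0 u
  have i00 := H_int δ n f g hf hg ν 0 0 0 0
  have i01 := H_int δ n f g hf hg ν 0 0 0 u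
  have i10 := H_int δ n f g hf hg ν u 0 0 0
  have i11 := H_int δ n f g hf hg ν u 0 0 u
  have jA := (LD_int δ n f hf u 0).1
  have jB := (LD_int δ n g hg 0 u).2
  have jB' := ((sec_diff_mp ν).integrable_comp jB.aestronglyMeasurable).2 jB
  have cB := chg (fun p : ℝ × ℝ => LD (MR δ n g p.1 p.2 * (MR δ n g p.1 p.2)ᵀ)
      (MR δ n g (p.1 + 0) (p.2 + u) * (MR δ n g (p.1 + 0) (p.2 + u))ᵀ)) ν
  have main := sec_diff_abs _ _ _ _ _ _ i00 i01 i10 i11 jA jB' (fun p => by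
    have := pairdiff (MR δ n f (p.1 + 0) (p.2 + 0)) (MR δ n f (p.1 + u) (p.2 + 0))
      (MR δ n g (p.2 + 0) (ν - p.1 - p.2 + 0)) (MR δ n g (p.2 + 0) (ν - p.1 - p.2 + u))
    simp only [Function.comp, add_zero] at this ⊢
    exact this)
  rw [s00, s01, s10, s11] at main
  have dA := sec_diff_half _ _ _ jA (def_int δ n f hf).1 (def_int δ n f hf).2 (fun p => by
    have := dfA (fun a b => MR δ n f (p.1 + tzu a * (2 ^ n * δ)) (p.2 + tzu b * (2 ^ n * δ)))
    have hMP : MP δ n f p.1 p.2 = par (fun a b =>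
      MR δ n f (p.1 + tzu a * (2 ^ n * δ)) (p.2 + tzu b * (2 ^ n * δ))) := rfl
    rw [hMP]
    simp only [hz0, hz1, zero_mul, one_mul, add_zero, ← hu] at this ⊢
    exact this)
  have dB := sec_diff_half _ _ _ jB (def_int δ n g hg).1 (def_int δ n g hg).2 (fun p => by
    have := dfB (fun a b => MR δ n g (p.1 + tzu a * (2 ^ n * δ)) (p.2 + tzu b * (2 ^ n * δ)))
    have hMP : MP δ n g p.1 p.2 = par (fun a b =>
      MR δ n g (p.1 + tzu a * (2 ^ n * δ)) (p.2 + tzu b * (2 ^ n * δ))) := rfl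
    rw [hMP]
    simp only [hz0, hz1, zero_mul, one_mul, add_zero, ← hu] at this ⊢
    exact this)
  have e1 : tzH δ n f g ν - 2 * tzH δ n f g (ν + 2 ^ n * δ) + tzH δ n f g (ν + 2 * (2 ^ n * δ)) =
      tzH δ n f g (ν + 0 + 0 + 0) - tzH δ n f g (ν + 0 + 0 + u) - tzH δ n f g (ν + u + 0 + 0) +
        tzH δ n f g (ν + u + 0 + u) := by
    rw [← hu, show ν + 0 + 0 + 0 = ν by ring, show ν + 0 + 0 + u = ν + u by ring,
      show ν + u + 0 + 0 = ν + u by ring, show ν + u + 0 + u = ν + 2 * u by ring]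
    ring
  rw [e1]
  refine main.trans (add_le_add dA ?_)
  refine le_trans (le_of_eq ?_) dB
  congr 1

end TH71
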