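import Pool.Agent.Helper933.TR.Defs
import Pool.Agent.Helper933.TR.P_P_bounds

set_option autoImplicit false
set_option linter.unusedVariables false

open Matrix MeasureTheory

namespace TH71


open scoped MatrixOrder ComplexOrder in
theorem trPP_psd_fac {n : Type*} [Fintype n] [DecidableEq n] (M : Matrix n n ℝ)
    (hM : M.PosSemidef) : ∃ B : Matrix n n ℝ, M = Bᴴ * B := by
  obtain ⟨B, hB⟩ := CStarAlgebra.nonneg_iff_eq_star_mul_self.mp hM.nonneg
  exact ⟨B, hB⟩

theorem trPP_nonneg {κ : Type*} [Fintype κ] [DecidableEq κ] (A B : Matrix κ κ ℝ) :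
    0 ≤ (P A * P B).trace := by
  have hA := (P_bounds A).1
  have hB := (P_bounds B).1
  obtain ⟨C, hC⟩ := trPP_psd_fac (P A) hA
  rw [hC, Matrix.mul_assoc, Matrix.trace_mul_comm]
  exact (hB.mul_mul_conjTranspose_same C).trace_nonneg

end TH71
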