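import Pool.Agent.Helper933.TR.Defs
import Pool.Agent.Helper933.TR.P_Psi_nonneg
import Pool.Agent.Helper933.TR.P_E_nonneg
import Pool.Agent.Helper933.TR.P_trPP_nonneg

set_option autoImplicit false
set_option linter.unusedVariables false

open Matrix MeasureTheory

namespace TH71


theorem tz_nonneg (δ : ℝ) (n : ℕ) (f g : ℝ → ℝ → ℝ) (ν : ℝ) :
    0 ≤ tzE δ n f g ν ∧ 0 ≤ tzH δ n f g ν ∧ 0 ≤ tzPsi δ n f := by
  refine ⟨integral_nonneg fun p => E_nonneg _ _, integral_nonneg fun p => ?_,
    integral_nonneg fun p => Psi_nonneg _⟩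
  have hsym : (P (MR δ n g p.2 (ν - p.1 - p.2)))ᵀ = P (MR δ n g p.2 (ν - p.1 - p.2)) := by
    unfold P
    rw [Matrix.transpose_sub, Matrix.transpose_one, Matrix.transpose_nonsing_inv,
      Matrix.transpose_add, Matrix.transpose_one, Matrix.transpose_mul, Matrix.transpose_transpose]
  first
    | exact trPP_nonneg _ _
    | (show 0 ≤ _; simp only [hsym]; exact trPP_nonneg _ _)

end TH71
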