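import Pool.Agent.Helper933.TR.Defs
import Pool.Agent.Helper933.TR.P_int_pair
import Pool.Agent.Helper933.TR.P_sec_diff
import Pool.Agent.Helper933.TR.P_tz_nonneg

set_option autoImplicit false
set_option linter.unusedVariables false

open Matrix MeasureTheory

namespace TH71


theorem gstep (δ : ℝ) (n : ℕ) (f g : ℝ → ℝ → ℝ) (hf : tzT f) (hg : tzT g) :
    tzG δ (n + 1) f g + (1/4) * tzE δ n f g (tznu δ (n + 1) + 2 ^ (n + 1) * δ) ≤
      tzG δ n f g + 200 * (tzPsi δ n f - tzPsi δ (n + 1) f) +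
      200 * (tzPsi δ n g - tzPsi δ (n + 1) g) := by
  obtain ⟨n', hn'⟩ : ∃ n' : ℝ, n' = tznu δ (n+1) := ⟨_, rfl⟩
  obtain ⟨u, hu⟩ : ∃ u : ℝ, u = 2^n*δ := ⟨_, rfl⟩
  have e1 : tznu δ n = n' + 2*u := by rw [hn', hu]; unfold tznu; ring
  have e2 : (2:ℝ)^(n+1)*δ = 2*u := by rw [hu]; ring
  have p0 := int_pair δ n f g hf hg n'
  have p1 := int_pair δ n f g hf hg (n' + 2*u)
  have s0 := sec_diff δ n f g hf hg n'
  have s1 := sec_diff δ n f g hf hg (n' + u)
  have s2 := sec_diff δ n f g hf hg (n' + 2*u)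
  have s3 := sec_diff δ n f g hf hg (n' + 3*u)
  have t0 := (tz_nonneg δ n f g n').1
  unfold tzG
  rw [← hn', e1, e2, ← hu]
  rw [← hu] at p0 p1 s0 s1 s2 s3
  rw [show n' + 2*u + u = n' + 3*u by ring] at *
  rw [show n' + 2*u + 2*u = n' + 4*u by ring] at *
  rw [show n' + 2*u + 3*u = n' + 5*u by ring] at *
  rw [show n' + u + u = n' + 2*u by ring, show n' + u + 2*u = n' + 3*u by ring] at s1
  rw [show n' + 3*u + u = n' + 4*u by ring, show n' + 3*u + 2*u = n' + 5*u by ring] at s3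
  have q0 := (abs_le.1 s0).2
  have q1 := (abs_le.1 s1).2
  have q2 := (abs_le.1 s2).2
  have q3 := (abs_le.1 s3).2
  have hp := (abs_nonneg _).trans s0
  linarith

end TH71
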