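import Pool.Agent.Helper933.TR.Defs
import Pool.Agent.Helper933.TR.P_tz_nonneg
import Pool.Agent.Helper933.TR.P_gstep

set_option autoImplicit false
set_option linter.unusedVariables false

open Matrix MeasureTheory

namespace TH71


theorem gsum (δ : ℝ) (J : ℕ) (f g h : ℝ → ℝ → ℝ) (hf : tzT f) (hg : tzT g) (hh : tzT h) :
    ∑ n ∈ Finset.range J, (tzE δ n f g (tznu δ (n + 1) + 2 ^ (n + 1) * δ) +
      tzE δ n g h (tznu δ (n + 1) + 2 ^ (n + 1) * δ) +
      tzE δ n h f (tznu δ (n + 1) + 2 ^ (n + 1) * δ)) ≤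
      4 * (tzG δ 0 f g + tzG δ 0 g h + tzG δ 0 h f) +
      1600 * (tzPsi δ 0 f + tzPsi δ 0 g + tzPsi δ 0 h) := by
  have key : ∀ J : ℕ, ∑ n ∈ Finset.range J, (tzE δ n f g (tznu δ (n + 1) + 2 ^ (n + 1) * δ) +
      tzE δ n g h (tznu δ (n + 1) + 2 ^ (n + 1) * δ) +
      tzE δ n h f (tznu δ (n + 1) + 2 ^ (n + 1) * δ)) +
      4 * (tzG δ J f g + tzG δ J g h + tzG δ J h f) +
      1600 * (tzPsi δ J f + tzPsi δ J g + tzPsi δ J h) ≤
      4 * (tzG δ 0 f g + tzG δ 0 g h + tzG δ 0 h f) +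
      1600 * (tzPsi δ 0 f + tzPsi δ 0 g + tzPsi δ 0 h) := by
    intro J
    induction J with
    | zero => simp
    | succ J ih =>
      rw [Finset.sum_range_succ]
      have h1 := gstep δ J f g hf hg
      have h2 := gstep δ J g h hg hh
      have h3 := gstep δ J h f hh hf
      linarith
  have hG : ∀ a b : ℝ → ℝ → ℝ, 0 ≤ tzG δ J a b := by
    intro a b
    unfold tzG
    have h1 := (tz_nonneg δ J a b (tznu δ J)).2.1
    have h2 := (tz_nonneg δ J a b (tznu δ J + 2 ^ J * δ)).2.1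
    linarith
  have hP : ∀ a : ℝ → ℝ → ℝ, 0 ≤ tzPsi δ J a := fun a => (tz_nonneg δ J a a 0).2.2
  have := key J
  have g1 := hG f g
  have g2 := hG g h
  have g3 := hG h f
  have p1 := hP f
  have p2 := hP g
  have p3 := hP h
  linarith

end TH71
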