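import Pool.Agent.Helper933.TR.Defs
import Pool.Agent.Helper933.TR.P_leaf0

set_option autoImplicit false
set_option linter.unusedVariables false

open Matrix MeasureTheory

namespace TH71


theorem leafs (K : ℕ) (t : ℝ) :
    ∑ k ∈ Finset.Ico (-(K : ℤ)) (K : ℤ), (lam k) ^ 3 *
      (3 * (P ((fun _ _ => (lam k)⁻¹ * t) : Matrix (Idx 0) (Idx 0) ℝ) *
        P ((fun _ _ => (lam k)⁻¹ * t) : Matrix (Idx 0) (Idx 0) ℝ)ᵀ).trace +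
        600 * Psi ((fun _ _ => (lam k)⁻¹ * t) : Matrix (Idx 0) (Idx 0) ℝ)) ≤
      30000 * |t| ^ 3 := by
  have h := leaf0 K (fun _ _ => t) (fun _ _ => t) (fun _ _ => t)
  have hM : ∀ k : ℤ, (lam k)⁻¹ • Mx 0 (fun _ _ => t) =
      ((fun _ _ => (lam k)⁻¹ * t) : Matrix (Idx 0) (Idx 0) ℝ) := by
    intro k
    rfl
  unfold PhiK phi at h
  simp only [hM] at h
  have e : ∀ k : ℤ, (lam k) ^ 3 *
      (3 * (P ((fun _ _ => (lam k)⁻¹ * t) : Matrix (Idx 0) (Idx 0) ℝ) *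
        P ((fun _ _ => (lam k)⁻¹ * t) : Matrix (Idx 0) (Idx 0) ℝ)ᵀ).trace +
        600 * Psi ((fun _ _ => (lam k)⁻¹ * t) : Matrix (Idx 0) (Idx 0) ℝ)) =
      (lam k) ^ 3 *
      ((P ((fun _ _ => (lam k)⁻¹ * t) : Matrix (Idx 0) (Idx 0) ℝ) *
        P ((fun _ _ => (lam k)⁻¹ * t) : Matrix (Idx 0) (Idx 0) ℝ)ᵀ).trace +
       (P ((fun _ _ => (lam k)⁻¹ * t) : Matrix (Idx 0) (Idx 0) ℝ) *
        P ((fun _ _ => (lam k)⁻¹ * t) : Matrix (Idx 0) (Idx 0) ℝ)ᵀ).trace +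
       (P ((fun _ _ => (lam k)⁻¹ * t) : Matrix (Idx 0) (Idx 0) ℝ) *
        P ((fun _ _ => (lam k)⁻¹ * t) : Matrix (Idx 0) (Idx 0) ℝ)ᵀ).trace +
        200 * (Psi ((fun _ _ => (lam k)⁻¹ * t) : Matrix (Idx 0) (Idx 0) ℝ) +
          Psi ((fun _ _ => (lam k)⁻¹ * t) : Matrix (Idx 0) (Idx 0) ℝ) +
          Psi ((fun _ _ => (lam k)⁻¹ * t) : Matrix (Idx 0) (Idx 0) ℝ))) := by
    intro k; ring
  rw [Finset.sum_congr rfl (fun k _ => e k)]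
  refine h.trans (le_of_eq ?_)
  ring

end TH71
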