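import Pool.Agent.Helper933.TR.Defs
import Pool.Agent.Helper71.TH.P_P_bounds

set_option autoImplicit false
set_option linter.unusedVariables false

open Matrix MeasureTheory

namespace TH71

theorem one_by_one (s t : ℝ) :
    (P ((fun _ _ => s) : Matrix (Idx 0) (Idx 0) ℝ) *
        P ((fun _ _ => t) : Matrix (Idx 0) (Idx 0) ℝ)ᵀ).trace ≤
      (1/2) * (P ((fun _ _ => s) : Matrix (Idx 0) (Idx 0) ℝ) *
        P ((fun _ _ => s) : Matrix (Idx 0) (Idx 0) ℝ)ᵀ).trace +
      (1/2) * (P ((fun _ _ => t) : Matrix (Idx 0) (Idx 0) ℝ) *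
        P ((fun _ _ => t) : Matrix (Idx 0) (Idx 0) ℝ)ᵀ).trace := by
  have ht : ∀ u : ℝ, ((fun _ _ => u) : Matrix (Idx 0) (Idx 0) ℝ)ᵀ = (fun _ _ => u) := by
    intro u; rfl
  rw [ht, ht]
  have key : ∀ A B : Matrix Unit Unit ℝ, (A * B).trace = A () () * B () () := by
    intro A B
    simp [Matrix.trace, Matrix.mul_apply]
  have key' : ∀ A B : Matrix (Idx 0) (Idx 0) ℝ, (A * B).trace =
      A (() : Unit) (() : Unit) * B (() : Unit) (() : Unit) := fun A B => key A B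
  rw [key', key', key']
  nlinarith [sq_nonneg (P ((fun _ _ => s) : Matrix (Idx 0) (Idx 0) ℝ) (() : Unit) (() : Unit) -
    P ((fun _ _ => t) : Matrix (Idx 0) (Idx 0) ℝ) (() : Unit) (() : Unit))]

end TH71
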