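import Pool.Agent.Helper933.TR.Defs
import Pool.Agent.Helper933.TR.P_chg
import Pool.Agent.Helper933.TR.P_H_int
import Pool.Agent.Helper933.TR.P_Psi_int
import Pool.Agent.Helper933.TR.P_tz_nonneg
import Pool.Agent.Helper933.TR.P_leafs
import Pool.Agent.Helper933.TR.P_one_by_one
import Pool.Agent.Helper933.TR.P_scale

set_option autoImplicit false
set_option linter.unusedVariables false

open Matrix MeasureTheory

namespace TH71


instance uniqueIdx0 : Unique (Idx 0) := inferInstanceAs (Unique Unit)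

theorem P1 (s : ℝ) : P ((fun _ _ => s) : Matrix (Idx 0) (Idx 0) ℝ) =
    ((fun _ _ => 1 - (1 + s ^ 2)⁻¹) : Matrix (Idx 0) (Idx 0) ℝ) := by
  have hpos : (1:ℝ) + s ^ 2 ≠ 0 := by positivity
  obtain ⟨M, hM⟩ : ∃ M : Matrix (Idx 0) (Idx 0) ℝ, ∀ i j, M i j = s := ⟨fun _ _ => s, fun _ _ => rfl⟩
  obtain ⟨B, hB⟩ : ∃ B : Matrix (Idx 0) (Idx 0) ℝ, ∀ i j, B i j = (1 + s ^ 2)⁻¹ :=
    ⟨fun _ _ => (1 + s ^ 2)⁻¹, fun _ _ => rfl⟩
  have hMf : ((fun _ _ => s) : Matrix (Idx 0) (Idx 0) ℝ) = M := by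
    ext i j
    exact (hM i j).symm
  have hinv : (1 + Mᵀ * M)⁻¹ = B := by
    apply Matrix.inv_eq_right_inv
    ext i j
    have hij : i = j := Subsingleton.elim _ _
    subst hij
    rw [Matrix.mul_apply, Fintype.sum_unique, Matrix.add_apply, Matrix.mul_apply,
      Fintype.sum_unique, Matrix.transpose_apply, hM, hM, hB]
    have hi : i = default := Subsingleton.elim _ _
    rw [hi, Matrix.one_apply_eq]
    field_simp
  rw [hMf]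
  unfold P
  rw [hinv]
  ext i j
  have hij : i = j := Subsingleton.elim _ _
  subst hij
  rw [Matrix.sub_apply, Matrix.one_apply_eq, hB]

theorem trP1 (s t : ℝ) : (P ((fun _ _ => s) : Matrix (Idx 0) (Idx 0) ℝ) *
        P ((fun _ _ => t) : Matrix (Idx 0) (Idx 0) ℝ)ᵀ).trace =
      (1 - (1 + s ^ 2)⁻¹) * (1 - (1 + t ^ 2)⁻¹) := by
  have ht : ((fun _ _ => t) : Matrix (Idx 0) (Idx 0) ℝ)ᵀ =
    ((fun _ _ => t) : Matrix (Idx 0) (Idx 0) ℝ) := rfl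
  have h1 : ∀ i j, P ((fun _ _ => s) : Matrix (Idx 0) (Idx 0) ℝ) i j = 1 - (1 + s ^ 2)⁻¹ := by
    intro i j
    rw [P1]
  have h2 : ∀ i j, P ((fun _ _ => t) : Matrix (Idx 0) (Idx 0) ℝ) i j = 1 - (1 + t ^ 2)⁻¹ := by
    intro i j
    rw [P1]
  rw [ht, Matrix.trace, Fintype.sum_unique, Matrix.diag_apply, Matrix.mul_apply,
    Fintype.sum_unique, h1, h2]

/-- the pair potential with itself -/
noncomputable def QQ (w : ℝ → ℝ → ℝ) : ℝ :=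
  ∫ p : ℝ × ℝ, (P ((fun _ _ => w p.1 p.2) : Matrix (Idx 0) (Idx 0) ℝ) *
    P ((fun _ _ => w p.1 p.2) : Matrix (Idx 0) (Idx 0) ℝ)ᵀ).trace

theorem QQ_int (w : ℝ → ℝ → ℝ) (hw : tzT w) :
    Integrable (fun p : ℝ × ℝ => (P ((fun _ _ => w p.1 p.2) : Matrix (Idx 0) (Idx 0) ℝ) *
    P ((fun _ _ => w p.1 p.2) : Matrix (Idx 0) (Idx 0) ℝ)ᵀ).trace) := by
  have e : (fun p : ℝ × ℝ => (P ((fun _ _ => w p.1 p.2) : Matrix (Idx 0) (Idx 0) ℝ) *
      P ((fun _ _ => w p.1 p.2) : Matrix (Idx 0) (Idx 0) ℝ)ᵀ).trace) =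
      (fun s : ℝ => (1 - (1 + s ^ 2)⁻¹) * (1 - (1 + s ^ 2)⁻¹)) ∘ (fun p : ℝ × ℝ => w p.1 p.2) := by
    funext p
    exact trP1 _ _
  rw [e]
  apply Continuous.integrable_of_hasCompactSupport
  · refine Continuous.comp ?_ hw.1
    have : Continuous fun s : ℝ => (1 + s ^ 2)⁻¹ := by
      apply Continuous.inv₀ (by fun_prop)
      intro s
      positivity
    fun_prop
  · apply hw.2.comp_left
    norm_num

theorem QQ_nonneg (w : ℝ → ℝ → ℝ) : 0 ≤ QQ w := by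
  unfold QQ
  apply integral_nonneg
  intro p
  show 0 ≤ (P ((fun _ _ => w p.1 p.2) : Matrix (Idx 0) (Idx 0) ℝ) *
    P ((fun _ _ => w p.1 p.2) : Matrix (Idx 0) (Idx 0) ℝ)ᵀ).trace
  rw [trP1]
  exact mul_self_nonneg _

theorem tzN_int (w : ℝ → ℝ → ℝ) (hw : tzT w) :
    Integrable (fun p : ℝ × ℝ => |w p.1 p.2| ^ 3) := by
  have e : (fun p : ℝ × ℝ => |w p.1 p.2| ^ 3) =
      (fun s : ℝ => |s| ^ 3) ∘ (fun p : ℝ × ℝ => w p.1 p.2) := rfl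
  rw [e]
  apply Continuous.integrable_of_hasCompactSupport
  · exact Continuous.comp (by fun_prop) hw.1
  · apply hw.2.comp_left
    norm_num

theorem tzH_le (δ : ℝ) (f g : ℝ → ℝ → ℝ) (hf : tzT f) (hg : tzT g) (ν : ℝ) :
    tzH δ 0 f g ν ≤ (1/2) * QQ f + (1/2) * QQ g := by
  have hQg : QQ g = ∫ p : ℝ × ℝ, (P ((fun _ _ => g p.2 (ν - p.1 - p.2)) :
      Matrix (Idx 0) (Idx 0) ℝ) *
      P ((fun _ _ => g p.2 (ν - p.1 - p.2)) : Matrix (Idx 0) (Idx 0) ℝ)ᵀ).trace :=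
    (chg (fun p => (P ((fun _ _ => g p.1 p.2) : Matrix (Idx 0) (Idx 0) ℝ) *
      P ((fun _ _ => g p.1 p.2) : Matrix (Idx 0) (Idx 0) ℝ)ᵀ).trace) ν).symm
  have hg' : tzT (fun x y => g y (ν - x - y)) := by
    constructor
    · have : Continuous fun p : ℝ × ℝ => ((p.2, ν - p.1 - p.2) : ℝ × ℝ) := by fun_prop
      exact hg.1.comp this
    · let hom : ℝ × ℝ ≃ₜ ℝ × ℝ :=
        { toFun := fun p => (p.2, ν - p.1 - p.2)
          invFun := fun p => (ν - p.1 - p.2, p.1)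
          left_inv := by
            intro p
            ext <;> simp
          right_inv := by
            intro p
            ext
            · simp
            · simp only
              ring
          continuous_toFun := by fun_prop
          continuous_invFun := by fun_prop }
      exact hg.2.comp_homeomorph hom
  have i1 := QQ_int f hf
  have i2 := QQ_int _ hg'
  have hH : tzH δ 0 f g ν = ∫ p : ℝ × ℝ, (P ((fun _ _ => f p.1 p.2) :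
      Matrix (Idx 0) (Idx 0) ℝ) *
      P ((fun _ _ => g p.2 (ν - p.1 - p.2)) : Matrix (Idx 0) (Idx 0) ℝ)ᵀ).trace := rfl
  have i3 := H_int δ 0 f g hf hg ν 0 0 0 0
  simp only [add_zero] at i3
  rw [hH, hQg]
  unfold QQ
  rw [← integral_const_mul, ← integral_const_mul, ← integral_add (i1.const_mul _) (i2.const_mul _)]
  apply integral_mono i3 ((i1.const_mul _).add (i2.const_mul _))
  intro p
  exact one_by_one _ _

theorem tzG_le (δ : ℝ) (f g : ℝ → ℝ → ℝ) (hf : tzT f) (hg : tzT g) :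
    tzG δ 0 f g ≤ (1/2) * QQ f + (1/2) * QQ g := by
  unfold tzG
  have h1 := tzH_le δ f g hf hg (tznu δ 0)
  have h2 := tzH_le δ f g hf hg (tznu δ 0 + 2 ^ 0 * δ)
  linarith

/-- integrand -/
noncomputable def FF (w : ℝ → ℝ → ℝ) (k : ℤ) (p : ℝ × ℝ) : ℝ :=
  (lam k) ^ 3 *
      (3 * (P ((fun _ _ => (lam k)⁻¹ * w p.1 p.2) : Matrix (Idx 0) (Idx 0) ℝ) *
        P ((fun _ _ => (lam k)⁻¹ * w p.1 p.2) : Matrix (Idx 0) (Idx 0) ℝ)ᵀ).trace +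
        600 * Psi ((fun _ _ => (lam k)⁻¹ * w p.1 p.2) : Matrix (Idx 0) (Idx 0) ℝ))

theorem tzPsi_eq (δ : ℝ) (l : ℝ) (w : ℝ → ℝ → ℝ) : tzPsi δ 0 (tzs l w) =
    ∫ p : ℝ × ℝ, Psi ((fun _ _ => l⁻¹ * w p.1 p.2) : Matrix (Idx 0) (Idx 0) ℝ) := by
  unfold tzPsi
  rfl

theorem QQ_eq (l : ℝ) (w : ℝ → ℝ → ℝ) : QQ (tzs l w) =
    ∫ p : ℝ × ℝ, (P ((fun _ _ => l⁻¹ * w p.1 p.2) : Matrix (Idx 0) (Idx 0) ℝ) *
        P ((fun _ _ => l⁻¹ * w p.1 p.2) : Matrix (Idx 0) (Idx 0) ℝ)ᵀ).trace := by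
  unfold QQ
  rfl

theorem Psi_int' (δ : ℝ) (w : ℝ → ℝ → ℝ) (hw : tzT w) :
    Integrable (fun p : ℝ × ℝ => Psi ((fun _ _ => w p.1 p.2) : Matrix (Idx 0) (Idx 0) ℝ)) := by
  have := (Psi_int δ 0 w hw 0 0).1
  simp only [add_zero] at this
  exact this

theorem FF_int (w : ℝ → ℝ → ℝ) (hw : tzT w) (k : ℤ) : Integrable (FF w k) := by
  have hs : tzT (tzs (lam k) w) := (scale 0 0 (lam k) w 0 0).2.2 hw
  have h1 := QQ_int _ hs
  have h2 := Psi_int' 0 _ hs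
  exact ((h1.const_mul 3).add (h2.const_mul 600)).const_mul ((lam k) ^ 3)

theorem gen_int (A B : ℝ × ℝ → ℝ) (hA : Integrable A) (hB : Integrable B) (c : ℝ) :
    c * (3 * (∫ p, A p) + 600 * ∫ p, B p) = ∫ p, c * (3 * A p + 600 * B p) := by
  rw [integral_const_mul, integral_add (hA.const_mul 3) (hB.const_mul 600),
      integral_const_mul, integral_const_mul]

theorem int_a (w : ℝ → ℝ → ℝ) (hw : tzT w) (k : ℤ) : Integrable (fun p : ℝ × ℝ =>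
      (P ((fun _ _ => (lam k)⁻¹ * w p.1 p.2) : Matrix (Idx 0) (Idx 0) ℝ) *
        P ((fun _ _ => (lam k)⁻¹ * w p.1 p.2) : Matrix (Idx 0) (Idx 0) ℝ)ᵀ).trace) :=
  (QQ_int (tzs (lam k) w) ((scale 0 0 (lam k) w 0 0).2.2 hw) :)

theorem int_b (w : ℝ → ℝ → ℝ) (hw : tzT w) (k : ℤ) : Integrable (fun p : ℝ × ℝ =>
      Psi ((fun _ _ => (lam k)⁻¹ * w p.1 p.2) : Matrix (Idx 0) (Idx 0) ℝ)) :=
  (Psi_int' 0 (tzs (lam k) w) ((scale 0 0 (lam k) w 0 0).2.2 hw) :)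

theorem FF_eq0 (w : ℝ → ℝ → ℝ) (hw : tzT w) (k : ℤ) : (lam k) ^ 3 *
      (3 * (∫ p : ℝ × ℝ, (P ((fun _ _ => (lam k)⁻¹ * w p.1 p.2) : Matrix (Idx 0) (Idx 0) ℝ) *
        P ((fun _ _ => (lam k)⁻¹ * w p.1 p.2) : Matrix (Idx 0) (Idx 0) ℝ)ᵀ).trace) +
        600 * ∫ p : ℝ × ℝ, Psi ((fun _ _ => (lam k)⁻¹ * w p.1 p.2) : Matrix (Idx 0) (Idx 0) ℝ)) =
      ∫ p : ℝ × ℝ, FF w k p :=
  gen_int _ _ (int_a w hw k) (int_b w hw k) _

theorem FF_eq (δ : ℝ) (w : ℝ → ℝ → ℝ) (hw : tzT w) (k : ℤ) : (lam k) ^ 3 *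
      (3 * QQ (tzs (lam k) w) + 600 * tzPsi δ 0 (tzs (lam k) w)) = ∫ p : ℝ × ℝ, FF w k p := by
  rw [QQ_eq, tzPsi_eq, FF_eq0 w hw k]

theorem one_fun (δ : ℝ) (K : ℕ) (w : ℝ → ℝ → ℝ) (hw : tzT w) :
    ∑ k ∈ Finset.Ico (-(K : ℤ)) (K : ℤ), (lam k) ^ 3 *
      (3 * QQ (tzs (lam k) w) + 600 * tzPsi δ 0 (tzs (lam k) w)) ≤ 30000 * tzN w := by
  rw [Finset.sum_congr rfl fun k _ => FF_eq δ w hw k]
  rw [← integral_finsetSum _ fun k _ => FF_int w hw k]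
  unfold tzN
  rw [← integral_const_mul]
  have hl : ∀ p : ℝ × ℝ, ∑ k ∈ Finset.Ico (-(K : ℤ)) (K : ℤ), FF w k p ≤
      30000 * |w p.1 p.2| ^ 3 := fun p => leafs K (w p.1 p.2)
  exact integral_mono (integrable_finsetSum _ fun k _ => FF_int w hw k)
    ((tzN_int w hw).const_mul _) hl

theorem tzN_nonneg (w : ℝ → ℝ → ℝ) : 0 ≤ tzN w := by
  unfold tzN
  apply integral_nonneg
  intro p
  positivity

theorem lev0 (δ : ℝ) (K : ℕ) (f g h : ℝ → ℝ → ℝ) (hf : tzT f) (hg : tzT g) (hh : tzT h) :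
    ∑ k ∈ Finset.Ico (-(K : ℤ)) (K : ℤ), (lam k) ^ 3 *
      (4 * (tzG δ 0 (tzs (lam k) f) (tzs (lam k) g) + tzG δ 0 (tzs (lam k) g) (tzs (lam k) h) +
        tzG δ 0 (tzs (lam k) h) (tzs (lam k) f)) +
      1600 * (tzPsi δ 0 (tzs (lam k) f) + tzPsi δ 0 (tzs (lam k) g) +
        tzPsi δ 0 (tzs (lam k) h))) ≤
      1000000 * (tzN f + tzN g + tzN h) := by
  have h1 := one_fun δ K f hf
  have h2 := one_fun δ K g hg
  have h3 := one_fun δ K h hh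
  have n1 := tzN_nonneg f
  have n2 := tzN_nonneg g
  have n3 := tzN_nonneg h
  have key : ∑ k ∈ Finset.Ico (-(K : ℤ)) (K : ℤ), (lam k) ^ 3 *
      (4 * (tzG δ 0 (tzs (lam k) f) (tzs (lam k) g) + tzG δ 0 (tzs (lam k) g) (tzs (lam k) h) +
        tzG δ 0 (tzs (lam k) h) (tzs (lam k) f)) +
      1600 * (tzPsi δ 0 (tzs (lam k) f) + tzPsi δ 0 (tzs (lam k) g) +
        tzPsi δ 0 (tzs (lam k) h))) ≤
      (8 / 3) * (∑ k ∈ Finset.Ico (-(K : ℤ)) (K : ℤ), (lam k) ^ 3 *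
      (3 * QQ (tzs (lam k) f) + 600 * tzPsi δ 0 (tzs (lam k) f)) +
      ∑ k ∈ Finset.Ico (-(K : ℤ)) (K : ℤ), (lam k) ^ 3 *
      (3 * QQ (tzs (lam k) g) + 600 * tzPsi δ 0 (tzs (lam k) g)) +
      ∑ k ∈ Finset.Ico (-(K : ℤ)) (K : ℤ), (lam k) ^ 3 *
      (3 * QQ (tzs (lam k) h) + 600 * tzPsi δ 0 (tzs (lam k) h))) := by
    rw [← Finset.sum_add_distrib, ← Finset.sum_add_distrib, Finset.mul_sum]
    apply Finset.sum_le_sum
    intro k _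
    have sf := (scale δ 0 (lam k) f 0 0).2.2 hf
    have sg' := (scale δ 0 (lam k) g 0 0).2.2 hg
    have sh := (scale δ 0 (lam k) h 0 0).2.2 hh
    have g1 := tzG_le δ _ _ sf sg'
    have g2 := tzG_le δ _ _ sg' sh
    have g3 := tzG_le δ _ _ sh sf
    have q1 := QQ_nonneg (tzs (lam k) f)
    have q2 := QQ_nonneg (tzs (lam k) g)
    have q3 := QQ_nonneg (tzs (lam k) h)
    have hl : 0 ≤ (lam k) ^ 3 := by unfold lam; positivity
    calc _ ≤ (lam k) ^ 3 * ((8 / 3) * ((3 * QQ (tzs (lam k) f) + 600 * tzPsi δ 0 (tzs (lam k) f)) +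
          (3 * QQ (tzs (lam k) g) + 600 * tzPsi δ 0 (tzs (lam k) g)) +
          (3 * QQ (tzs (lam k) h) + 600 * tzPsi δ 0 (tzs (lam k) h)))) := by
          apply mul_le_mul_of_nonneg_left _ hl
          linarith
      _ = _ := by ring
  linarith

end TH71
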