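import Pool.Agent.Helper933.TR.Defs
import Pool.Agent.Helper933.TR.P_gsum
import Pool.Agent.Helper933.TR.P_scale
import Pool.Agent.Helper933.TR.P_lev0
import Pool.Agent.Helper933.TR.P_S_val
import Pool.Agent.Helper933.TR.P_D_le
import Pool.Agent.Helper933.TR.P_D_int
import Pool.Agent.Helper933.TR.P_fatou

set_option autoImplicit false
set_option linter.unusedVariables false

open Matrix MeasureTheory

namespace TH71


theorem dsum (δ : ℝ) (J : ℕ) (f g h : ℝ → ℝ → ℝ) (hf : tzT f) (hg : tzT g) (hh : tzT h) :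
    ∑ n ∈ Finset.range J,
      ∫ p : ℝ × ℝ, |tzD δ n f g h (tznu δ (n + 1) + 2 ^ (n + 1) * δ) p| ≤
      12000000 * (tzN f + tzN g + tzN h) := by
  obtain ⟨nu, hnu⟩ : ∃ nu : ℕ → ℝ, ∀ n, nu n = tznu δ (n + 1) + 2 ^ (n + 1) * δ :=
    ⟨_, fun _ => rfl⟩
  have hgoal : ∑ n ∈ Finset.range J,
      ∫ p : ℝ × ℝ, |tzD δ n f g h (tznu δ (n + 1) + 2 ^ (n + 1) * δ) p|
      = ∫ p : ℝ × ℝ, ∑ n ∈ Finset.range J, |tzD δ n f g h (nu n) p| := by
    rw [integral_finsetSum _ fun n _ => (D_int δ n f g h hf hg hh (nu n)).abs]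
    refine Finset.sum_congr rfl fun n _ => ?_
    rw [hnu]
  rw [hgoal]
  have hlam : ∀ k : ℤ, 0 ≤ (lam k) ^ 3 := by
    intro k
    unfold lam
    positivity
  refine fatou (fun p => ∑ n ∈ Finset.range J, |tzD δ n f g h (nu n) p|)
    (fun K p => 12 * ∑ n ∈ Finset.range J, tzS δ n K f g h (nu n) p) ?_ ?_ ?_ ?_ ?_ _ ?_
  · exact integrable_finsetSum _ fun n _ => (D_int δ n f g h hf hg hh (nu n)).abs
  · intro K
    exact (integrable_finsetSum _ fun n _ => (S_val δ n K f g h hf hg hh (nu n)).1).const_mul 12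
  · intro K p
    exact mul_nonneg (by norm_num) (Finset.sum_nonneg fun n _ =>
      (S_val δ n K f g h hf hg hh (nu n)).2.1 p)
  · intro p ε hε
    have hJ : (0:ℝ) < (J:ℝ) + 1 := by positivity
    have h1 : ∀ n : ℕ, ∃ K0 : ℕ, ∀ K : ℕ, K0 ≤ K →
        |tzD δ n f g h (nu n) p| ≤ 12 * tzS δ n K f g h (nu n) p + ε / ((J:ℝ) + 1) := fun n =>
      D_le δ n f g h (nu n) p (ε / ((J:ℝ) + 1)) (div_pos hε hJ)
    choose K0 hK0 using h1
    refine ⟨(Finset.range J).sup K0, fun K hK => ?_⟩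
    have h2 : ∀ n ∈ Finset.range J,
        |tzD δ n f g h (nu n) p| ≤ 12 * tzS δ n K f g h (nu n) p + ε / ((J:ℝ) + 1) := fun n hn =>
      hK0 n K ((Finset.le_sup hn).trans hK)
    refine (Finset.sum_le_sum h2).trans ?_
    rw [Finset.sum_add_distrib, ← Finset.mul_sum, Finset.sum_const, Finset.card_range, nsmul_eq_mul]
    have h3 : (J:ℝ) * (ε / ((J:ℝ) + 1)) ≤ ε := by
      rw [← mul_div_assoc, div_le_iff₀ hJ]
      linarith
    linarith
  · intro p
    exact Finset.sum_nonneg fun n _ => abs_nonneg _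
  · intro K
    rw [integral_const_mul, integral_finsetSum _ fun n _ => (S_val δ n K f g h hf hg hh (nu n)).1]
    rw [Finset.sum_congr rfl fun n _ => (S_val δ n K f g h hf hg hh (nu n)).2.2, Finset.sum_comm]
    have h4 : ∀ k ∈ Finset.Ico (-(K : ℤ)) (K : ℤ), ∑ n ∈ Finset.range J, (lam k) ^ 3 *
        (tzE δ n (tzs (lam k) f) (tzs (lam k) g) (nu n) +
          tzE δ n (tzs (lam k) g) (tzs (lam k) h) (nu n) +
          tzE δ n (tzs (lam k) h) (tzs (lam k) f) (nu n)) ≤ (lam k) ^ 3 *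
      (4 * (tzG δ 0 (tzs (lam k) f) (tzs (lam k) g) + tzG δ 0 (tzs (lam k) g) (tzs (lam k) h) +
        tzG δ 0 (tzs (lam k) h) (tzs (lam k) f)) +
      1600 * (tzPsi δ 0 (tzs (lam k) f) + tzPsi δ 0 (tzs (lam k) g) +
        tzPsi δ 0 (tzs (lam k) h))) := by
      intro k _
      rw [← Finset.mul_sum]
      apply mul_le_mul_of_nonneg_left _ (hlam k)
      have h5 := gsum δ J (tzs (lam k) f) (tzs (lam k) g) (tzs (lam k) h)
        ((scale δ 0 (lam k) f 0 0).2.2 hf) ((scale δ 0 (lam k) g 0 0).2.2 hg)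
        ((scale δ 0 (lam k) h 0 0).2.2 hh)
      simp only [hnu]
      exact h5
    have h6 := (Finset.sum_le_sum h4).trans (lev0 δ K f g h hf hg hh)
    linarith

end TH71
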