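import Pool.Agent.Helper933.TR.Defs
import Pool.Agent.Helper933.TR.P_D_int
import Pool.Agent.Helper933.TR.P_dsum
import Pool.Agent.Helper933.TR.P_D_val

set_option autoImplicit false
set_option linter.unusedVariables false

open Matrix MeasureTheory

namespace TH71


theorem R1 (δ : ℝ) (J : ℕ) (f g h : ℝ → ℝ → ℝ) (hf : tzT f) (hg : tzT g) (hh : tzT h) :
    ∑ n ∈ Finset.range J, |tzV (tzTT f g h) δ (n + 1) (-(2 ^ (n + 1) * δ) + 2 * δ)| ≤
      12000000 * (tzN f + tzN g + tzN h) := by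
  refine le_trans (Finset.sum_le_sum fun n _ => ?_) (dsum δ J f g h hf hg hh)
  have e : -(2 ^ (n + 1) * δ) + 2 * δ = tznu δ (n + 1) + 2 ^ (n + 1) * δ := by
    unfold tznu
    ring
  rw [e, ← D_val δ n f g h hf hg hh]
  exact abs_integral_le_integral_abs

end TH71
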