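import Pool.Agent.Helper933.TR.Defs

set_option autoImplicit false
set_option linter.unusedVariables false

open Matrix MeasureTheory

namespace TH71


theorem tzmp_aux (s : ℝ) : MeasurePreserving (fun p : ℝ × ℝ => ((p.2, s - p.1 - p.2) : ℝ × ℝ))
    (volume : Measure (ℝ × ℝ)) (volume : Measure (ℝ × ℝ)) := by
  have h1 : MeasurePreserving (Prod.swap : ℝ × ℝ → ℝ × ℝ)
      ((volume : Measure ℝ).prod (volume : Measure ℝ))
      ((volume : Measure ℝ).prod (volume : Measure ℝ)) :=
    MeasureTheory.Measure.measurePreserving_swap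
  have h2 : MeasurePreserving (fun p : ℝ × ℝ => ((id p.1, (fun x y : ℝ => (s - x) - y) p.1 p.2) : ℝ × ℝ))
      ((volume : Measure ℝ).prod (volume : Measure ℝ))
      ((volume : Measure ℝ).prod (volume : Measure ℝ)) := by
    refine MeasurePreserving.skew_product (g := fun x y : ℝ => (s - x) - y)
      (MeasurePreserving.id (volume : Measure ℝ)) ?_ ?_
    · apply Continuous.measurable
      change Continuous (fun p : ℝ × ℝ => (s - p.1) - p.2)
      fun_prop
    · filter_upwards with x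
      exact (Measure.measurePreserving_sub_left (volume : Measure ℝ) (s - x)).map_eq
  have h3 := h2.comp h1
  have e : (fun p : ℝ × ℝ => ((p.2, s - p.1 - p.2) : ℝ × ℝ)) =
      (fun p : ℝ × ℝ => ((id p.1, (fun x y : ℝ => (s - x) - y) p.1 p.2) : ℝ × ℝ)) ∘
        (Prod.swap : ℝ × ℝ → ℝ × ℝ) := by
    funext p
    simp only [Function.comp, Prod.swap, id]
    congr 1
    ring
  rw [e]
  exact h3

theorem tzcube_int (g : ℝ → ℝ → ℝ) (hg : tzT g) :
    Integrable (fun p : ℝ × ℝ => |g p.1 p.2| ^ 3) := by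
  obtain ⟨hc, hs⟩ := hg
  apply Continuous.integrable_of_hasCompactSupport
  · exact (hc.abs).pow 3
  · exact hs.comp_left (g := fun x : ℝ => |x| ^ 3) (by simp)

theorem tzcube_comp (φ : ℝ × ℝ → ℝ × ℝ) (hφ : MeasurePreserving φ (volume : Measure (ℝ × ℝ)) volume)
    (g : ℝ → ℝ → ℝ) (hg : tzT g) :
    Integrable (fun p : ℝ × ℝ => |g (φ p).1 (φ p).2| ^ 3) ∧
      ∫ p : ℝ × ℝ, |g (φ p).1 (φ p).2| ^ 3 = tzN g := by
  have hi := tzcube_int g hg
  constructor
  · exact (hφ.integrable_comp hi.aestronglyMeasurable).mpr hi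
  · have hm : AEStronglyMeasurable (fun p : ℝ × ℝ => |g p.1 p.2| ^ 3)
        (Measure.map φ (volume : Measure (ℝ × ℝ))) := by
      rw [hφ.map_eq]; exact hi.aestronglyMeasurable
    have := MeasureTheory.integral_map hφ.measurable.aemeasurable hm
    rw [hφ.map_eq] at this
    unfold tzN
    exact this.symm

theorem tzamgm (x y z : ℝ) : |x * y * z| ≤ |x| ^ 3 + |y| ^ 3 + |z| ^ 3 := by
  rw [abs_mul, abs_mul]
  have hx := abs_nonneg x
  have hy := abs_nonneg y
  have hz := abs_nonneg z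
  generalize |x| = a at *
  generalize |y| = b at *
  generalize |z| = c at *
  have h1 : 0 ≤ (a + b + c) * ((a - b) ^ 2 + (b - c) ^ 2 + (c - a) ^ 2) := by positivity
  have h2 : 0 ≤ a * b * c := by positivity
  nlinarith

theorem TT_bd (f g h : ℝ → ℝ → ℝ) (hf : tzT f) (hg : tzT g) (hh : tzT h) (s : ℝ) :
    |tzTT f g h s| ≤ tzN f + tzN g + tzN h := by
  have hφ := tzmp_aux s
  have hψ := hφ.comp hφ
  have hfi := tzcube_int f hf
  obtain ⟨hgi, hge⟩ := tzcube_comp _ hφ g hg
  obtain ⟨hhi, hhe⟩ := tzcube_comp _ hψ h hh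
  simp only [Function.comp] at hhi hhe
  have e : ∀ p : ℝ × ℝ, s - p.2 - (s - p.1 - p.2) = p.1 := fun p => by ring
  simp only [e] at hhi hhe
  unfold tzTT
  calc |∫ p : ℝ × ℝ, f p.1 p.2 * g p.2 (s - p.1 - p.2) * h (s - p.1 - p.2) p.1|
      ≤ ∫ p : ℝ × ℝ, |f p.1 p.2 * g p.2 (s - p.1 - p.2) * h (s - p.1 - p.2) p.1| :=
        abs_integral_le_integral_abs
    _ ≤ ∫ p : ℝ × ℝ, (|f p.1 p.2| ^ 3 + |g p.2 (s - p.1 - p.2)| ^ 3
          + |h (s - p.1 - p.2) p.1| ^ 3) := by
        apply integral_mono_of_nonneg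
        · filter_upwards with p
          exact abs_nonneg _
        · exact (hfi.add hgi).add hhi
        · filter_upwards with p
          exact tzamgm _ _ _
    _ = tzN f + tzN g + tzN h := by
        rw [integral_add (f := fun p : ℝ × ℝ => |f p.1 p.2| ^ 3 + |g p.2 (s - p.1 - p.2)| ^ 3)
          (hfi.add hgi) hhi, integral_add hfi hgi, hge, hhe]
        rfl

end TH71
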