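import Pool.Agent.Helper933.TR.Defs

set_option autoImplicit false
set_option linter.unusedVariables false

open Matrix MeasureTheory

namespace TH71


theorem TT_cont (f g h : ℝ → ℝ → ℝ) (hf : tzT f) (hg : tzT g) (hh : tzT h) :
    Continuous (tzTT f g h) := by
  have hfc := hf.1
  have hgc := hg.1
  have hhc := hh.1
  set K : Set (ℝ × ℝ) := tsupport (fun p : ℝ × ℝ => f p.1 p.2) with hK
  have hKc : IsCompact K := hf.2
  have h1 : Continuous (Function.uncurry fun (s : ℝ) (p : ℝ × ℝ) =>
      f p.1 p.2 * g p.2 (s - p.1 - p.2) * h (s - p.1 - p.2) p.1) := by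
    have e1 : Continuous fun x : ℝ × ℝ × ℝ => f x.2.1 x.2.2 :=
      hfc.comp (continuous_snd)
    have e2 : Continuous fun x : ℝ × ℝ × ℝ => g x.2.2 (x.1 - x.2.1 - x.2.2) :=
      hgc.comp ((continuous_snd.comp continuous_snd).prodMk (by fun_prop))
    have e3 : Continuous fun x : ℝ × ℝ × ℝ => h (x.1 - x.2.1 - x.2.2) x.2.1 :=
      hhc.comp (Continuous.prodMk (by fun_prop) (by fun_prop))
    exact (e1.mul e2).mul e3
  have h2 := continuous_parametric_integral_of_continuous (μ := (volume : Measure (ℝ × ℝ))) h1 hKc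
  have h3 : tzTT f g h = fun s => ∫ p in K,
      f p.1 p.2 * g p.2 (s - p.1 - p.2) * h (s - p.1 - p.2) p.1 := by
    funext s
    unfold tzTT
    rw [setIntegral_eq_integral_of_forall_compl_eq_zero]
    intro p hp
    have : f p.1 p.2 = 0 := image_eq_zero_of_notMem_tsupport (f := fun p : ℝ × ℝ => f p.1 p.2) hp
    rw [this, zero_mul, zero_mul]
  rw [h3]
  exact h2

end TH71
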