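import Pool.Agent.Helper933.TR.Defs

set_option autoImplicit false
set_option linter.unusedVariables false

open Matrix MeasureTheory

namespace TH71


theorem TT_supp_bd (f : ℝ → ℝ → ℝ) (hf : tzT f) :
    ∃ R : ℝ, 0 < R ∧ ∀ x y : ℝ, f x y ≠ 0 → |x| ≤ R ∧ |y| ≤ R := by
  obtain ⟨R, hR⟩ := hf.2.isCompact.isBounded.exists_norm_le
  refine ⟨max R 1, lt_of_lt_of_le one_pos (le_max_right _ _), ?_⟩
  intro x y hxy
  have hmem : ((x, y) : ℝ × ℝ) ∈ tsupport (fun p : ℝ × ℝ => f p.1 p.2) := by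
    apply subset_tsupport
    exact hxy
  have h1 := hR _ hmem
  rw [Prod.norm_def] at h1
  have h2 : |x| ≤ R := le_trans (le_max_left _ _) h1
  have h3 : |y| ≤ R := le_trans (le_max_right _ _) h1
  exact ⟨h2.trans (le_max_left _ _), h3.trans (le_max_left _ _)⟩

theorem TT_supp (f g h : ℝ → ℝ → ℝ) (hf : tzT f) (hg : tzT g) (hh : tzT h) :
    ∃ R : ℝ, 0 < R ∧ ∀ s, R < |s| → tzTT f g h s = 0 := by
  obtain ⟨R1, hR1, h1⟩ := TT_supp_bd f hf
  obtain ⟨R2, hR2, h2⟩ := TT_supp_bd g hg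
  refine ⟨2 * R1 + R2, by positivity, ?_⟩
  intro s hs
  unfold tzTT
  have : (fun p : ℝ × ℝ => f p.1 p.2 * g p.2 (s - p.1 - p.2) * h (s - p.1 - p.2) p.1) =
      fun _ => 0 := by
    funext p
    by_cases hf0 : f p.1 p.2 = 0
    · rw [hf0]; ring
    by_cases hg0 : g p.2 (s - p.1 - p.2) = 0
    · rw [hg0]; ring
    exfalso
    obtain ⟨a1, a2⟩ := h1 _ _ hf0
    obtain ⟨-, a3⟩ := h2 _ _ hg0
    rw [abs_le] at a1 a2 a3
    have : |s| ≤ 2 * R1 + R2 := by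
      rw [abs_le]
      constructor <;> linarith [a1.1, a1.2, a2.1, a2.2, a3.1, a3.2]
    linarith
  rw [this]
  simp

end TH71
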