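import Pool.Agent.Helper933.TR.Defs

set_option autoImplicit false
set_option linter.unusedVariables false

open Matrix MeasureTheory

namespace TH71


/-- one averaging step -/
noncomputable def ucK (F : ℝ × ℝ → ℝ) (p : ℝ × ℝ) : ℝ :=
  ∫ c in Set.Icc (0:ℝ) 1, tzh c * F (p.1, p.2 + c)

lemma tzh_meas : Measurable tzh := by
  unfold tzh
  exact Measurable.ite measurableSet_Iio measurable_const measurable_const

lemma tzh_abs (c : ℝ) : |tzh c| = 1 := by
  unfold tzh
  split_ifs <;> simp

lemma ucK_cont (F : ℝ × ℝ → ℝ) (hF : Continuous F) (M : ℝ) (hM : ∀ s, |F s| ≤ M) :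
    Continuous (ucK F) := by
  unfold ucK
  refine MeasureTheory.continuous_of_dominated (bound := fun _ => M) ?_ ?_ ?_ ?_
  · intro p
    have h2 : Continuous (fun c : ℝ => F (p.1, p.2 + c)) := by fun_prop
    exact (tzh_meas.mul h2.measurable).aestronglyMeasurable
  · intro p
    refine Filter.Eventually.of_forall fun c => ?_
    rw [Real.norm_eq_abs, abs_mul, tzh_abs, one_mul]
    exact hM _
  · exact integrable_const M
  · refine Filter.Eventually.of_forall fun c => ?_
    have h2 : Continuous (fun p : ℝ × ℝ => F (p.1, p.2 + c)) := by fun_prop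
    exact continuous_const.mul h2

lemma ucK_bd (F : ℝ × ℝ → ℝ) (M : ℝ) (hM : ∀ s, |F s| ≤ M) (p : ℝ × ℝ) :
    |ucK F p| ≤ M := by
  unfold ucK
  have h := MeasureTheory.norm_integral_le_of_norm_le_const
    (μ := (volume : Measure ℝ).restrict (Set.Icc (0:ℝ) 1)) (C := M)
    (f := fun c => tzh c * F (p.1, p.2 + c))
    (Filter.Eventually.of_forall fun c => by
      rw [Real.norm_eq_abs, abs_mul, tzh_abs, one_mul]
      exact hM _)
  rw [Real.norm_eq_abs] at h
  refine h.trans (le_of_eq ?_)
  simp [Measure.real]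

theorem U_cont (T : ℝ → ℝ) (hT : Continuous T) (M : ℝ) (hM : ∀ s, |T s| ≤ M) :
    Continuous (tzU T) := by
  set F : ℝ × ℝ → ℝ := fun p => T (p.1 * (p.2 - 1)) with hFdef
  have hF : Continuous F := by
    rw [hFdef]; fun_prop
  have hFM : ∀ s, |F s| ≤ M := fun s => hM _
  have h1 : Continuous (ucK F) := ucK_cont F hF M hFM
  have h1M : ∀ s, |ucK F s| ≤ M := ucK_bd F M hFM
  have h2 : Continuous (ucK (ucK F)) := ucK_cont _ h1 M h1M
  have h2M : ∀ s, |ucK (ucK F) s| ≤ M := ucK_bd _ M h1M
  have h3 : Continuous (ucK (ucK (ucK F))) := ucK_cont _ h2 M h2M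
  have h4 : Continuous (fun t : ℝ => ucK (ucK (ucK F)) (t, 0)) :=
    h3.comp (by fun_prop : Continuous (fun t : ℝ => ((t, 0) : ℝ × ℝ)))
  have e : tzU T = fun t : ℝ => ucK (ucK (ucK F)) (t, 0) := by
    funext t
    simp only [tzU, ucK, hFdef, zero_add]
    refine MeasureTheory.integral_congr_ae (Filter.Eventually.of_forall fun a => ?_)
    simp only []
    rw [← MeasureTheory.integral_const_mul]
    refine MeasureTheory.integral_congr_ae (Filter.Eventually.of_forall fun b => ?_)
    simp only []
    rw [← mul_assoc, ← MeasureTheory.integral_const_mul]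
    refine MeasureTheory.integral_congr_ae (Filter.Eventually.of_forall fun c => ?_)
    simp only []
    ring
  rw [e]
  exact h4

end TH71
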