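import Pool.Agent.Helper933.TR.Defs

set_option autoImplicit false
set_option linter.unusedVariables false

open Matrix MeasureTheory

namespace TH71


theorem Rdiff_aux (T : ℝ → ℝ) (hT : Continuous T) (M : ℝ) (hM : ∀ s, |T s| ≤ M)
    (a b : ℝ) (ha : 0 < a) (hb : 0 < b) :
    |∫ s in a..b, T s / s| ≤ M * |Real.log (b / a)| := by
  have hM0 : 0 ≤ M := (abs_nonneg _).trans (hM 0)
  have hpos : ∀ x ∈ Set.uIcc a b, 0 < x := by
    intro x hx
    have := (Set.mem_uIcc.mp hx)
    rcases this with h | h
    · exact ha.trans_le h.1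
    · exact hb.trans_le h.1
  have hcont : ContinuousOn (fun s : ℝ => M * s⁻¹) (Set.uIcc a b) :=
    continuousOn_const.mul (continuousOn_inv₀.mono (fun x hx => (hpos x hx).ne'))
  have h1 : ‖∫ s in a..b, T s / s‖ ≤ |∫ s in a..b, M * s⁻¹| := by
    apply intervalIntegral.norm_integral_le_abs_of_norm_le
    · rw [MeasureTheory.ae_restrict_iff' measurableSet_uIoc]
      refine MeasureTheory.ae_of_all _ ?_
      intro x hx
      have hx0 : 0 < x := hpos x (Set.uIoc_subset_uIcc hx)
      rw [Real.norm_eq_abs, abs_div, abs_of_pos hx0, div_eq_mul_inv]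
      exact mul_le_mul_of_nonneg_right (hM x) (inv_nonneg.mpr hx0.le)
    · exact hcont.intervalIntegrable
  rw [intervalIntegral.integral_const_mul, integral_inv_of_pos ha hb, abs_mul,
    abs_of_nonneg hM0] at h1
  rwa [Real.norm_eq_abs] at h1

theorem Rdiff (T : ℝ → ℝ) (hT : Continuous T) (M : ℝ) (hM : ∀ s, |T s| ≤ M)
    (ε N : ℝ) (hε : 0 < ε) (hN : ε < N) (m : ℝ) (hm : 0 < m) :
    |(∫ t in ε..N, T (t * m) / t) - ∫ t in ε..N, T t / t| ≤ 2 * M * |Real.log m| := by
  have hN0 : 0 < N := hε.trans hN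
  have e1 : (∫ t in ε..N, T (t * m) / t) = ∫ s in (ε * m)..(N * m), T s / s := by
    have h := intervalIntegral.integral_comp_mul_right (a := ε) (b := N)
      (fun s : ℝ => T s / s) hm.ne'
    have h2 : (∫ t in ε..N, T (t * m) / t) = m * ∫ t in ε..N, T (t * m) / (t * m) := by
      rw [← intervalIntegral.integral_const_mul]
      apply intervalIntegral.integral_congr
      intro t ht
      have ht0 : 0 < t := by
        rcases Set.mem_uIcc.mp ht with h | h
        · exact hε.trans_le h.1
        · exact hN0.trans_le h.1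
      simp only
      field_simp
    rw [h2, h, smul_eq_mul, ← mul_assoc, mul_inv_cancel₀ hm.ne', one_mul]
  have hint : ∀ a b : ℝ, 0 < a → 0 < b →
      IntervalIntegrable (fun s : ℝ => T s / s) MeasureTheory.volume a b := by
    intro a b ha hb
    apply ContinuousOn.intervalIntegrable
    apply ContinuousOn.div hT.continuousOn continuousOn_id
    intro x hx
    rcases Set.mem_uIcc.mp hx with h | h
    · exact (ha.trans_le h.1).ne'
    · exact (hb.trans_le h.1).ne'
  have hεm : 0 < ε * m := mul_pos hε hm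
  have hNm : 0 < N * m := mul_pos hN0 hm
  have e2 : (∫ s in (ε * m)..(N * m), T s / s) =
      (∫ s in (ε * m)..ε, T s / s) + (∫ s in ε..N, T s / s) + ∫ s in N..(N * m), T s / s := by
    rw [intervalIntegral.integral_add_adjacent_intervals (hint _ _ hεm hε) (hint _ _ hε hN0),
      intervalIntegral.integral_add_adjacent_intervals (hint _ _ hεm hN0) (hint _ _ hN0 hNm)]
  have b1 := Rdiff_aux T hT M hM (ε * m) ε hεm hε
  have b2 := Rdiff_aux T hT M hM N (N * m) hN0 hNm
  have l1 : |Real.log (ε / (ε * m))| = |Real.log m| := by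
    have : ε / (ε * m) = m⁻¹ := by field_simp
    rw [this, Real.log_inv, abs_neg]
  have l2 : |Real.log (N * m / N)| = |Real.log m| := by
    have : N * m / N = m := by field_simp
    rw [this]
  rw [l1] at b1
  rw [l2] at b2
  rw [e1, e2]
  have e3 : (∫ s in (ε * m)..ε, T s / s) + (∫ s in ε..N, T s / s) + (∫ s in N..(N * m), T s / s)
      - ∫ t in ε..N, T t / t = (∫ s in (ε * m)..ε, T s / s) + ∫ s in N..(N * m), T s / s := by
    ring
  rw [e3]
  calc |(∫ s in (ε * m)..ε, T s / s) + ∫ s in N..(N * m), T s / s|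
      ≤ |∫ s in (ε * m)..ε, T s / s| + |∫ s in N..(N * m), T s / s| := abs_add_le _ _
    _ ≤ M * |Real.log m| + M * |Real.log m| := add_le_add b1 b2
    _ = 2 * M * |Real.log m| := by ring

end TH71
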