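import Pool.Agent.Helper933.TR.Defs

set_option autoImplicit false
set_option linter.unusedVariables false

open Matrix MeasureTheory

namespace TH71


theorem fub_int3 (μ : Measure ℝ) [IsFiniteMeasure μ] (g : ℝ × ℝ × ℝ → ℝ) (hg : Measurable g)
    (C : ℝ) (hC : ∀ x, |g x| ≤ C) :
    ∫ x, g x ∂(μ.prod (μ.prod μ)) = ∫ a, ∫ b, ∫ c, g (a, b, c) ∂μ ∂μ ∂μ := by
  have h1 : Integrable g (μ.prod (μ.prod μ)) :=
    Integrable.of_bound hg.aestronglyMeasurable C (Filter.Eventually.of_forall fun x => by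
      rw [Real.norm_eq_abs]; exact hC x)
  rw [integral_prod _ h1]
  congr 1
  funext a
  have h2 : Integrable (fun y : ℝ × ℝ => g (a, y)) (μ.prod μ) :=
    Integrable.of_bound (hg.comp (measurable_const.prodMk measurable_id)).aestronglyMeasurable C
      (Filter.Eventually.of_forall fun x => by
        rw [Real.norm_eq_abs]; exact hC _)
  rw [integral_prod _ h2]

theorem fub_tzh_meas : Measurable tzh := by
  unfold tzh
  exact Measurable.ite measurableSet_Iio measurable_const measurable_const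

theorem fub_tzh_abs (x : ℝ) : |tzh x| = 1 := by
  unfold tzh
  split_ifs <;> simp

theorem fub (T : ℝ → ℝ) (hT : Continuous T) (M : ℝ) (hM : ∀ s, |T s| ≤ M)
    (ε N : ℝ) (hε : 0 < ε) (hN : ε < N) :
    ∫ t in ε..N, tzU T t / t =
      ∫ a in Set.Icc (0:ℝ) 1, ∫ b in Set.Icc (0:ℝ) 1, ∫ c in Set.Icc (0:ℝ) 1,
        tzh a * tzh b * tzh c * (∫ t in ε..N, T (t * (a + b + c - 1)) / t) := by
  let μ : Measure ℝ := volume.restrict (Set.Icc (0:ℝ) 1)
  let ν : Measure ℝ := volume.restrict (Set.Ioc ε N)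
  haveI : IsFiniteMeasure μ := ⟨by simp [μ]⟩
  haveI : IsFiniteMeasure ν := ⟨by simp [ν]⟩
  let F : ℝ → ℝ × ℝ × ℝ → ℝ := fun t x =>
    tzh x.1 * tzh x.2.1 * tzh x.2.2 * (T (t * (x.1 + x.2.1 + x.2.2 - 1)) / max t ε)
  have hFm : Measurable (Function.uncurry F) := by
    have m1 : Measurable fun p : ℝ × ℝ × ℝ × ℝ => tzh p.2.1 :=
      fub_tzh_meas.comp (measurable_fst.comp measurable_snd)
    have m2 : Measurable fun p : ℝ × ℝ × ℝ × ℝ => tzh p.2.2.1 :=
      fub_tzh_meas.comp (measurable_fst.comp (measurable_snd.comp measurable_snd))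
    have m3 : Measurable fun p : ℝ × ℝ × ℝ × ℝ => tzh p.2.2.2 :=
      fub_tzh_meas.comp (measurable_snd.comp (measurable_snd.comp measurable_snd))
    have m4 : Measurable fun p : ℝ × ℝ × ℝ × ℝ => T (p.1 * (p.2.1 + p.2.2.1 + p.2.2.2 - 1)) := by
      apply Continuous.measurable
      fun_prop
    have m5 : Measurable fun p : ℝ × ℝ × ℝ × ℝ => max p.1 ε := measurable_fst.max measurable_const
    exact ((m1.mul m2).mul m3).mul (m4.div m5)
  have hM0 : 0 ≤ M := (abs_nonneg _).trans (hM 0)
  have hFb : ∀ t x, |F t x| ≤ M / ε := by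
    intro t x
    show |tzh x.1 * tzh x.2.1 * tzh x.2.2 * (T (t * (x.1 + x.2.1 + x.2.2 - 1)) / max t ε)| ≤ M / ε
    rw [abs_mul, abs_mul, abs_mul, fub_tzh_abs, fub_tzh_abs, fub_tzh_abs, abs_div, one_mul, one_mul,
      one_mul]
    have h1 : ε ≤ |max t ε| := (le_max_right t ε).trans (le_abs_self _)
    exact div_le_div₀ hM0 (hM _) hε h1
  have hFt : ∀ t, Measurable (F t) := fun t => hFm.comp (measurable_const.prodMk measurable_id)
  -- left side
  have hL : ∫ t in ε..N, tzU T t / t = ∫ t, ∫ x, F t x ∂(μ.prod (μ.prod μ)) ∂ν := by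
    rw [intervalIntegral.integral_of_le hN.le]
    apply setIntegral_congr_fun measurableSet_Ioc
    intro t ht
    have htt : max t ε = t := max_eq_left ht.1.le
    show tzU T t / t = ∫ x, F t x ∂(μ.prod (μ.prod μ))
    rw [fub_int3 μ (F t) (hFt t) _ (hFb t)]
    unfold tzU
    rw [← integral_div]
    congr 1
    funext a
    rw [← integral_div]
    congr 1
    funext b
    rw [← integral_div]
    congr 1
    funext c
    show _ = tzh a * tzh b * tzh c * (T (t * (a + b + c - 1)) / max t ε)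
    rw [htt]
    ring
  have hInt : Integrable (Function.uncurry F) (ν.prod (μ.prod (μ.prod μ))) :=
    Integrable.of_bound hFm.aestronglyMeasurable (M / ε)
      (Filter.Eventually.of_forall fun p => by
        rw [Real.norm_eq_abs]; exact hFb p.1 p.2)
  rw [hL, integral_integral_swap hInt]
  have hGm : Measurable fun x : ℝ × ℝ × ℝ => ∫ t, F t x ∂ν := by
    have h1 : StronglyMeasurable (Function.uncurry fun (x : ℝ × ℝ × ℝ) (t : ℝ) => F t x) :=
      (hFm.comp measurable_swap).stronglyMeasurable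
    exact (h1.integral_prod_right (ν := ν)).measurable
  have hGb : ∀ x, |∫ t, F t x ∂ν| ≤ (M / ε) * ν.real Set.univ := by
    intro x
    have := norm_integral_le_of_norm_le_const (μ := ν) (f := fun t => F t x) (C := M / ε)
      (Filter.Eventually.of_forall fun t => by
        rw [Real.norm_eq_abs]; exact hFb t x)
    rwa [Real.norm_eq_abs] at this
  rw [fub_int3 μ _ hGm _ hGb]
  congr 1
  funext a
  congr 1
  funext b
  congr 1
  funext c
  rw [intervalIntegral.integral_of_le hN.le, ← integral_const_mul]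
  apply setIntegral_congr_fun measurableSet_Ioc
  intro t ht
  have htt : max t ε = t := max_eq_left ht.1.le
  show tzh a * tzh b * tzh c * (T (t * (a + b + c - 1)) / max t ε) = _
  rw [htt]

end TH71
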