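import Pool.Agent.Helper933.TR.Defs

set_option autoImplicit false
set_option linter.unusedVariables false

open Matrix MeasureTheory

namespace TH71


theorem cpl_quad (α β γ u w : ℝ) : ∫ x in u..w, (α + β*x + γ*x^2) =
    α*(w-u) + β*(w^2-u^2)/2 + γ*(w^3-u^3)/3 := by
  have h : ∀ x ∈ Set.uIcc u w, HasDerivAt (fun x => α*x + β*x^2/2 + γ*x^3/3) (α + β*x + γ*x^2) x := by
    intro x _
    have h1 := ((hasDerivAt_id x).const_mul α)
    have h2 := (((hasDerivAt_id x).pow 2).const_mul β).div_const 2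
    have h3 := (((hasDerivAt_id x).pow 3).const_mul γ).div_const 3
    have h4 := (h1.add h2).add h3
    refine h4.congr_deriv ?_
    simp
    ring
  rw [intervalIntegral.integral_eq_sub_of_hasDerivAt h
    ((by fun_prop : Continuous (fun x : ℝ => α + β*x + γ*x^2)).intervalIntegrable _ _)]
  ring

theorem cpl_piece (f : ℝ → ℝ) (α β γ u w : ℝ) (huw : u ≤ w)
    (h : ∀ x, u < x → x < w → f x = α + β*x + γ*x^2) :
    IntervalIntegrable f volume u w ∧
      ∫ x in u..w, f x = α*(w-u) + β*(w^2-u^2)/2 + γ*(w^3-u^3)/3 := by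
  have hne : ∀ᵐ x ∂(volume : Measure ℝ), x ≠ w := compl_mem_ae_iff.2 (measure_singleton w)
  have hae : ∀ᵐ x ∂(volume : Measure ℝ), x ∈ Set.uIoc u w → f x = α + β*x + γ*x^2 := by
    filter_upwards [hne] with x hx hx'
    rw [Set.uIoc_of_le huw] at hx'
    exact h x hx'.1 (lt_of_le_of_ne hx'.2 hx)
  constructor
  · have hc : IntervalIntegrable (fun x : ℝ => α + β*x + γ*x^2) volume u w :=
      (by fun_prop : Continuous (fun x : ℝ => α + β*x + γ*x^2)).intervalIntegrable _ _
    refine hc.congr_ae ?_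
    rw [Filter.EventuallyEq, ae_restrict_iff' measurableSet_uIoc]
    filter_upwards [hae] with x hx hx'
    exact (hx hx').symm
  · rw [intervalIntegral.integral_congr_ae hae, cpl_quad]

theorem cpl_icc (f : ℝ → ℝ) : ∫ x in Set.Icc (0:ℝ) 1, f x = ∫ x in (0:ℝ)..1, f x := by
  rw [integral_Icc_eq_integral_Ioc, intervalIntegral.integral_of_le zero_le_one]

theorem tzh_lt {x : ℝ} (h : x < 1/2) : tzh x = 1 := by unfold tzh; rw [if_pos h]
theorem tzh_gt {x : ℝ} (h : 1/2 < x) : tzh x = -1 := by unfold tzh; rw [if_neg (by linarith)]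

/-- tent -/
noncomputable def tent (v : ℝ) : ℝ := max 0 (min v (1-v))

theorem tent_zero {v : ℝ} (h : v ≤ 0) : tent v = 0 := by
  unfold tent; rw [max_eq_left]; exact (min_le_left _ _).trans h
theorem tent_one {v : ℝ} (h : 1 ≤ v) : tent v = 0 := by
  unfold tent; rw [max_eq_left]; exact (min_le_right _ _).trans (by linarith)
theorem tent_left {v : ℝ} (h : 0 ≤ v) (h2 : v ≤ 1/2) : tent v = v := by
  unfold tent; rw [min_eq_left (by linarith), max_eq_right h]
theorem tent_right {v : ℝ} (h : 1/2 ≤ v) (h2 : v ≤ 1) : tent v = 1 - v := by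
  unfold tent; rw [min_eq_right (by linarith), max_eq_right (by linarith)]

theorem cpl_inner (v : ℝ) : ∫ c in (0:ℝ)..1, tzh c * (if v < c then (1:ℝ) else 0) = - tent v := by
  rcases le_or_gt v 0 with h0 | h0
  · obtain ⟨i1, e1⟩ := cpl_piece (fun c => tzh c * (if v < c then (1:ℝ) else 0)) 1 0 0 0 (1/2) (by norm_num)
      (fun x h1 h2 => by
        show tzh x * (if v < x then (1:ℝ) else 0) = _
        rw [tzh_lt h2, if_pos (by linarith)]; ring)
    obtain ⟨i2, e2⟩ := cpl_piece (fun c => tzh c * (if v < c then (1:ℝ) else 0)) (-1) 0 0 (1/2) 1 (by norm_num)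
      (fun x h1 h2 => by
        show tzh x * (if v < x then (1:ℝ) else 0) = _
        rw [tzh_gt h1, if_pos (by linarith)]; ring)
    rw [← intervalIntegral.integral_add_adjacent_intervals i1 i2, e1, e2, tent_zero h0]
    norm_num
  rcases le_or_gt 1 v with h1 | h1
  · obtain ⟨i1, e1⟩ := cpl_piece (fun c => tzh c * (if v < c then (1:ℝ) else 0)) 0 0 0 0 1 (by norm_num)
      (fun x h1 h2 => by
        show tzh x * (if v < x then (1:ℝ) else 0) = _
        rw [if_neg (by linarith)]; ring)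
    rw [e1, tent_one h1]
    norm_num
  rcases le_or_gt v (1/2) with h2 | h2
  · obtain ⟨i0, e0⟩ := cpl_piece (fun c => tzh c * (if v < c then (1:ℝ) else 0)) 0 0 0 0 v h0.le
      (fun x h1 h2 => by
        show tzh x * (if v < x then (1:ℝ) else 0) = _
        rw [if_neg (by linarith)]; ring)
    obtain ⟨i1, e1⟩ := cpl_piece (fun c => tzh c * (if v < c then (1:ℝ) else 0)) 1 0 0 v (1/2) h2
      (fun x h1 h2 => by
        show tzh x * (if v < x then (1:ℝ) else 0) = _
        rw [tzh_lt h2, if_pos (by linarith)]; ring)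
    obtain ⟨i2, e2⟩ := cpl_piece (fun c => tzh c * (if v < c then (1:ℝ) else 0)) (-1) 0 0 (1/2) 1 (by norm_num)
      (fun x h1 h2 => by
        show tzh x * (if v < x then (1:ℝ) else 0) = _
        rw [tzh_gt h1, if_pos (by linarith)]; ring)
    rw [← intervalIntegral.integral_add_adjacent_intervals (i0.trans i1) i2,
      ← intervalIntegral.integral_add_adjacent_intervals i0 i1, e0, e1, e2, tent_left h0.le h2]
    ring
  · obtain ⟨i0, e0⟩ := cpl_piece (fun c => tzh c * (if v < c then (1:ℝ) else 0)) 0 0 0 0 v h0.le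
      (fun x h1 h2 => by
        show tzh x * (if v < x then (1:ℝ) else 0) = _
        rw [if_neg (by linarith)]; ring)
    obtain ⟨i2, e2⟩ := cpl_piece (fun c => tzh c * (if v < c then (1:ℝ) else 0)) (-1) 0 0 v 1 h1.le
      (fun x h1 h3 => by
        show tzh x * (if v < x then (1:ℝ) else 0) = _
        rw [tzh_gt (by linarith), if_pos (by linarith)]; ring)
    rw [← intervalIntegral.integral_add_adjacent_intervals i0 i2, e0, e2, tent_right h2.le h1.le]
    ring

theorem cpl_mid1 (a : ℝ) (h0 : 0 ≤ a) (h1 : a ≤ 1/2) :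
    ∫ b in (0:ℝ)..1, tzh b * (- tent (1 - a - b)) = -(a - 3/2 * a^2) := by
  obtain ⟨i0, e0⟩ := cpl_piece (fun b => tzh b * (- tent (1 - a - b))) (-a) (-1) 0 0 (1/2 - a) (by linarith)
    (fun x h1 h2 => by
      show tzh x * (- tent (1 - a - x)) = _
      rw [tzh_lt (by linarith), tent_right (by linarith) (by linarith)]; ring)
  obtain ⟨i1, e1⟩ := cpl_piece (fun b => tzh b * (- tent (1 - a - b))) (-(1-a)) 1 0 (1/2 - a) (1/2) (by linarith)
    (fun x h1 h2 => by
      show tzh x * (- tent (1 - a - x)) = _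
      rw [tzh_lt (by linarith), tent_left (by linarith) (by linarith)]; ring)
  obtain ⟨i2, e2⟩ := cpl_piece (fun b => tzh b * (- tent (1 - a - b))) (1-a) (-1) 0 (1/2) (1-a) (by linarith)
    (fun x h1 h2 => by
      show tzh x * (- tent (1 - a - x)) = _
      rw [tzh_gt (by linarith), tent_left (by linarith) (by linarith)]; ring)
  obtain ⟨i3, e3⟩ := cpl_piece (fun b => tzh b * (- tent (1 - a - b))) 0 0 0 (1-a) 1 (by linarith)
    (fun x h1 h2 => by
      show tzh x * (- tent (1 - a - x)) = _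
      rw [tent_zero (by linarith)]; ring)
  rw [← intervalIntegral.integral_add_adjacent_intervals ((i0.trans i1).trans i2) i3,
    ← intervalIntegral.integral_add_adjacent_intervals (i0.trans i1) i2,
    ← intervalIntegral.integral_add_adjacent_intervals i0 i1, e0, e1, e2, e3]
  ring

theorem cpl_mid2 (a : ℝ) (h0 : 1/2 ≤ a) (h1 : a ≤ 1) :
    ∫ b in (0:ℝ)..1, tzh b * (- tent (1 - a - b)) = -((1-a)^2/2) := by
  obtain ⟨i0, e0⟩ := cpl_piece (fun b => tzh b * (- tent (1 - a - b))) (-(1-a)) 1 0 0 (1 - a) (by linarith)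
    (fun x h1 h2 => by
      show tzh x * (- tent (1 - a - x)) = _
      rw [tzh_lt (by linarith), tent_left (by linarith) (by linarith)]; ring)
  obtain ⟨i1, e1⟩ := cpl_piece (fun b => tzh b * (- tent (1 - a - b))) 0 0 0 (1 - a) 1 (by linarith)
    (fun x h1 h2 => by
      show tzh x * (- tent (1 - a - x)) = _
      rw [tent_zero (by linarith)]; ring)
  rw [← intervalIntegral.integral_add_adjacent_intervals i0 i1, e0, e1]
  ring

theorem cpl_in (a b : ℝ) : (∫ c in Set.Icc (0:ℝ) 1,
    tzh a * tzh b * tzh c * (if 0 < a + b + c - 1 then (1:ℝ) else 0)) =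
    tzh a * (tzh b * (- tent (1 - a - b))) := by
  rw [cpl_icc, ← cpl_inner (1 - a - b), ← mul_assoc, ← intervalIntegral.integral_const_mul]
  congr 1
  ext c
  have e : (if 0 < a + b + c - 1 then (1:ℝ) else 0) = (if 1 - a - b < c then (1:ℝ) else 0) := by
    by_cases h : 0 < a + b + c - 1
    · rw [if_pos h, if_pos (by linarith)]
    · rw [if_neg h, if_neg (by linarith)]
  rw [e]
  ring

theorem cplus : (∫ a in Set.Icc (0:ℝ) 1, ∫ b in Set.Icc (0:ℝ) 1, ∫ c in Set.Icc (0:ℝ) 1,
    tzh a * tzh b * tzh c * (if 0 < a + b + c - 1 then (1:ℝ) else 0)) = -1/24 := by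
  simp_rw [cpl_in]
  simp_rw [cpl_icc]
  simp_rw [intervalIntegral.integral_const_mul]
  obtain ⟨i1, e1⟩ := cpl_piece (fun a => tzh a * ∫ b in (0:ℝ)..1, tzh b * (- tent (1 - a - b)))
    0 (-1) (3/2) 0 (1/2) (by norm_num)
    (fun x h1 h2 => by
      show tzh x * (∫ b in (0:ℝ)..1, tzh b * (- tent (1 - x - b))) = _
      rw [tzh_lt h2, cpl_mid1 x h1.le h2.le]; ring)
  obtain ⟨i2, e2⟩ := cpl_piece (fun a => tzh a * ∫ b in (0:ℝ)..1, tzh b * (- tent (1 - a - b)))
    (1/2) (-1) (1/2) (1/2) 1 (by norm_num)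
    (fun x h1 h2 => by
      show tzh x * (∫ b in (0:ℝ)..1, tzh b * (- tent (1 - x - b))) = _
      rw [tzh_gt h1, cpl_mid2 x h1.le h2.le]; ring)
  rw [← intervalIntegral.integral_add_adjacent_intervals i1 i2, e1, e2]
  norm_num

end TH71
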