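import Pool.Agent.Helper933.TR.Defs

set_option autoImplicit false
set_option linter.unusedVariables false

open Matrix MeasureTheory

namespace TH71


theorem czero_aux : (∫ c in Set.Icc (0:ℝ) 1, tzh c) = 0 := by
  rw [MeasureTheory.integral_Icc_eq_integral_Ioc, ← intervalIntegral.integral_of_le zero_le_one]
  have h1 : (∫ c in (0:ℝ)..(1/2), tzh c) = ∫ c in (0:ℝ)..(1/2), (1:ℝ) := by
    apply intervalIntegral.integral_congr_ae
    have h0 : ∀ᵐ x : ℝ ∂MeasureTheory.volume, x ≠ 1/2 := by
      simp [MeasureTheory.ae_iff, MeasureTheory.measure_singleton]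
    filter_upwards [h0] with x hx hx2
    rw [Set.uIoc_of_le (by norm_num)] at hx2
    unfold tzh
    rw [if_pos (lt_of_le_of_ne hx2.2 hx)]
  have h2 : (∫ c in (1/2:ℝ)..1, tzh c) = ∫ c in (1/2:ℝ)..1, (-1:ℝ) := by
    apply intervalIntegral.integral_congr_ae
    filter_upwards with x hx2
    rw [Set.uIoc_of_le (by norm_num)] at hx2
    unfold tzh
    rw [if_neg (not_lt.mpr hx2.1.le)]
  have hi1 : IntervalIntegrable tzh MeasureTheory.volume 0 (1/2) := by
    have h3 : IntervalIntegrable (fun _ : ℝ => (1:ℝ)) MeasureTheory.volume 0 (1/2) :=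
      intervalIntegrable_const
    refine h3.congr_ae ?_
    rw [Set.uIoc_of_le (by norm_num)]
    have h0 : ∀ᵐ x : ℝ ∂(MeasureTheory.volume.restrict (Set.Ioc (0:ℝ) (1/2))), x ≠ 1/2 := by
      apply MeasureTheory.ae_restrict_of_ae
      simp [MeasureTheory.ae_iff, MeasureTheory.measure_singleton]
    filter_upwards [h0, MeasureTheory.ae_restrict_mem measurableSet_Ioc] with x hx hx2
    unfold tzh
    rw [if_pos (lt_of_le_of_ne hx2.2 hx)]
  have hi2 : IntervalIntegrable tzh MeasureTheory.volume (1/2) 1 := by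
    have h3 : IntervalIntegrable (fun _ : ℝ => (-1:ℝ)) MeasureTheory.volume (1/2) 1 :=
      intervalIntegrable_const
    refine h3.congr_ae ?_
    rw [Set.uIoc_of_le (by norm_num)]
    filter_upwards [MeasureTheory.ae_restrict_mem measurableSet_Ioc] with x hx2
    unfold tzh
    rw [if_neg (not_lt.mpr hx2.1.le)]
  rw [← intervalIntegral.integral_add_adjacent_intervals hi1 hi2, h1, h2]
  simp
  norm_num

theorem czero : (∫ a in Set.Icc (0:ℝ) 1, ∫ b in Set.Icc (0:ℝ) 1, ∫ c in Set.Icc (0:ℝ) 1,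
    tzh a * tzh b * tzh c) = 0 := by
  have h : ∀ a b : ℝ, (∫ c in Set.Icc (0:ℝ) 1, tzh a * tzh b * tzh c) = 0 := by
    intro a b
    rw [MeasureTheory.integral_const_mul, czero_aux, mul_zero]
  simp only [h, MeasureTheory.integral_zero]

end TH71
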