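import Pool.Agent.Helper933.TR.Defs

set_option autoImplicit false
set_option linter.unusedVariables false

open Matrix MeasureTheory

namespace TH71


theorem logint : (∀ x : ℝ, -1 ≤ x → x ≤ 1 →
      IntegrableOn (fun c : ℝ => |Real.log (x + c)|) (Set.Icc (0:ℝ) 1) ∧
      ∫ c in Set.Icc (0:ℝ) 1, |Real.log (x + c)| ≤ 10) := by
  intro x hx1 hx2
  have hlog : IntervalIntegrable (fun c : ℝ => Real.log (x + c)) volume 0 1 := by
    have h := (intervalIntegral.intervalIntegrable_log' (a := x) (b := x + 1)).comp_add_left x
    simpa using h
  have habs : IntervalIntegrable (fun c : ℝ => |Real.log (x + c)|) volume 0 1 := hlog.abs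
  refine ⟨?_, ?_⟩
  · rw [intervalIntegrable_iff_integrableOn_Icc_of_le zero_le_one] at habs
    exact habs
  · rw [integral_Icc_eq_integral_Ioc, ← intervalIntegral.integral_of_le zero_le_one]
    have hpt : ∀ u : ℝ, |u| ≤ 2 → |Real.log u| ≤ 2 - Real.log u := by
      intro u hu
      rcases eq_or_ne u 0 with h0 | h0
      · subst h0; simp
      · have hpos : 0 < |u| := abs_pos.mpr h0
        have h1 : Real.log u ≤ 1 := by
          rw [← Real.log_abs]
          have := Real.log_le_sub_one_of_pos hpos
          linarith
        rw [abs_le]
        constructor <;> linarith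
    have hmono : ∫ c in (0:ℝ)..1, |Real.log (x + c)| ≤ ∫ c in (0:ℝ)..1, (2 - Real.log (x + c)) := by
      refine intervalIntegral.integral_mono_on zero_le_one habs ?_ ?_
      · exact (intervalIntegrable_const).sub hlog
      · intro c hc
        refine hpt _ ?_
        rw [abs_le]
        constructor <;> linarith [hc.1, hc.2]
    have hval : ∫ c in (0:ℝ)..1, (2 - Real.log (x + c)) =
        2 - ((x + 1) * Real.log (x + 1) - x * Real.log x - (x + 1) + x) := by
      rw [intervalIntegral.integral_sub intervalIntegrable_const hlog]
      rw [intervalIntegral.integral_comp_add_left (fun t => Real.log t) x, integral_log]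
      simp
    have hb1 : -1 ≤ (x + 1) * Real.log (x + 1) := by
      rcases eq_or_lt_of_le (show (0:ℝ) ≤ x + 1 by linarith) with h0 | h0
      · rw [← h0]; simp
      · have h := Real.one_sub_inv_le_log_of_pos h0
        have h' := mul_le_mul_of_nonneg_left h h0.le
        have e : (x + 1) * (1 - (x + 1)⁻¹) = x := by field_simp; ring
        rw [e] at h'
        linarith
    have hb2 : x * Real.log x ≤ 1 := by
      rcases le_or_gt 0 x with h0 | h0
      · have : Real.log x ≤ 0 := Real.log_nonpos h0 hx2
        nlinarith
      · have hneg : 0 < -x := by linarith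
        have h := Real.one_sub_inv_le_log_of_pos hneg
        rw [Real.log_neg_eq_log] at h
        have h' := mul_le_mul_of_nonneg_left h hneg.le
        have e : (-x) * (1 - (-x)⁻¹) = -x - 1 := by
          have : (-x) * (-x)⁻¹ = 1 := mul_inv_cancel₀ hneg.ne'
          rw [mul_sub, this, mul_one]
        rw [e] at h'
        nlinarith
    linarith

end TH71
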