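import Pool.Agent.Helper933.TR.Defs
import Pool.Agent.Helper933.TR.P_cplus
import Pool.Agent.Helper933.TR.P_czero
import Pool.Agent.Helper933.TR.P_logint

set_option autoImplicit false
set_option linter.unusedVariables false

open Matrix MeasureTheory

namespace TH71


theorem tzh_meas_771 : Measurable tzh := by
  unfold tzh
  exact Measurable.ite measurableSet_Iio measurable_const measurable_const

theorem tzh_abs_771 (x : ℝ) : |tzh x| = 1 := by
  unfold tzh; split_ifs <;> simp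

theorem tri_gen_771 (Ψ : ℝ → ℝ) (hΨ : Measurable Ψ) (C K : ℝ) (hK : 0 ≤ K)
    (h : ∀ m, |Ψ m| ≤ C + K * |Real.log m|) :
    (∀ a ∈ Set.Icc (0:ℝ) 1, ∀ b ∈ Set.Icc (0:ℝ) 1,
      IntegrableOn (fun c => tzh a * tzh b * tzh c * Ψ (a + b + c - 1)) (Set.Icc (0:ℝ) 1)) ∧
    (∀ a ∈ Set.Icc (0:ℝ) 1,
      IntegrableOn (fun b => ∫ c in Set.Icc (0:ℝ) 1, tzh a * tzh b * tzh c * Ψ (a + b + c - 1))
        (Set.Icc (0:ℝ) 1)) ∧
    IntegrableOn (fun a => ∫ b in Set.Icc (0:ℝ) 1, ∫ c in Set.Icc (0:ℝ) 1,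
      tzh a * tzh b * tzh c * Ψ (a + b + c - 1)) (Set.Icc (0:ℝ) 1) := by
  have hm3 : Measurable (fun p : (ℝ × ℝ) × ℝ =>
      tzh p.1.1 * tzh p.1.2 * tzh p.2 * Ψ (p.1.1 + p.1.2 + p.2 - 1)) := by
    have h0 := tzh_meas_771
    refine (((h0.comp (measurable_fst.comp measurable_fst)).mul
      (h0.comp (measurable_snd.comp measurable_fst))).mul (h0.comp measurable_snd)).mul
      (hΨ.comp ?_)
    exact (((measurable_fst.comp measurable_fst).add (measurable_snd.comp measurable_fst)).add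
      measurable_snd).sub measurable_const
  have hm2 : StronglyMeasurable (fun p : ℝ × ℝ => ∫ c in Set.Icc (0:ℝ) 1,
      tzh p.1 * tzh p.2 * tzh c * Ψ (p.1 + p.2 + c - 1)) := by
    exact MeasureTheory.StronglyMeasurable.integral_prod_right
      (f := fun (p : ℝ × ℝ) (c : ℝ) => tzh p.1 * tzh p.2 * tzh c * Ψ (p.1 + p.2 + c - 1))
      (ν := volume.restrict (Set.Icc (0:ℝ) 1)) hm3.stronglyMeasurable
  have hm1 : StronglyMeasurable (fun a : ℝ => ∫ b in Set.Icc (0:ℝ) 1, ∫ c in Set.Icc (0:ℝ) 1,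
      tzh a * tzh b * tzh c * Ψ (a + b + c - 1)) := by
    exact MeasureTheory.StronglyMeasurable.integral_prod_right
      (f := fun (a : ℝ) (b : ℝ) => ∫ c in Set.Icc (0:ℝ) 1,
        tzh a * tzh b * tzh c * Ψ (a + b + c - 1))
      (ν := volume.restrict (Set.Icc (0:ℝ) 1)) hm2
  have hbd : ∀ a b c : ℝ, ‖tzh a * tzh b * tzh c * Ψ (a + b + c - 1)‖ ≤
      C + K * |Real.log (a + b - 1 + c)| := by
    intro a b c
    rw [Real.norm_eq_abs, abs_mul, abs_mul, abs_mul, tzh_abs_771, tzh_abs_771, tzh_abs_771,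
      one_mul, one_mul, one_mul]
    have h2 := h (a + b + c - 1)
    rw [show a + b - 1 + c = a + b + c - 1 by ring]; exact h2
  have hdom : ∀ a ∈ Set.Icc (0:ℝ) 1, ∀ b ∈ Set.Icc (0:ℝ) 1,
      IntegrableOn (fun c : ℝ => C + K * |Real.log (a + b - 1 + c)|) (Set.Icc (0:ℝ) 1) := by
    intro a ha b hb
    have hl := (logint (a + b - 1) (by linarith [ha.1, hb.1]) (by linarith [ha.2, hb.2])).1
    exact (integrable_const C).add (hl.const_mul K)
  have hvol : volume.real (Set.Icc (0:ℝ) 1) = 1 := by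
    simp [Measure.real]
  have h1 : ∀ a ∈ Set.Icc (0:ℝ) 1, ∀ b ∈ Set.Icc (0:ℝ) 1,
      IntegrableOn (fun c => tzh a * tzh b * tzh c * Ψ (a + b + c - 1)) (Set.Icc (0:ℝ) 1) := by
    intro a ha b hb
    refine Integrable.mono' (hdom a ha b hb) ?_ (Filter.Eventually.of_forall fun c => hbd a b c)
    exact (hm3.comp (measurable_const.prodMk measurable_id : Measurable
      (fun c : ℝ => ((a, b), c)))).aestronglyMeasurable
  have hB2 : ∀ a ∈ Set.Icc (0:ℝ) 1, ∀ b ∈ Set.Icc (0:ℝ) 1,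
      ‖∫ c in Set.Icc (0:ℝ) 1, tzh a * tzh b * tzh c * Ψ (a + b + c - 1)‖ ≤ C + K * 10 := by
    intro a ha b hb
    have hl := logint (a + b - 1) (by linarith [ha.1, hb.1]) (by linarith [ha.2, hb.2])
    calc ‖∫ c in Set.Icc (0:ℝ) 1, tzh a * tzh b * tzh c * Ψ (a + b + c - 1)‖
        ≤ ∫ c in Set.Icc (0:ℝ) 1, (C + K * |Real.log (a + b - 1 + c)|) :=
          norm_integral_le_of_norm_le (hdom a ha b hb)
            (Filter.Eventually.of_forall fun c => hbd a b c)
      _ = C + K * ∫ c in Set.Icc (0:ℝ) 1, |Real.log (a + b - 1 + c)| := by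
          rw [integral_add (integrable_const C) (hl.1.const_mul K), integral_const_mul]
          simp
      _ ≤ C + K * 10 := by
          have := mul_le_mul_of_nonneg_left hl.2 hK
          linarith
  have h2 : ∀ a ∈ Set.Icc (0:ℝ) 1,
      IntegrableOn (fun b => ∫ c in Set.Icc (0:ℝ) 1, tzh a * tzh b * tzh c * Ψ (a + b + c - 1))
        (Set.Icc (0:ℝ) 1) := by
    intro a ha
    refine Integrable.mono' (integrable_const (C + K * 10)) ?_ ?_
    · exact (hm2.comp_measurable (measurable_const.prodMk measurable_id : Measurable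
        (fun b : ℝ => (a, b)))).aestronglyMeasurable
    · rw [ae_restrict_iff' measurableSet_Icc]
      exact Filter.Eventually.of_forall fun b hb => hB2 a ha b hb
  refine ⟨h1, h2, ?_⟩
  refine Integrable.mono' (integrable_const (C + K * 10)) hm1.aestronglyMeasurable ?_
  rw [ae_restrict_iff' measurableSet_Icc]
  refine Filter.Eventually.of_forall fun a ha => ?_
  calc ‖∫ b in Set.Icc (0:ℝ) 1, ∫ c in Set.Icc (0:ℝ) 1,
      tzh a * tzh b * tzh c * Ψ (a + b + c - 1)‖
      ≤ ∫ b in Set.Icc (0:ℝ) 1, (C + K * 10) := by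
        refine norm_integral_le_of_norm_le (integrable_const (C + K * 10)) ?_
        rw [ae_restrict_iff' measurableSet_Icc]
        exact Filter.Eventually.of_forall fun b hb => hB2 a ha b hb
    _ = C + K * 10 := by simp

theorem tri_cmp_771 (u v : ℝ → ℝ) (B : ℝ) (hu : IntegrableOn u (Set.Icc (0:ℝ) 1))
    (hv : IntegrableOn v (Set.Icc (0:ℝ) 1)) (h : ∀ x ∈ Set.Icc (0:ℝ) 1, |u x - v x| ≤ B) :
    |(∫ x in Set.Icc (0:ℝ) 1, u x) - ∫ x in Set.Icc (0:ℝ) 1, v x| ≤ B := by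
  rw [← integral_sub hu hv, ← Real.norm_eq_abs]
  calc ‖∫ x in Set.Icc (0:ℝ) 1, (u x - v x)‖ ≤ ∫ x in Set.Icc (0:ℝ) 1, B := by
        refine norm_integral_le_of_norm_le (integrable_const B) ?_
        rw [ae_restrict_iff' measurableSet_Icc]
        exact Filter.Eventually.of_forall fun b hb => h b hb
    _ = B := by simp

/-- nested integrals: if the inner integrand differs from `ηηη (α 1_{>0} + β 1_{<0})` by `K |log|` -/
theorem triple (Φ : ℝ → ℝ) (hΦ : Measurable Φ) (α β K : ℝ) (hK : 0 ≤ K)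
    (hp : ∀ m : ℝ, 0 < m → |Φ m - α| ≤ K * |Real.log m|)
    (hn : ∀ m : ℝ, m < 0 → |Φ m - β| ≤ K * |Real.log m|) :
    |(∫ a in Set.Icc (0:ℝ) 1, ∫ b in Set.Icc (0:ℝ) 1, ∫ c in Set.Icc (0:ℝ) 1,
        tzh a * tzh b * tzh c * Φ (a + b + c - 1)) + (1/24) * (α - β)| ≤ 10 * K := by
  set Mo : ℝ → ℝ := fun m => if 0 < m then α else β with hMo
  have hMm : Measurable Mo := Measurable.ite measurableSet_Ioi measurable_const measurable_const
  have gΦ := tri_gen_771 Φ hΦ (|α| + |β| + |Φ 0|) K hK (by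
    intro m
    have h1 := abs_nonneg α
    have h2 := abs_nonneg β
    have h3 := abs_nonneg (Φ 0)
    rcases lt_trichotomy m 0 with hm | hm | hm
    · have h4 := hn m hm
      have h5 : |Φ m| ≤ |Φ m - β| + |β| := by
        calc |Φ m| = |(Φ m - β) + β| := by ring_nf
          _ ≤ _ := abs_add_le _ _
      linarith
    · subst hm
      simp
      positivity
    · have h4 := hp m hm
      have h5 : |Φ m| ≤ |Φ m - α| + |α| := by
        calc |Φ m| = |(Φ m - α) + α| := by ring_nf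
          _ ≤ _ := abs_add_le _ _
      linarith)
  have gM := tri_gen_771 Mo hMm (|α| + |β|) 0 le_rfl (by
    intro m
    have h1 := abs_nonneg α
    have h2 := abs_nonneg β
    simp only [hMo]
    split_ifs <;> linarith)
  have gI := tri_gen_771 (fun m => if 0 < m then (1:ℝ) else 0)
    (Measurable.ite measurableSet_Ioi measurable_const measurable_const) 1 0 le_rfl (by
    intro m
    split_ifs <;> simp)
  have gO := tri_gen_771 (fun _ => (1:ℝ)) measurable_const 1 0 le_rfl (by intro m; simp)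
  -- the model
  have hmodel : (∫ a in Set.Icc (0:ℝ) 1, ∫ b in Set.Icc (0:ℝ) 1, ∫ c in Set.Icc (0:ℝ) 1,
      tzh a * tzh b * tzh c * Mo (a + b + c - 1)) = (α - β) * (-1/24) := by
    have e3 : ∀ a ∈ Set.Icc (0:ℝ) 1, ∀ b ∈ Set.Icc (0:ℝ) 1,
        (∫ c in Set.Icc (0:ℝ) 1, tzh a * tzh b * tzh c * Mo (a + b + c - 1)) =
        (α - β) * (∫ c in Set.Icc (0:ℝ) 1, tzh a * tzh b * tzh c *
          (if 0 < a + b + c - 1 then (1:ℝ) else 0)) +
        β * (∫ c in Set.Icc (0:ℝ) 1, tzh a * tzh b * tzh c * 1) := by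
      intro a ha b hb
      rw [← integral_const_mul, ← integral_const_mul,
        ← integral_add ((gI.1 a ha b hb).const_mul _) ((gO.1 a ha b hb).const_mul _)]
      refine integral_congr_ae (Filter.Eventually.of_forall fun c => ?_)
      simp only [hMo]
      split_ifs <;> ring
    have e2 : ∀ a ∈ Set.Icc (0:ℝ) 1,
        (∫ b in Set.Icc (0:ℝ) 1, ∫ c in Set.Icc (0:ℝ) 1,
          tzh a * tzh b * tzh c * Mo (a + b + c - 1)) =
        (α - β) * (∫ b in Set.Icc (0:ℝ) 1, ∫ c in Set.Icc (0:ℝ) 1, tzh a * tzh b * tzh c *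
          (if 0 < a + b + c - 1 then (1:ℝ) else 0)) +
        β * (∫ b in Set.Icc (0:ℝ) 1, ∫ c in Set.Icc (0:ℝ) 1, tzh a * tzh b * tzh c * 1) := by
      intro a ha
      rw [← integral_const_mul, ← integral_const_mul,
        ← integral_add ((gI.2.1 a ha).const_mul _) ((gO.2.1 a ha).const_mul _)]
      exact setIntegral_congr_fun measurableSet_Icc fun b hb => e3 a ha b hb
    have e1 : (∫ a in Set.Icc (0:ℝ) 1, ∫ b in Set.Icc (0:ℝ) 1, ∫ c in Set.Icc (0:ℝ) 1,
          tzh a * tzh b * tzh c * Mo (a + b + c - 1)) =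
        (α - β) * (∫ a in Set.Icc (0:ℝ) 1, ∫ b in Set.Icc (0:ℝ) 1, ∫ c in Set.Icc (0:ℝ) 1,
          tzh a * tzh b * tzh c * (if 0 < a + b + c - 1 then (1:ℝ) else 0)) +
        β * (∫ a in Set.Icc (0:ℝ) 1, ∫ b in Set.Icc (0:ℝ) 1, ∫ c in Set.Icc (0:ℝ) 1,
          tzh a * tzh b * tzh c * 1) := by
      rw [← integral_const_mul, ← integral_const_mul,
        ← integral_add (gI.2.2.const_mul _) (gO.2.2.const_mul _)]
      exact setIntegral_congr_fun measurableSet_Icc fun a ha => e2 a ha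
    rw [e1, cplus]
    have h0 : (∫ a in Set.Icc (0:ℝ) 1, ∫ b in Set.Icc (0:ℝ) 1, ∫ c in Set.Icc (0:ℝ) 1,
          tzh a * tzh b * tzh c * 1) = 0 := by
      simp only [mul_one]; exact czero
    rw [h0]; ring
  have hdiff : (∫ a in Set.Icc (0:ℝ) 1, ∫ b in Set.Icc (0:ℝ) 1, ∫ c in Set.Icc (0:ℝ) 1,
        tzh a * tzh b * tzh c * Φ (a + b + c - 1)) + (1/24) * (α - β) =
      (∫ a in Set.Icc (0:ℝ) 1, ∫ b in Set.Icc (0:ℝ) 1, ∫ c in Set.Icc (0:ℝ) 1,
        tzh a * tzh b * tzh c * Φ (a + b + c - 1)) -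
      (∫ a in Set.Icc (0:ℝ) 1, ∫ b in Set.Icc (0:ℝ) 1, ∫ c in Set.Icc (0:ℝ) 1,
        tzh a * tzh b * tzh c * Mo (a + b + c - 1)) := by
    rw [hmodel]; ring
  rw [hdiff]
  refine tri_cmp_771 _ _ _ gΦ.2.2 gM.2.2 fun a ha => ?_
  refine tri_cmp_771 _ _ _ (gΦ.2.1 a ha) (gM.2.1 a ha) fun b hb => ?_
  have hl := logint (a + b - 1) (by linarith [ha.1, hb.1]) (by linarith [ha.2, hb.2])
  rw [← integral_sub (gΦ.1 a ha b hb) (gM.1 a ha b hb), ← Real.norm_eq_abs]
  calc ‖∫ c in Set.Icc (0:ℝ) 1, (tzh a * tzh b * tzh c * Φ (a + b + c - 1) -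
        tzh a * tzh b * tzh c * Mo (a + b + c - 1))‖
      ≤ ∫ c in Set.Icc (0:ℝ) 1, K * |Real.log (a + b - 1 + c)| := by
        refine norm_integral_le_of_norm_le (hl.1.const_mul K) ?_
        have hne : ∀ᵐ c ∂(volume.restrict (Set.Icc (0:ℝ) 1)), c ≠ 1 - a - b := by
          refine ae_restrict_of_ae ?_
          exact Measure.ae_ne volume _
        filter_upwards [hne] with c hc
        have hm : a + b + c - 1 ≠ 0 := by
          intro h0; apply hc; linarith
        rw [← mul_sub, Real.norm_eq_abs, abs_mul, abs_mul, abs_mul, tzh_abs_771, tzh_abs_771,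
          tzh_abs_771, one_mul, one_mul, one_mul,
          show a + b - 1 + c = a + b + c - 1 by ring]
        rcases lt_or_gt_of_ne hm with hlt | hgt
        · have : Mo (a + b + c - 1) = β := by simp only [hMo]; rw [if_neg (not_lt.mpr hlt.le)]
          rw [this]; exact hn _ hlt
        · have : Mo (a + b + c - 1) = α := by simp only [hMo]; rw [if_pos hgt]
          rw [this]; exact hp _ hgt
    _ = K * ∫ c in Set.Icc (0:ℝ) 1, |Real.log (a + b - 1 + c)| := integral_const_mul _ _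
    _ ≤ K * 10 := mul_le_mul_of_nonneg_left hl.2 hK
    _ = 10 * K := by ring

end TH71
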