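import Pool.Agent.Helper933.TR.Defs
import Pool.Agent.Helper933.TR.P_fub
import Pool.Agent.Helper933.TR.P_Rdiff
import Pool.Agent.Helper933.TR.P_triple

set_option autoImplicit false
set_option linter.unusedVariables false

open Matrix MeasureTheory

namespace TH71


theorem comb (T : ℝ → ℝ) (hT : Continuous T) (M : ℝ) (hM : ∀ s, |T s| ≤ M)
    (ε N : ℝ) (hε : 0 < ε) (hN : ε < N) :
    |(∫ t in ε..N, tzU T t / t) +
      (1/24) * ((∫ t in ε..N, T t / t) - ∫ t in ε..N, T (-t) / t)| ≤ 20 * M := by
  have hM0 : 0 ≤ M := (abs_nonneg _).trans (hM 0)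
  rw [fub T hT M hM ε N hε hN]
  have hcont : Continuous (fun m : ℝ => ∫ t in ε..N, T (t * m) / t) := by
    have h1 : Continuous (fun m : ℝ => ∫ t in ε..N, T (t * m) / max t ε) := by
      refine intervalIntegral.continuous_parametric_intervalIntegral_of_continuous' (μ := volume)
        (f := fun m t => T (t * m) / max t ε) ?_ ε N
      have hne : ∀ p : ℝ × ℝ, max p.2 ε ≠ 0 := fun p => (lt_of_lt_of_le hε (le_max_right _ _)).ne'
      exact (hT.comp (continuous_snd.mul continuous_fst)).div
        (continuous_snd.max continuous_const) hne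
    have h2 : (fun m : ℝ => ∫ t in ε..N, T (t * m) / t) = fun m : ℝ => ∫ t in ε..N, T (t * m) / max t ε := by
      funext m
      refine intervalIntegral.integral_congr fun t ht => ?_
      rw [Set.uIcc_of_le hN.le] at ht
      rw [max_eq_left ht.1]
    rw [h2]; exact h1
  have hp : ∀ m : ℝ, 0 < m → |(∫ t in ε..N, T (t * m) / t) - ∫ t in ε..N, T t / t|
      ≤ (2 * M) * |Real.log m| := fun m hm => Rdiff T hT M hM ε N hε hN m hm
  have hn : ∀ m : ℝ, m < 0 → |(∫ t in ε..N, T (t * m) / t) - ∫ t in ε..N, T (-t) / t|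
      ≤ (2 * M) * |Real.log m| := by
    intro m hm
    have h := Rdiff (fun s => T (-s)) (hT.comp continuous_neg) M (fun s => hM (-s)) ε N hε hN (-m)
      (by linarith)
    have e : ∀ t : ℝ, -(t * -m) = t * m := fun t => by ring
    simp only [e, Real.log_neg_eq_log] at h
    exact h
  have h := triple (fun m => ∫ t in ε..N, T (t * m) / t) hcont.measurable
    (∫ t in ε..N, T t / t) (∫ t in ε..N, T (-t) / t) (2 * M) (by linarith) hp hn
  refine h.trans (le_of_eq (by ring))

end TH71
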