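import Pool.Agent.Helper933.TR.Defs
import Pool.Agent.Helper933.TR.P_TT_cont
import Pool.Agent.Helper933.TR.P_TT_supp
import Pool.Agent.Helper933.TR.P_TT_bd
import Pool.Agent.Helper933.TR.P_A2
import Pool.Agent.Helper933.TR.P_U_cont
import Pool.Agent.Helper933.TR.P_A3
import Pool.Agent.Helper933.TR.P_comb
import Pool.Agent.Helper933.TR.P_Lsplit
import Pool.Agent.Helper933.TR.P_R1

set_option autoImplicit false
set_option linter.unusedVariables false

open Matrix MeasureTheory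

namespace TH71


theorem L3 (f g h : ℝ → ℝ → ℝ) (hf : tzT f) (hg : tzT g) (hh : tzT h)
    (ε N : ℝ) (hε : 0 < ε) (hN : ε < N) :
    |tzL (tzTT f g h) ε N| ≤ 300000000 * (tzN f + tzN g + tzN h) := by
  have hc := TT_cont f g h hf hg hh
  obtain ⟨R, _, hR⟩ := TT_supp f g h hf hg hh
  have hbd := TT_bd f g h hf hg hh
  have hM : 0 ≤ tzN f + tzN g + tzN h := le_trans (abs_nonneg _) (hbd 0)
  have h2 := fun (t : ℝ) (ht : 0 < t) (I : ℕ) =>
    A2 (tzTT f g h) hc R hR (12000000 * (tzN f + tzN g + tzN h))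
      (fun δ J => R1 δ J f g h hf hg hh) t ht I
  have h3 := A3 (tzU (tzTT f g h)) (U_cont (tzTT f g h) hc _ hbd)
    (12000000 * (tzN f + tzN g + tzN h)) h2 ε N hε hN
  have h4 := comb (tzTT f g h) hc _ hbd ε N hε hN
  rw [Lsplit (tzTT f g h) hc ε N hε hN]
  rw [abs_le] at h3 h4 ⊢
  constructor <;> nlinarith [h3.1, h3.2, h4.1, h4.2]

end TH71
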