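import Pool.Agent.Helper933.TR.Defs

set_option autoImplicit false
set_option linter.unusedVariables false

open Matrix MeasureTheory

namespace TH71

theorem l3_mp : MeasurePreserving (fun q : ℝ × (ℝ × ℝ) => ((q.2.1, (q.2.2, q.1 - q.2.1 - q.2.2)) : ℝ × (ℝ × ℝ)))
    volume volume := by
  have h1 : MeasurePreserving (Prod.swap : ℝ × (ℝ × ℝ) → (ℝ × ℝ) × ℝ)
      ((volume : Measure ℝ).prod (volume : Measure (ℝ × ℝ)))
      ((volume : Measure (ℝ × ℝ)).prod (volume : Measure ℝ)) := Measure.measurePreserving_swap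
  have h2 : MeasurePreserving (fun p : (ℝ × ℝ) × ℝ => ((id p.1, p.2 - p.1.1 - p.1.2) : (ℝ × ℝ) × ℝ))
      ((volume : Measure (ℝ × ℝ)).prod (volume : Measure ℝ))
      ((volume : Measure (ℝ × ℝ)).prod (volume : Measure ℝ)) := by
    refine MeasurePreserving.skew_product (g := fun (a : ℝ × ℝ) (c : ℝ) => c - a.1 - a.2)
      (MeasurePreserving.id _) ?_ ?_
    · exact (measurable_snd.sub (measurable_fst.comp measurable_fst)).sub
        (measurable_snd.comp measurable_fst)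
    · refine Filter.Eventually.of_forall fun a => ?_
      have : (fun c : ℝ => c - a.1 - a.2) = fun c : ℝ => c - (a.1 + a.2) := by
        funext c; ring
      show Measure.map (fun c : ℝ => c - a.1 - a.2) volume = volume
      rw [this]
      exact (measurePreserving_sub_right volume (a.1 + a.2)).map_eq
  have h3 : MeasurePreserving (MeasurableEquiv.prodAssoc : (ℝ × ℝ) × ℝ ≃ᵐ ℝ × (ℝ × ℝ))
      ((volume : Measure (ℝ × ℝ)).prod (volume : Measure ℝ))
      ((volume : Measure ℝ).prod (volume : Measure (ℝ × ℝ))) :=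
    measurePreserving_prodAssoc (volume : Measure ℝ) (volume : Measure ℝ) (volume : Measure ℝ)
  exact h3.comp (h2.comp h1)

theorem l3_cont (f g h : ℝ → ℝ → ℝ) (hf : tzT f) (hg : tzT g) (hh : tzT h) :
    Continuous (fun x : ℝ × ℝ × ℝ => f x.1 x.2.1 * g x.2.1 x.2.2 * h x.2.2 x.1) := by
  have a : Continuous (fun x : ℝ × ℝ × ℝ => f x.1 x.2.1) :=
    hf.1.comp (continuous_fst.prodMk (continuous_fst.comp continuous_snd))
  have b : Continuous (fun x : ℝ × ℝ × ℝ => g x.2.1 x.2.2) :=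
    hg.1.comp continuous_snd
  have c : Continuous (fun x : ℝ × ℝ × ℝ => h x.2.2 x.1) :=
    hh.1.comp ((continuous_snd.comp continuous_snd).prodMk continuous_fst)
  exact (a.mul b).mul c

theorem l3_int (f g h : ℝ → ℝ → ℝ) (hf : tzT f) (hg : tzT g) (hh : tzT h) :
    Integrable (fun x : ℝ × ℝ × ℝ => f x.1 x.2.1 * g x.2.1 x.2.2 * h x.2.2 x.1) := by
  refine (l3_cont f g h hf hg hh).integrable_of_hasCompactSupport ?_
  have hK : IsCompact ((Prod.fst '' tsupport (fun p : ℝ × ℝ => f p.1 p.2)) ×ˢ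
      tsupport (fun p : ℝ × ℝ => g p.1 p.2)) :=
    (IsCompact.image hf.2 continuous_fst).prod hg.2
  refine HasCompactSupport.intro hK ?_
  rintro ⟨x, y, z⟩ hx
  by_cases hy : (y, z) ∈ tsupport (fun p : ℝ × ℝ => g p.1 p.2)
  · have hxy : (x, y) ∉ tsupport (fun p : ℝ × ℝ => f p.1 p.2) := by
      intro hc
      exact hx ⟨⟨(x, y), hc, rfl⟩, hy⟩
    have : f x y = 0 := image_eq_zero_of_notMem_tsupport (f := fun p : ℝ × ℝ => f p.1 p.2) hxy
    simp [this]
  · have : g y z = 0 := image_eq_zero_of_notMem_tsupport (f := fun p : ℝ × ℝ => g p.1 p.2) hy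
    simp [this]

theorem l3_meas (f g h : ℝ → ℝ → ℝ) (hf : tzT f) (hg : tzT g) (hh : tzT h) (ε N : ℝ) :
    MeasurableSet {x : ℝ × ℝ × ℝ | ε < |x.1 + x.2.1 + x.2.2| ∧ |x.1 + x.2.1 + x.2.2| < N} := by
  have hc : Continuous (fun x : ℝ × ℝ × ℝ => |x.1 + x.2.1 + x.2.2|) := by fun_prop
  exact ((isOpen_lt continuous_const hc).inter (isOpen_lt hc continuous_const)).measurableSet

theorem Lam3_eq (f g h : ℝ → ℝ → ℝ) (hf : tzT f) (hg : tzT g) (hh : tzT h)
    (ε N : ℝ) (hε : 0 < ε) (hN : ε < N) :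
    Lam3 f g h ε N = tzL (tzTT f g h) ε N := by
  set S : Set (ℝ × ℝ × ℝ) :=
    {x | ε < |x.1 + x.2.1 + x.2.2| ∧ |x.1 + x.2.1 + x.2.2| < N} with hS
  have hSm : MeasurableSet S := l3_meas f g h hf hg hh ε N
  set H : ℝ × ℝ × ℝ → ℝ := fun x =>
    f x.1 x.2.1 * g x.2.1 x.2.2 * h x.2.2 x.1 / (x.1 + x.2.1 + x.2.2) with hH
  have hHm : Measurable H :=
    (l3_cont f g h hf hg hh).measurable.div (by fun_prop)
  have hFm : Measurable (S.indicator H) := hHm.indicator hSm
  have hFi : Integrable (S.indicator H) := by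
    refine Integrable.mono' ((l3_int f g h hf hg hh).norm.div_const ε) hFm.aestronglyMeasurable ?_
    refine Filter.Eventually.of_forall fun x => ?_
    by_cases hx : x ∈ S
    · rw [Set.indicator_of_mem hx, hH]
      simp only [norm_div]
      have h1 : ε < ‖x.1 + x.2.1 + x.2.2‖ := hx.1
      exact div_le_div_of_nonneg_left (norm_nonneg _) hε h1.le
    · rw [Set.indicator_of_notMem hx, norm_zero]
      exact div_nonneg (norm_nonneg _) hε.le
  have e1 : Lam3 f g h ε N = ∫ x, S.indicator H x := by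
    rw [integral_indicator hSm]
    rfl
  have e2 : ∫ x, S.indicator H x =
      ∫ q : ℝ × (ℝ × ℝ), S.indicator H (q.2.1, (q.2.2, q.1 - q.2.1 - q.2.2)) := by
    conv_lhs => rw [← l3_mp.map_eq]
    rw [integral_map l3_mp.measurable.aemeasurable hFm.aestronglyMeasurable]
  have hGi : Integrable (fun q : ℝ × (ℝ × ℝ) =>
      S.indicator H (q.2.1, (q.2.2, q.1 - q.2.1 - q.2.2))) :=
    (l3_mp.integrable_comp hFm.aestronglyMeasurable).2 hFi
  have e3 : ∫ q : ℝ × (ℝ × ℝ), S.indicator H (q.2.1, (q.2.2, q.1 - q.2.1 - q.2.2)) =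
      ∫ s : ℝ, ∫ p : ℝ × ℝ, S.indicator H (p.1, (p.2, s - p.1 - p.2)) :=
    integral_prod _ hGi
  have hTm : MeasurableSet {s : ℝ | ε < |s| ∧ |s| < N} :=
    ((isOpen_lt continuous_const continuous_abs).inter
      (isOpen_lt continuous_abs continuous_const)).measurableSet
  rw [e1, e2, e3, tzL, ← integral_indicator hTm]
  congr 1
  funext s
  by_cases hs : s ∈ {s : ℝ | ε < |s| ∧ |s| < N}
  · rw [Set.indicator_of_mem hs, tzTT, ← integral_div]
    congr 1
    funext p
    have e : p.1 + p.2 + (s - p.1 - p.2) = s := by ring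
    have hmem : ((p.1, (p.2, s - p.1 - p.2)) : ℝ × ℝ × ℝ) ∈ S := by
      show ε < |p.1 + p.2 + (s - p.1 - p.2)| ∧ |p.1 + p.2 + (s - p.1 - p.2)| < N
      rw [e]; exact hs
    rw [Set.indicator_of_mem hmem]
    show f p.1 p.2 * g p.2 (s - p.1 - p.2) * h (s - p.1 - p.2) p.1 /
      (p.1 + p.2 + (s - p.1 - p.2)) = _
    rw [e]
  · rw [Set.indicator_of_notMem hs]
    have : (fun p : ℝ × ℝ => S.indicator H (p.1, (p.2, s - p.1 - p.2))) = fun _ => 0 := by
      funext p
      have e : p.1 + p.2 + (s - p.1 - p.2) = s := by ring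
      have hmem : ((p.1, (p.2, s - p.1 - p.2)) : ℝ × ℝ × ℝ) ∉ S := by
        show ¬ (ε < |p.1 + p.2 + (s - p.1 - p.2)| ∧ |p.1 + p.2 + (s - p.1 - p.2)| < N)
        rw [e]; exact hs
      rw [Set.indicator_of_notMem hmem]
    rw [this]
    simp

end TH71
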