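import Pool.Agent.Helper933.TR.Defs

set_option autoImplicit false
set_option linter.unusedVariables false

open Matrix MeasureTheory

namespace TH71


theorem Lam3_hom (f g h : ℝ → ℝ → ℝ) (u v w ε N : ℝ) :
    Lam3 (fun x y => u * f x y) (fun x y => v * g x y) (fun x y => w * h x y) ε N =
      u * v * w * Lam3 f g h ε N := by
  unfold Lam3
  rw [← integral_const_mul]
  congr 1
  funext x
  ring

end TH71
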