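import Pool.Agent.Helper933.TR.Defs

set_option autoImplicit false
set_option linter.unusedVariables false

open Matrix MeasureTheory

namespace TH71


theorem homog_zero (A b c C : ℝ) (hb : 0 ≤ b) (hc : 0 ≤ c) (hC : 0 ≤ C)
    (h : ∀ u v w : ℝ, 0 < u → 0 < v → 0 < w →
      |u * v * w * A| ≤ C * (v ^ 3 * b + w ^ 3 * c)) : A = 0 := by
  by_contra hA
  have hA' : 0 < |A| := abs_pos.2 hA
  have hbc : 0 ≤ C * (b + c) := mul_nonneg hC (by linarith)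
  obtain ⟨t, ht⟩ : ∃ t, t = C * (b + c) / |A| + 1 := ⟨_, rfl⟩
  have ht1 : 1 ≤ t := by
    rw [ht]
    have : 0 ≤ C * (b + c) / |A| := div_nonneg hbc hA'.le
    linarith
  have ht0 : 0 < t := by linarith
  have h1 := h (t ^ 2) t⁻¹ t⁻¹ (by positivity) (by positivity) (by positivity)
  have e1 : t ^ 2 * t⁻¹ * t⁻¹ * A = A := by field_simp
  rw [e1] at h1
  have e2 : C * (t⁻¹ ^ 3 * b + t⁻¹ ^ 3 * c) = C * (b + c) * (t⁻¹) ^ 3 := by ring
  rw [e2] at h1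
  have h2 : (t⁻¹) ^ 3 ≤ t⁻¹ := by
    have h3 : t⁻¹ ≤ 1 := inv_le_one_of_one_le₀ ht1
    have h4 : 0 ≤ t⁻¹ := by positivity
    calc t⁻¹ ^ 3 = t⁻¹ * (t⁻¹ * t⁻¹) := by ring
      _ ≤ t⁻¹ * (1 * 1) := by gcongr
      _ = t⁻¹ := by ring
  have h5 : |A| ≤ C * (b + c) * t⁻¹ := h1.trans (mul_le_mul_of_nonneg_left h2 hbc)
  have h6 : |A| * t ≤ C * (b + c) := by
    calc |A| * t ≤ (C * (b + c) * t⁻¹) * t := mul_le_mul_of_nonneg_right h5 ht0.le
      _ = C * (b + c) := by field_simp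
  have h7 : |A| * t = C * (b + c) + |A| := by
    rw [ht]; field_simp
  linarith

/-- from a bound by the sum of the cubes to a bound by the product -/
theorem homog (A a b c C : ℝ) (ha : 0 ≤ a) (hb : 0 ≤ b) (hc : 0 ≤ c) (hC : 0 ≤ C)
    (h : ∀ u v w : ℝ, 0 < u → 0 < v → 0 < w →
      |u * v * w * A| ≤ C * (u ^ 3 * a + v ^ 3 * b + w ^ 3 * c)) :
    |A| ≤ 3 * C * (a ^ ((1:ℝ)/3) * b ^ ((1:ℝ)/3) * c ^ ((1:ℝ)/3)) := by
  have hrhs : 0 ≤ 3 * C * (a ^ ((1:ℝ)/3) * b ^ ((1:ℝ)/3) * c ^ ((1:ℝ)/3)) := by positivity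
  rcases ha.eq_or_lt with ha0 | ha0
  · have hA : A = 0 := homog_zero A b c C hb hc hC (fun u v w hu hv hw => by
      have := h u v w hu hv hw
      rw [← ha0, mul_zero, zero_add] at this
      exact this)
    rw [hA, abs_zero]; exact hrhs
  rcases hb.eq_or_lt with hb0 | hb0
  · have hA : A = 0 := homog_zero A a c C ha hc hC (fun u v w hu hv hw => by
      have := h v u w hv hu hw
      rw [← hb0, mul_zero, add_zero] at this
      rw [mul_comm u v]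
      exact this)
    rw [hA, abs_zero]; exact hrhs
  rcases hc.eq_or_lt with hc0 | hc0
  · have hA : A = 0 := homog_zero A a b C ha hb hC (fun u v w hu hv hw => by
      have := h v w u hv hw hu
      rw [← hc0, mul_zero, add_zero] at this
      have e : u * v * w * A = v * w * u * A := by ring
      rw [e]
      exact this)
    rw [hA, abs_zero]; exact hrhs
  have cube : ∀ x : ℝ, 0 < x → (x ^ ((1:ℝ)/3)) ^ 3 = x := by
    intro x hx
    rw [← Real.rpow_natCast, ← Real.rpow_mul hx.le]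
    norm_num
  obtain ⟨p, hp⟩ : ∃ p, p = a ^ ((1:ℝ)/3) := ⟨_, rfl⟩
  obtain ⟨q, hq⟩ : ∃ q, q = b ^ ((1:ℝ)/3) := ⟨_, rfl⟩
  obtain ⟨r, hr⟩ : ∃ r, r = c ^ ((1:ℝ)/3) := ⟨_, rfl⟩
  have p3 : p ^ 3 = a := by rw [hp]; exact cube a ha0
  have q3 : q ^ 3 = b := by rw [hq]; exact cube b hb0
  have r3 : r ^ 3 = c := by rw [hr]; exact cube c hc0
  have pp : 0 < p := by rw [hp]; positivity
  have qp : 0 < q := by rw [hq]; positivity
  have rp : 0 < r := by rw [hr]; positivity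
  rw [← hp, ← hq, ← hr]
  have h1 := h p⁻¹ q⁻¹ r⁻¹ (by positivity) (by positivity) (by positivity)
  rw [← p3, ← q3, ← r3] at h1
  have e1 : C * (p⁻¹ ^ 3 * p ^ 3 + q⁻¹ ^ 3 * q ^ 3 + r⁻¹ ^ 3 * r ^ 3) = 3 * C := by
    field_simp; ring
  rw [e1, abs_mul, abs_of_pos (by positivity : 0 < p⁻¹ * q⁻¹ * r⁻¹)] at h1
  calc |A| = (p⁻¹ * q⁻¹ * r⁻¹ * |A|) * (p * q * r) := by field_simp
    _ ≤ 3 * C * (p * q * r) := mul_le_mul_of_nonneg_right h1 (by positivity)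

end TH71
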