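import Pool.Agent.Helper933.TR.Defs
import Pool.Agent.Helper933.TR.P_L3
import Pool.Agent.Helper933.TR.P_Lam3_eq
import Pool.Agent.Helper933.TR.P_Lam3_hom
import Pool.Agent.Helper933.TR.P_homog

set_option autoImplicit false
set_option linter.unusedVariables false

open Matrix MeasureTheory

namespace TH71


theorem Lam3_bound (f g h : ℝ → ℝ → ℝ) (hf : tzT f) (hg : tzT g) (hh : tzT h)
    (ε N : ℝ) (hε : 0 < ε) (hN : ε < N) :
    |Lam3 f g h ε N| ≤ 900000000 * (nrm3 f * nrm3 g * nrm3 h) := by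
  have hT : ∀ (u : ℝ) (f : ℝ → ℝ → ℝ), tzT f → tzT (fun x y => u * f x y) := by
    intro u f hf
    refine ⟨continuous_const.mul hf.1, ?_⟩
    exact hf.2.mul_left (f := fun _ => u)
  have hNn : ∀ (u : ℝ) (f : ℝ → ℝ → ℝ), 0 < u → tzN (fun x y => u * f x y) = u ^ 3 * tzN f := by
    intro u f hu
    unfold tzN
    rw [← integral_const_mul]
    refine integral_congr_ae (Filter.Eventually.of_forall fun p => ?_)
    simp only []
    rw [abs_mul, abs_of_pos hu, mul_pow]
  have hN0 : ∀ f : ℝ → ℝ → ℝ, 0 ≤ tzN f := fun f => integral_nonneg fun p => by positivity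
  have key := homog (Lam3 f g h ε N) (tzN f) (tzN g) (tzN h) 300000000 (hN0 f) (hN0 g) (hN0 h)
    (by norm_num) (by
      intro u v w hu hv hw
      rw [← Lam3_hom, Lam3_eq _ _ _ (hT u f hf) (hT v g hg) (hT w h hh) ε N hε hN]
      have h1 := L3 _ _ _ (hT u f hf) (hT v g hg) (hT w h hh) ε N hε hN
      rw [hNn u f hu, hNn v g hv, hNn w h hw] at h1
      exact h1)
  have e : (3 : ℝ) * 300000000 = 900000000 := by norm_num
  rw [e] at key
  exact key

end TH71
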