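import Pool.Agent.Helper933.TR.Defs

set_option autoImplicit false
set_option linter.unusedVariables false

open Matrix MeasureTheory

namespace TH71


theorem l4_mp : MeasurePreserving
    (fun q : ℝ × (ℝ × ℝ × ℝ) => ((q.2.1 - q.1, q.2.2.1, q.2.2.2, q.1) : ℝ × ℝ × ℝ × ℝ))
    volume volume := by
  have m1 : MeasurePreserving (Prod.swap : ℝ × (ℝ × ℝ × ℝ) → (ℝ × ℝ × ℝ) × ℝ)
      (volume.prod volume) (volume.prod volume) := Measure.measurePreserving_swap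
  have m2 : MeasurePreserving (MeasurableEquiv.prodAssoc : (ℝ × (ℝ × ℝ)) × ℝ ≃ᵐ ℝ × ((ℝ × ℝ) × ℝ))
      (((volume : Measure ℝ).prod (volume : Measure (ℝ × ℝ))).prod (volume : Measure ℝ))
      ((volume : Measure ℝ).prod ((volume : Measure (ℝ × ℝ)).prod (volume : Measure ℝ))) :=
    measurePreserving_prodAssoc volume (volume : Measure (ℝ × ℝ)) volume
  have m3 : MeasurePreserving (Prod.map id (MeasurableEquiv.prodAssoc : (ℝ × ℝ) × ℝ ≃ᵐ ℝ × (ℝ × ℝ)) :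
      ℝ × ((ℝ × ℝ) × ℝ) → ℝ × (ℝ × (ℝ × ℝ)))
      ((volume : Measure ℝ).prod (((volume : Measure ℝ).prod (volume : Measure ℝ)).prod (volume : Measure ℝ)))
      ((volume : Measure ℝ).prod ((volume : Measure ℝ).prod ((volume : Measure ℝ).prod (volume : Measure ℝ)))) :=
    (MeasurePreserving.id volume).prod (measurePreserving_prodAssoc volume volume volume)
  have m4 : MeasurePreserving (fun p : (ℝ × ℝ × ℝ) × ℝ => (p.1, p.2 - p.1.2.2))
      ((volume : Measure (ℝ × ℝ × ℝ)).prod (volume : Measure ℝ))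
      ((volume : Measure (ℝ × ℝ × ℝ)).prod (volume : Measure ℝ)) := by
    refine MeasurePreserving.skew_product (f := id) (MeasurePreserving.id _)
      (g := fun (t : ℝ × ℝ × ℝ) (x : ℝ) => x - t.2.2) ?_ ?_
    · have : Measurable (fun p : (ℝ × ℝ × ℝ) × ℝ => p.2 - p.1.2.2) := by fun_prop
      exact this
    · exact Filter.Eventually.of_forall (fun t => (measurePreserving_sub_right volume t.2.2).map_eq)
  have m5 : MeasurePreserving (Prod.swap : ℝ × (ℝ × ℝ × ℝ) → (ℝ × ℝ × ℝ) × ℝ)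
      (volume.prod volume) (volume.prod volume) := Measure.measurePreserving_swap
  have m6 : MeasurePreserving (Prod.swap : (ℝ × ℝ × ℝ) × ℝ → ℝ × (ℝ × ℝ × ℝ))
      (volume.prod volume) (volume.prod volume) := Measure.measurePreserving_swap
  exact m6.comp (m4.comp (m5.comp (m3.comp (m2.comp m1))))

theorem l4_bd (g : ℝ → ℝ → ℝ → ℝ) (hg : tzT3 g) : ∃ R : ℝ, ∀ x y z, g x y z ≠ 0 →
    |x| ≤ R ∧ |y| ≤ R ∧ |z| ≤ R := by
  obtain ⟨R, hR⟩ := hg.2.isCompact.isBounded.subset_closedBall (0 : ℝ × ℝ × ℝ)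
  refine ⟨R, fun x y z h => ?_⟩
  have h1 : ((x, y, z) : ℝ × ℝ × ℝ) ∈ tsupport (fun p : ℝ × ℝ × ℝ => g p.1 p.2.1 p.2.2) :=
    subset_tsupport _ h
  have h2 := hR h1
  rw [mem_closedBall_zero_iff, Prod.norm_def, Prod.norm_def] at h2
  simp only [Real.norm_eq_abs, max_le_iff] at h2
  exact h2

theorem Lam4_eq (a b c : ℝ → ℝ → ℝ) (g h k : ℝ → ℝ → ℝ → ℝ)
    (ha : Continuous (fun p : ℝ × ℝ => a p.1 p.2)) (hb : Continuous (fun p : ℝ × ℝ => b p.1 p.2))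
    (hc : Continuous (fun p : ℝ × ℝ => c p.1 p.2)) (hg : tzT3 g) (hh : tzT3 h) (hk : tzT3 k)
    (ε N : ℝ) (hε : 0 < ε) (hN : ε < N) :
    Lam4 (fun x y z => a x y * b y z * c z x) g h k ε N =
      ∫ w : ℝ, Lam3 (fun x y => a (x - w) y * k w (x - w) y) (fun y z => b y z * g y z w)
        (fun z x => c z (x - w) * h z w (x - w)) ε N := by
  classical
  set S : Set (ℝ × ℝ × ℝ × ℝ) := {x | ε < |x.1 + x.2.1 + x.2.2.1 + x.2.2.2| ∧
      |x.1 + x.2.1 + x.2.2.1 + x.2.2.2| < N} with hS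
  have hsc : Continuous (fun x : ℝ × ℝ × ℝ × ℝ => |x.1 + x.2.1 + x.2.2.1 + x.2.2.2|) := by fun_prop
  have hSm : MeasurableSet S :=
    ((isOpen_lt continuous_const hsc).inter (isOpen_lt hsc continuous_const)).measurableSet
  set Ψ : ℝ × ℝ × ℝ × ℝ → ℝ := fun x => a x.1 x.2.1 * b x.2.1 x.2.2.1 * c x.2.2.1 x.1 *
    g x.2.1 x.2.2.1 x.2.2.2 * h x.2.2.1 x.2.2.2 x.1 * k x.2.2.2 x.1 x.2.1 with hΨ
  set κ : ℝ × ℝ × ℝ × ℝ → ℝ := S.indicator (fun x => (x.1 + x.2.1 + x.2.2.1 + x.2.2.2)⁻¹) with hκ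
  have hΨc : Continuous Ψ := by
    have c1 : Continuous (fun x : ℝ × ℝ × ℝ × ℝ => a x.1 x.2.1) :=
      ha.comp (f := fun x : ℝ × ℝ × ℝ × ℝ => (x.1, x.2.1)) (by fun_prop)
    have c2 : Continuous (fun x : ℝ × ℝ × ℝ × ℝ => b x.2.1 x.2.2.1) :=
      hb.comp (f := fun x : ℝ × ℝ × ℝ × ℝ => (x.2.1, x.2.2.1)) (by fun_prop)
    have c3 : Continuous (fun x : ℝ × ℝ × ℝ × ℝ => c x.2.2.1 x.1) :=
      hc.comp (f := fun x : ℝ × ℝ × ℝ × ℝ => (x.2.2.1, x.1)) (by fun_prop)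
    have c4 : Continuous (fun x : ℝ × ℝ × ℝ × ℝ => g x.2.1 x.2.2.1 x.2.2.2) :=
      hg.1.comp (f := fun x : ℝ × ℝ × ℝ × ℝ => (x.2.1, x.2.2.1, x.2.2.2)) (by fun_prop)
    have c5 : Continuous (fun x : ℝ × ℝ × ℝ × ℝ => h x.2.2.1 x.2.2.2 x.1) :=
      hh.1.comp (f := fun x : ℝ × ℝ × ℝ × ℝ => (x.2.2.1, x.2.2.2, x.1)) (by fun_prop)
    have c6 : Continuous (fun x : ℝ × ℝ × ℝ × ℝ => k x.2.2.2 x.1 x.2.1) :=
      hk.1.comp (f := fun x : ℝ × ℝ × ℝ × ℝ => (x.2.2.2, x.1, x.2.1)) (by fun_prop)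
    exact ((((c1.mul c2).mul c3).mul c4).mul c5).mul c6
  obtain ⟨R1, hR1⟩ := l4_bd g hg
  obtain ⟨R2, hR2⟩ := l4_bd h hh
  have hΨs : HasCompactSupport Ψ := by
    refine HasCompactSupport.intro (isCompact_closedBall (0 : ℝ × ℝ × ℝ × ℝ) (max R1 R2)) ?_
    intro x hx
    by_contra hne
    apply hx
    have n1 : g x.2.1 x.2.2.1 x.2.2.2 ≠ 0 := by
      intro h0; apply hne; simp only [hΨ, h0]; ring
    have n2 : h x.2.2.1 x.2.2.2 x.1 ≠ 0 := by
      intro h0; apply hne; simp only [hΨ, h0]; ring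
    obtain ⟨p1, p2, p3⟩ := hR1 _ _ _ n1
    obtain ⟨q1, q2, q3⟩ := hR2 _ _ _ n2
    rw [mem_closedBall_zero_iff, Prod.norm_def, Prod.norm_def, Prod.norm_def]
    simp only [Real.norm_eq_abs, max_le_iff]
    exact ⟨le_max_of_le_right q3, le_max_of_le_left p1, le_max_of_le_left p2, le_max_of_le_left p3⟩
  have hΨi : Integrable Ψ := hΨc.integrable_of_hasCompactSupport hΨs
  have hκm : Measurable κ := by
    refine Measurable.indicator ?_ hSm
    have : Measurable (fun x : ℝ × ℝ × ℝ × ℝ => x.1 + x.2.1 + x.2.2.1 + x.2.2.2) := by fun_prop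
    exact this.inv
  have hκb : ∀ x, ‖κ x‖ ≤ ε⁻¹ := by
    intro x
    simp only [hκ]
    by_cases hx : x ∈ S
    · rw [Set.indicator_of_mem hx, norm_inv, Real.norm_eq_abs]
      exact inv_anti₀ hε hx.1.le
    · rw [Set.indicator_of_notMem hx, norm_zero]; positivity
  set G : ℝ × ℝ × ℝ × ℝ → ℝ := fun x => Ψ x * κ x with hG
  have hGi : Integrable G :=
    hΨi.mul_bdd hκm.aestronglyMeasurable (Filter.Eventually.of_forall hκb)
  have hL : Lam4 (fun x y z => a x y * b y z * c z x) g h k ε N = ∫ x, G x := by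
    unfold Lam4
    rw [← integral_indicator hSm]
    refine integral_congr_ae (Filter.Eventually.of_forall (fun x => ?_))
    simp only [hG, hκ]
    by_cases hx : x ∈ S
    · rw [Set.indicator_of_mem hx, Set.indicator_of_mem hx, div_eq_mul_inv]
    · rw [Set.indicator_of_notMem hx, Set.indicator_of_notMem hx, mul_zero]
  have hmp := l4_mp
  have hL2 : ∫ x, G x = ∫ q : ℝ × (ℝ × ℝ × ℝ), G (q.2.1 - q.1, q.2.2.1, q.2.2.2, q.1) := by
    conv_lhs => rw [← hmp.map_eq]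
    rw [integral_map hmp.measurable.aemeasurable]
    rw [hmp.map_eq]
    exact hGi.aestronglyMeasurable
  have hGe : Integrable (fun q : ℝ × (ℝ × ℝ × ℝ) => G (q.2.1 - q.1, q.2.2.1, q.2.2.2, q.1)) :=
    (hmp.integrable_comp hGi.aestronglyMeasurable).2 hGi
  have hL3 : ∫ q : ℝ × (ℝ × ℝ × ℝ), G (q.2.1 - q.1, q.2.2.1, q.2.2.2, q.1)
      = ∫ w : ℝ, ∫ v : ℝ × ℝ × ℝ, G (v.1 - w, v.2.1, v.2.2, w) := by
    rw [Measure.volume_eq_prod]
    exact integral_prod _ hGe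
  rw [hL, hL2, hL3]
  refine integral_congr_ae (Filter.Eventually.of_forall (fun w => ?_))
  simp only
  unfold Lam3
  have hs3 : Continuous (fun x : ℝ × ℝ × ℝ => |x.1 + x.2.1 + x.2.2|) := by fun_prop
  have hS3m : MeasurableSet {x : ℝ × ℝ × ℝ | ε < |x.1 + x.2.1 + x.2.2| ∧ |x.1 + x.2.1 + x.2.2| < N} :=
    ((isOpen_lt continuous_const hs3).inter (isOpen_lt hs3 continuous_const)).measurableSet
  rw [← integral_indicator hS3m]
  refine integral_congr_ae (Filter.Eventually.of_forall (fun v => ?_))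
  simp only [hG, hκ]
  have es : v.1 - w + v.2.1 + v.2.2 + w = v.1 + v.2.1 + v.2.2 := by ring
  have hiff : ((v.1 - w, v.2.1, v.2.2, w) : ℝ × ℝ × ℝ × ℝ) ∈ S ↔
      v ∈ {x : ℝ × ℝ × ℝ | ε < |x.1 + x.2.1 + x.2.2| ∧ |x.1 + x.2.1 + x.2.2| < N} := by
    simp only [hS, Set.mem_setOf_eq, es]
  by_cases hx : v ∈ {x : ℝ × ℝ × ℝ | ε < |x.1 + x.2.1 + x.2.2| ∧ |x.1 + x.2.1 + x.2.2| < N}
  · rw [Set.indicator_of_mem hx, Set.indicator_of_mem (hiff.2 hx)]
    simp only [hΨ, es]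
    rw [div_eq_mul_inv]
    ring
  · rw [Set.indicator_of_notMem hx, Set.indicator_of_notMem (fun h' => hx (hiff.1 h')), mul_zero]

end TH71
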