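import Pool.Agent.Helper933.TR.Defs

set_option autoImplicit false
set_option linter.unusedVariables false

open Matrix MeasureTheory

namespace TH71


theorem slices_aux (F : ℝ × ℝ → ℝ) (hF : Continuous F) (k : ℝ → ℝ → ℝ → ℝ) (hk : tzT3 k)
    (φ : ℝ × ℝ → ℝ × ℝ × ℝ) (ψ : ℝ × ℝ × ℝ → ℝ × ℝ) (hφ : Continuous φ) (hψ : Continuous ψ)
    (hinv : ∀ p, ψ (φ p) = p) :
    Continuous (fun p => F p * k (φ p).1 (φ p).2.1 (φ p).2.2) ∧
      HasCompactSupport (fun p => F p * k (φ p).1 (φ p).2.1 (φ p).2.2) := by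
  refine ⟨hF.mul (hk.1.comp hφ), ?_⟩
  refine HasCompactSupport.intro (hk.2.isCompact.image hψ) (fun p hp => ?_)
  have h0 : k (φ p).1 (φ p).2.1 (φ p).2.2 = 0 := by
    by_contra hne
    apply hp
    refine ⟨φ p, subset_tsupport _ ?_, hinv p⟩
    exact hne
  rw [h0, mul_zero]

theorem slices (a b c : ℝ → ℝ → ℝ) (g h k : ℝ → ℝ → ℝ → ℝ)
    (ha : Continuous (fun p : ℝ × ℝ => a p.1 p.2)) (hb : Continuous (fun p : ℝ × ℝ => b p.1 p.2))
    (hc : Continuous (fun p : ℝ × ℝ => c p.1 p.2)) (hg : tzT3 g) (hh : tzT3 h) (hk : tzT3 k)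
    (w : ℝ) :
    tzT (fun x y => a (x - w) y * k w (x - w) y) ∧ tzT (fun y z => b y z * g y z w) ∧
      tzT (fun z x => c z (x - w) * h z w (x - w)) := by
  refine ⟨?_, ?_, ?_⟩
  · exact slices_aux (fun p : ℝ × ℝ => a (p.1 - w) p.2)
      (ha.comp ((continuous_fst.sub continuous_const).prodMk continuous_snd)) k hk
      (fun p => (w, p.1 - w, p.2)) (fun q => (q.2.1 + w, q.2.2))
      (continuous_const.prodMk ((continuous_fst.sub continuous_const).prodMk continuous_snd))
      (((continuous_fst.comp continuous_snd).add continuous_const).prodMk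
        (continuous_snd.comp continuous_snd))
      (fun p => by ext <;> simp)
  · exact slices_aux (fun p : ℝ × ℝ => b p.1 p.2) hb g hg
      (fun p => (p.1, p.2, w)) (fun q => (q.1, q.2.1))
      (continuous_fst.prodMk (continuous_snd.prodMk continuous_const))
      (continuous_fst.prodMk (continuous_fst.comp continuous_snd))
      (fun p => rfl)
  · exact slices_aux (fun p : ℝ × ℝ => c p.1 (p.2 - w))
      (hc.comp (continuous_fst.prodMk (continuous_snd.sub continuous_const))) h hh
      (fun p => (p.1, w, p.2 - w)) (fun q => (q.1, q.2.2 + w))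
      (continuous_fst.prodMk (continuous_const.prodMk (continuous_snd.sub continuous_const)))
      (continuous_fst.prodMk ((continuous_snd.comp continuous_snd).add continuous_const))
      (fun p => by ext <;> simp)

end TH71
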