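import Pool.Agent.Helper933.TR.Defs
import Pool.Agent.Helper933.TR.P_slices

set_option autoImplicit false
set_option linter.unusedVariables false

open Matrix MeasureTheory

namespace TH71


theorem sn_mp2 : MeasurePreserving (fun q : ℝ × ℝ × ℝ => (q.2.1, q.2.2, q.1))
    (volume : Measure (ℝ × ℝ × ℝ)) (volume : Measure (ℝ × ℝ × ℝ)) := by
  have h1 : MeasurePreserving (Prod.swap : ℝ × (ℝ × ℝ) → (ℝ × ℝ) × ℝ)
      ((volume : Measure ℝ).prod (volume : Measure (ℝ × ℝ)))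
      ((volume : Measure (ℝ × ℝ)).prod (volume : Measure ℝ)) := Measure.measurePreserving_swap
  have h2 := measurePreserving_prodAssoc (volume : Measure ℝ) (volume : Measure ℝ)
    (volume : Measure ℝ)
  exact h2.comp h1

theorem sn_mp3 : MeasurePreserving (fun q : ℝ × ℝ × ℝ => (q.2.1, q.1, q.2.2))
    (volume : Measure (ℝ × ℝ × ℝ)) (volume : Measure (ℝ × ℝ × ℝ)) := by
  have h1 : MeasurePreserving (Prod.swap : ℝ × ℝ → ℝ × ℝ)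
      ((volume : Measure ℝ).prod (volume : Measure ℝ))
      ((volume : Measure ℝ).prod (volume : Measure ℝ)) := Measure.measurePreserving_swap
  have h2 := measurePreserving_prodAssoc (volume : Measure ℝ) (volume : Measure ℝ)
    (volume : Measure ℝ)
  have h3 := h1.prod (MeasurePreserving.id (volume : Measure ℝ))
  have h4 := h2.symm
  exact (h2.comp h3).comp h4

theorem sn_gen (G Φ : ℝ × ℝ × ℝ → ℝ) (e : ℝ × ℝ × ℝ → ℝ × ℝ × ℝ)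
    (he : MeasurePreserving e (volume : Measure (ℝ × ℝ × ℝ)) (volume : Measure (ℝ × ℝ × ℝ)))
    (hGc : Continuous G) (hG : Integrable G (volume : Measure (ℝ × ℝ × ℝ)))
    (hΦc : Continuous Φ) (h0 : ∀ q, 0 ≤ Φ q) (h1 : ∀ q, Φ q ≤ G (e q)) :
    Integrable (fun w : ℝ => ∫ p : ℝ × ℝ, Φ (w, p)) ∧
      ∫ w : ℝ, ∫ p : ℝ × ℝ, Φ (w, p) ≤ ∫ q, G q := by
  have hGe : Integrable (fun q => G (e q)) (volume : Measure (ℝ × ℝ × ℝ)) :=
    he.integrable_comp_of_integrable hG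
  have hΦ : Integrable Φ (volume : Measure (ℝ × ℝ × ℝ)) := by
    refine hGe.mono' hΦc.aestronglyMeasurable (ae_of_all _ (fun q => ?_))
    rw [Real.norm_of_nonneg (h0 q)]
    exact h1 q
  have hΦ' : Integrable Φ ((volume : Measure ℝ).prod (volume : Measure (ℝ × ℝ))) := hΦ
  refine ⟨hΦ'.integral_prod_left, ?_⟩
  have e1 : ∫ w : ℝ, ∫ p : ℝ × ℝ, Φ (w, p) = ∫ q, Φ q := (integral_prod Φ hΦ').symm
  have e2 : ∫ q, G (e q) = ∫ q, G q := by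
    conv_rhs => rw [← he.map_eq]
    rw [integral_map he.measurable.aemeasurable hGc.aestronglyMeasurable]
  rw [e1, ← e2]
  exact integral_mono hΦ hGe h1

theorem sn_int (g : ℝ → ℝ → ℝ → ℝ) (hg : tzT3 g) :
    Continuous (fun p : ℝ × ℝ × ℝ => |g p.1 p.2.1 p.2.2| ^ 3) ∧
    Integrable (fun p : ℝ × ℝ × ℝ => |g p.1 p.2.1 p.2.2| ^ 3)
      (volume : Measure (ℝ × ℝ × ℝ)) := by
  have hc : Continuous (fun p : ℝ × ℝ × ℝ => |g p.1 p.2.1 p.2.2| ^ 3) := (hg.1.abs).pow 3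
  have hs : HasCompactSupport (fun p : ℝ × ℝ × ℝ => |g p.1 p.2.1 p.2.2| ^ 3) :=
    hg.2.comp_left (g := fun t : ℝ => |t| ^ 3) (by simp)
  exact ⟨hc, hc.integrable_of_hasCompactSupport hs⟩

theorem sn_le (s t : ℝ) (hs : |s| ≤ 1) : |s * t| ^ 3 ≤ |t| ^ 3 := by
  rw [abs_mul]
  apply pow_le_pow_left₀ (by positivity)
  exact mul_le_of_le_one_left (abs_nonneg _) hs

theorem slice_norm (a b c : ℝ → ℝ → ℝ) (g h k : ℝ → ℝ → ℝ → ℝ)
    (ha : Continuous (fun p : ℝ × ℝ => a p.1 p.2)) (hb : Continuous (fun p : ℝ × ℝ => b p.1 p.2))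
    (hc : Continuous (fun p : ℝ × ℝ => c p.1 p.2)) (hg : tzT3 g) (hh : tzT3 h) (hk : tzT3 k)
    (ha1 : ∀ x y, |a x y| ≤ 1) (hb1 : ∀ x y, |b x y| ≤ 1) (hc1 : ∀ x y, |c x y| ≤ 1) :
    Integrable (fun w : ℝ => tzN (fun x y => a (x - w) y * k w (x - w) y) +
      tzN (fun y z => b y z * g y z w) + tzN (fun z x => c z (x - w) * h z w (x - w))) ∧
    ∫ w : ℝ, (tzN (fun x y => a (x - w) y * k w (x - w) y) +
      tzN (fun y z => b y z * g y z w) + tzN (fun z x => c z (x - w) * h z w (x - w))) ≤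
      (∫ p : ℝ × ℝ × ℝ, |g p.1 p.2.1 p.2.2| ^ 3) + (∫ p : ℝ × ℝ × ℝ, |h p.1 p.2.1 p.2.2| ^ 3) +
      ∫ p : ℝ × ℝ × ℝ, |k p.1 p.2.1 p.2.2| ^ 3 := by
  obtain ⟨gc, gi⟩ := sn_int g hg
  obtain ⟨hcc, hi⟩ := sn_int h hh
  obtain ⟨kc, ki⟩ := sn_int k hk
  -- part 1
  have hkc : Continuous (fun p : ℝ × ℝ × ℝ => k p.1 p.2.1 p.2.2) := hk.1
  have hgc : Continuous (fun p : ℝ × ℝ × ℝ => g p.1 p.2.1 p.2.2) := hg.1
  have hhc : Continuous (fun p : ℝ × ℝ × ℝ => h p.1 p.2.1 p.2.2) := hh.1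
  have c1 : Continuous (fun q : ℝ × ℝ × ℝ => |a q.2.1 q.2.2 * k q.1 q.2.1 q.2.2| ^ 3) := by
    have m1 : Continuous (fun q : ℝ × ℝ × ℝ => a q.2.1 q.2.2) :=
      ha.comp (f := fun q : ℝ × ℝ × ℝ => (q.2.1, q.2.2)) (by fun_prop)
    exact ((m1.mul hkc).abs).pow 3
  obtain ⟨i1, b1⟩ := sn_gen (fun p : ℝ × ℝ × ℝ => |k p.1 p.2.1 p.2.2| ^ 3)
    (fun q => |a q.2.1 q.2.2 * k q.1 q.2.1 q.2.2| ^ 3) id (MeasurePreserving.id _) kc ki c1
    (fun q => by positivity) (fun q => sn_le _ _ (ha1 _ _))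
  have c2 : Continuous (fun q : ℝ × ℝ × ℝ => |b q.2.1 q.2.2 * g q.2.1 q.2.2 q.1| ^ 3) := by
    have m1 : Continuous (fun q : ℝ × ℝ × ℝ => b q.2.1 q.2.2) :=
      hb.comp (f := fun q : ℝ × ℝ × ℝ => (q.2.1, q.2.2)) (by fun_prop)
    have m2 : Continuous (fun q : ℝ × ℝ × ℝ => g q.2.1 q.2.2 q.1) :=
      hgc.comp (f := fun q : ℝ × ℝ × ℝ => (q.2.1, q.2.2, q.1)) (by fun_prop)
    exact ((m1.mul m2).abs).pow 3
  obtain ⟨i2, b2⟩ := sn_gen (fun p : ℝ × ℝ × ℝ => |g p.1 p.2.1 p.2.2| ^ 3)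
    (fun q => |b q.2.1 q.2.2 * g q.2.1 q.2.2 q.1| ^ 3) (fun q => (q.2.1, q.2.2, q.1)) sn_mp2
    gc gi c2 (fun q => by positivity) (fun q => sn_le _ _ (hb1 _ _))
  have c3 : Continuous (fun q : ℝ × ℝ × ℝ => |c q.2.1 q.2.2 * h q.2.1 q.1 q.2.2| ^ 3) := by
    have m1 : Continuous (fun q : ℝ × ℝ × ℝ => c q.2.1 q.2.2) :=
      hc.comp (f := fun q : ℝ × ℝ × ℝ => (q.2.1, q.2.2)) (by fun_prop)
    have m2 : Continuous (fun q : ℝ × ℝ × ℝ => h q.2.1 q.1 q.2.2) :=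
      hhc.comp (f := fun q : ℝ × ℝ × ℝ => (q.2.1, q.1, q.2.2)) (by fun_prop)
    exact ((m1.mul m2).abs).pow 3
  obtain ⟨i3, b3⟩ := sn_gen (fun p : ℝ × ℝ × ℝ => |h p.1 p.2.1 p.2.2| ^ 3)
    (fun q => |c q.2.1 q.2.2 * h q.2.1 q.1 q.2.2| ^ 3) (fun q => (q.2.1, q.1, q.2.2)) sn_mp3
    hcc hi c3 (fun q => by positivity) (fun q => sn_le _ _ (hc1 _ _))
  have e1 : ∀ w : ℝ, tzN (fun x y => a (x - w) y * k w (x - w) y)
      = ∫ p : ℝ × ℝ, |a p.1 p.2 * k w p.1 p.2| ^ 3 := by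
    intro w
    unfold tzN
    have := integral_sub_right_eq_self (μ := (volume : Measure (ℝ × ℝ)))
      (fun p : ℝ × ℝ => |a p.1 p.2 * k w p.1 p.2| ^ 3) ((w, 0) : ℝ × ℝ)
    rw [← this]
    congr 1
    funext p
    simp
  have e3 : ∀ w : ℝ, tzN (fun z x => c z (x - w) * h z w (x - w))
      = ∫ p : ℝ × ℝ, |c p.1 p.2 * h p.1 w p.2| ^ 3 := by
    intro w
    unfold tzN
    have := integral_sub_right_eq_self (μ := (volume : Measure (ℝ × ℝ)))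
      (fun p : ℝ × ℝ => |c p.1 p.2 * h p.1 w p.2| ^ 3) ((0, w) : ℝ × ℝ)
    rw [← this]
    congr 1
    funext p
    simp
  have e2 : ∀ w : ℝ, tzN (fun y z => b y z * g y z w)
      = ∫ p : ℝ × ℝ, |b p.1 p.2 * g p.1 p.2 w| ^ 3 := fun w => rfl
  simp only [e1, e2, e3]
  refine ⟨(i1.add i2).add i3, ?_⟩
  have i12 : Integrable (fun w : ℝ => (∫ p : ℝ × ℝ, |a p.1 p.2 * k w p.1 p.2| ^ 3)
      + ∫ p : ℝ × ℝ, |b p.1 p.2 * g p.1 p.2 w| ^ 3) := i1.add i2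
  rw [integral_add i12 i3, integral_add i1 i2]
  linarith

end TH71
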