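import Pool.Agent.Helper933.TR.Defs
import Pool.Agent.Helper933.TR.P_L3
import Pool.Agent.Helper933.TR.P_Lam3_eq
import Pool.Agent.Helper933.TR.P_homog
import Pool.Agent.Helper933.TR.P_Lam4_eq
import Pool.Agent.Helper933.TR.P_slices
import Pool.Agent.Helper933.TR.P_slice_norm
import Pool.Agent.Helper933.TR.P_Lam4_hom

set_option autoImplicit false
set_option linter.unusedVariables false

open Matrix MeasureTheory

namespace TH71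


theorem Lam4_bound_add (a b c : ℝ → ℝ → ℝ) (g h k : ℝ → ℝ → ℝ → ℝ)
    (ha : Continuous (fun p : ℝ × ℝ => a p.1 p.2)) (hb : Continuous (fun p : ℝ × ℝ => b p.1 p.2))
    (hc : Continuous (fun p : ℝ × ℝ => c p.1 p.2)) (hg : tzT3 g) (hh : tzT3 h) (hk : tzT3 k)
    (ha1 : ∀ x y, |a x y| ≤ 1) (hb1 : ∀ x y, |b x y| ≤ 1) (hc1 : ∀ x y, |c x y| ≤ 1)
    (ε N : ℝ) (hε : 0 < ε) (hN : ε < N) :
    |Lam4 (fun x y z => a x y * b y z * c z x) g h k ε N| ≤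
      300000000 * ((∫ p : ℝ × ℝ × ℝ, |g p.1 p.2.1 p.2.2| ^ 3) +
        (∫ p : ℝ × ℝ × ℝ, |h p.1 p.2.1 p.2.2| ^ 3) +
        ∫ p : ℝ × ℝ × ℝ, |k p.1 p.2.1 p.2.2| ^ 3) := by
  rw [Lam4_eq a b c g h k ha hb hc hg hh hk ε N hε hN]
  obtain ⟨hint, hle⟩ := slice_norm a b c g h k ha hb hc hg hh hk ha1 hb1 hc1
  rw [← Real.norm_eq_abs]
  have h1 := norm_integral_le_of_norm_le (μ := volume)
    (f := fun w : ℝ => Lam3 (fun x y => a (x - w) y * k w (x - w) y) (fun y z => b y z * g y z w)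
        (fun z x => c z (x - w) * h z w (x - w)) ε N) (hint.const_mul 300000000)
    (Filter.Eventually.of_forall (fun w => by
      obtain ⟨s1, s2, s3⟩ := slices a b c g h k ha hb hc hg hh hk w
      rw [Real.norm_eq_abs, Lam3_eq _ _ _ s1 s2 s3 ε N hε hN]
      exact L3 _ _ _ s1 s2 s3 ε N hε hN))
  refine h1.trans ?_
  rw [integral_const_mul]
  exact mul_le_mul_of_nonneg_left hle (by norm_num)

theorem tzT3_smul (u : ℝ) (g : ℝ → ℝ → ℝ → ℝ) (hg : tzT3 g) :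
    tzT3 (fun x y z => u * g x y z) := by
  obtain ⟨h1, h2⟩ := hg
  refine ⟨continuous_const.mul h1, ?_⟩
  exact h2.mul_left (f := fun _ => u)

theorem int3_smul (u : ℝ) (hu : 0 < u) (g : ℝ → ℝ → ℝ → ℝ) :
    (∫ p : ℝ × ℝ × ℝ, |u * g p.1 p.2.1 p.2.2| ^ 3) =
      u ^ 3 * ∫ p : ℝ × ℝ × ℝ, |g p.1 p.2.1 p.2.2| ^ 3 := by
  rw [← integral_const_mul]
  congr 1
  funext p
  rw [abs_mul, mul_pow, abs_of_pos hu]

theorem Lam4_bound (a b c : ℝ → ℝ → ℝ) (g h k : ℝ → ℝ → ℝ → ℝ)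
    (ha : Continuous (fun p : ℝ × ℝ => a p.1 p.2)) (hb : Continuous (fun p : ℝ × ℝ => b p.1 p.2))
    (hc : Continuous (fun p : ℝ × ℝ => c p.1 p.2)) (hg : tzT3 g) (hh : tzT3 h) (hk : tzT3 k)
    (ha1 : ∀ x y, |a x y| ≤ 1) (hb1 : ∀ x y, |b x y| ≤ 1) (hc1 : ∀ x y, |c x y| ≤ 1)
    (ε N : ℝ) (hε : 0 < ε) (hN : ε < N) :
    |Lam4 (fun x y z => a x y * b y z * c z x) g h k ε N| ≤
      900000000 * (nrm33 g * nrm33 h * nrm33 k) := by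
  have h0 : ∀ f : ℝ → ℝ → ℝ → ℝ, 0 ≤ ∫ p : ℝ × ℝ × ℝ, |f p.1 p.2.1 p.2.2| ^ 3 := fun f =>
    integral_nonneg (fun p => by positivity)
  have h1 := homog (Lam4 (fun x y z => a x y * b y z * c z x) g h k ε N)
    (∫ p : ℝ × ℝ × ℝ, |g p.1 p.2.1 p.2.2| ^ 3) (∫ p : ℝ × ℝ × ℝ, |h p.1 p.2.1 p.2.2| ^ 3)
    (∫ p : ℝ × ℝ × ℝ, |k p.1 p.2.1 p.2.2| ^ 3) 300000000 (h0 g) (h0 h) (h0 k) (by norm_num)
    (by
      intro u v w hu hv hw
      rw [← Lam4_hom, ← int3_smul u hu g, ← int3_smul v hv h, ← int3_smul w hw k]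
      exact Lam4_bound_add a b c _ _ _ ha hb hc (tzT3_smul u g hg) (tzT3_smul v h hh)
        (tzT3_smul w k hk) ha1 hb1 hc1 ε N hε hN)
  have h2 : (3:ℝ) * 300000000 = 900000000 := by norm_num
  rw [h2] at h1
  exact h1

end TH71
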